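import Mathlib

set_option autoImplicit false

open Finset

namespace Pool.Agent.Helper470.Basic

/-- The core recurrence over a commutative real algebra. -/
def Rec {R : Type} [CommRing R] [Algebra ℝ R] (k : ℕ) (b : ℕ → ℝ) (x : ℕ → R) : Prop :=
  ∀ n, x (n + k) * x n = b 0 • (1 : R) + ∑ i ∈ Ico 1 k, b i • x (n + i)

/-- Global periodicity on positive real sequences. -/
def PerReal (k : ℕ) (b : ℕ → ℝ) (p : ℕ) : Prop :=
  ∀ x : ℕ → ℝ, (∀ n, 0 < x n) → Rec k b x → ∀ n, x (n + p) = x n

/-- Existence of a sequence with prescribed first values and prescribed recurrence. -/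
noncomputable def mkSeq {R : Type} (k : ℕ) (init : ℕ → R) (G : ℕ → (ℕ → R) → R) : ℕ → R
  | n => if _h : n < k then init n else
      G (n - k) (fun i => if _h' : i < k then mkSeq k init G (n - k + i) else init 0)
termination_by n => n
decreasing_by omega

theorem mkSeq_init {R : Type} (k : ℕ) (init : ℕ → R) (G : ℕ → (ℕ → R) → R) (n : ℕ)
    (h : n < k) : mkSeq k init G n = init n := by
  rw [mkSeq]; simp [h]

theorem mkSeq_rec {R : Type} (k : ℕ) (init : ℕ → R) (G : ℕ → (ℕ → R) → R) (n : ℕ) :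
    mkSeq k init G (n + k) =
      G n (fun i => if i < k then mkSeq k init G (n + i) else init 0) := by
  rw [mkSeq]
  have h : ¬ (n + k < k) := by omega
  simp only [h, dif_neg, not_false_iff, Nat.add_sub_cancel]
  rfl

theorem exists_seq {R : Type} (k : ℕ) (init : ℕ → R) (G : ℕ → (ℕ → R) → R)
    (hG : ∀ n f g, (∀ i, i < k → f i = g i) → G n f = G n g) :
    ∃ x : ℕ → R, (∀ i, i < k → x i = init i) ∧ ∀ n, x (n + k) = G n (fun i => x (n + i)) := by
  refine ⟨mkSeq k init G, fun i hi => mkSeq_init k init G i hi, fun n => ?_⟩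
  rw [mkSeq_rec]
  apply hG
  intro i hi
  simp [hi]

/-- Real positive solutions from positive initial data. -/
theorem exists_pos (k : ℕ) (hk : 1 ≤ k) (b : ℕ → ℝ) (hb : ∀ i, 0 ≤ b i)
    (hs : 0 < b 0 + ∑ i ∈ Ico 1 k, b i) (init : ℕ → ℝ) (hi : ∀ i, i < k → 0 < init i) :
    ∃ x : ℕ → ℝ, (∀ i, i < k → x i = init i) ∧ (∀ n, 0 < x n) ∧ Rec k b x := by
  obtain ⟨x, hx, hr⟩ := exists_seq k init
    (fun _ f => (b 0 + ∑ i ∈ Ico 1 k, b i * f i) / f 0) (by
      intro n f g hfg
      have h1 : ∑ i ∈ Ico 1 k, b i * f i = ∑ i ∈ Ico 1 k, b i * g i := by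
        apply sum_congr rfl
        intro i hi
        rw [hfg i (by simp at hi; omega)]
      simp only [h1, hfg 0 (by omega)])
  have hpos : ∀ n, 0 < x n := by
    intro n
    induction n using Nat.strong_induction_on with
    | _ n ih =>
      by_cases hn : n < k
      · rw [hx n hn]; exact hi n hn
      · obtain ⟨m, rfl⟩ : ∃ m, n = m + k := ⟨n - k, by omega⟩
        rw [hr m]
        apply div_pos _ (by simpa using ih m (by omega))
        rcases (hb 0).lt_or_eq with h0 | h0
        · apply add_pos_of_pos_of_nonneg h0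
          apply sum_nonneg
          intro i hi
          simp at hi
          exact mul_nonneg (hb i) (ih _ (by omega)).le
        · rw [← h0, zero_add] at hs ⊢
          obtain ⟨i, hi, hbi⟩ := exists_lt_of_sum_lt (s := Ico 1 k) (f := fun _ => (0:ℝ))
            (g := b) (by simpa using hs)
          apply sum_pos'
          · intro i hi
            simp at hi
            exact mul_nonneg (hb i) (ih _ (by omega)).le
          · simp at hi
            exact ⟨i, by simp [hi], mul_pos hbi (ih _ (by omega))⟩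
  refine ⟨x, hx, hpos, fun n => ?_⟩
  rw [hr n]
  have : x n ≠ 0 := (hpos n).ne'
  simp only [add_zero, smul_eq_mul, mul_one]
  field_simp

/-- Uniform rational expressions. -/
def Good (k : ℕ) (b : ℕ → ℝ)
    (φ : ∀ (R : Type) [CommRing R] [Algebra ℝ R], (ℕ → R) → R) : Prop :=
  ∃ N D : MvPolynomial (Fin k) ℝ, ∀ (R : Type) [CommRing R] [Algebra ℝ R] (x : ℕ → R),
    (∀ n, IsUnit (x n)) → Rec k b x →
      IsUnit (MvPolynomial.aeval (fun i : Fin k => x i) D) ∧
      φ R x * MvPolynomial.aeval (fun i : Fin k => x i) D =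
        MvPolynomial.aeval (fun i : Fin k => x i) N

theorem good_const (k : ℕ) (b : ℕ → ℝ) (c : ℝ) :
    Good k b (fun R _ _ _ => c • (1 : R)) := by
  refine ⟨MvPolynomial.C c, 1, fun R _ _ x _ _ => ⟨by simp, ?_⟩⟩
  simp [Algebra.smul_def]

theorem good_add (k : ℕ) (b : ℕ → ℝ)
    (φ ψ : ∀ (R : Type) [CommRing R] [Algebra ℝ R], (ℕ → R) → R)
    (h1 : Good k b φ) (h2 : Good k b ψ) :
    Good k b (fun R _ _ x => φ R x + ψ R x) := by
  obtain ⟨N1, D1, H1⟩ := h1
  obtain ⟨N2, D2, H2⟩ := h2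
  refine ⟨N1 * D2 + N2 * D1, D1 * D2, fun R _ _ x hu hr => ?_⟩
  obtain ⟨a1, e1⟩ := H1 R x hu hr
  obtain ⟨a2, e2⟩ := H2 R x hu hr
  refine ⟨by rw [map_mul]; exact a1.mul a2, ?_⟩
  simp only [map_mul, map_add, ← e1, ← e2]
  ring

theorem good_smul (k : ℕ) (b : ℕ → ℝ) (c : ℝ)
    (φ : ∀ (R : Type) [CommRing R] [Algebra ℝ R], (ℕ → R) → R)
    (h1 : Good k b φ) :
    Good k b (fun R _ _ x => c • φ R x) := by
  obtain ⟨N1, D1, H1⟩ := h1
  refine ⟨MvPolynomial.C c * N1, D1, fun R _ _ x hu hr => ?_⟩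
  obtain ⟨a1, e1⟩ := H1 R x hu hr
  refine ⟨a1, ?_⟩
  simp only [map_mul, ← e1, MvPolynomial.algHom_C, Algebra.smul_def]
  ring

theorem good_sum (k : ℕ) (b : ℕ → ℝ) (s : Finset ℕ)
    (φ : ℕ → ∀ (R : Type) [CommRing R] [Algebra ℝ R], (ℕ → R) → R)
    (h1 : ∀ i ∈ s, Good k b (φ i)) :
    Good k b (fun R _ _ x => ∑ i ∈ s, φ i R x) := by
  classical
  induction s using Finset.induction_on with
  | empty =>
    refine ⟨0, 1, fun R _ _ x _ _ => ⟨by simp, by simp⟩⟩
  | insert a s ha ih =>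
    have h2 := good_add k b _ _ (h1 a (by simp)) (ih (fun i hi => h1 i (by simp [hi])))
    obtain ⟨N, D, H⟩ := h2
    refine ⟨N, D, fun R _ _ x hu hr => ?_⟩
    beta_reduce
    rw [sum_insert ha]
    exact H R x hu hr

theorem good_seq (k : ℕ) (hk : 1 ≤ k) (b : ℕ → ℝ) (n : ℕ) :
    Good k b (fun R _ _ x => x n) := by
  induction n using Nat.strong_induction_on with
  | _ n ih =>
    by_cases hn : n < k
    · refine ⟨MvPolynomial.X ⟨n, hn⟩, 1, fun R _ _ x _ _ => ⟨by simp, by simp⟩⟩
    · obtain ⟨m, rfl⟩ : ∃ m, n = m + k := ⟨n - k, by omega⟩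
      have h1 := ih m (by omega)
      have h2 : Good k b (fun R _ _ x => b 0 • (1 : R) + ∑ i ∈ Ico 1 k, b i • x (m + i)) := by
        apply good_add k b _ _ (good_const k b (b 0))
        apply good_sum k b (Ico 1 k) (fun i _ _ _ x => b i • x (m + i))
        intro i hi
        simp at hi
        exact good_smul k b (b i) _ (ih (m + i) (by omega))
      obtain ⟨N1, D1, H1⟩ := h1
      obtain ⟨N2, D2, H2⟩ := h2
      refine ⟨N2 * D1, N1 * D2, fun R _ _ x hu hr => ?_⟩
      obtain ⟨a1, e1⟩ := H1 R x hu hr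
      obtain ⟨a2, e2⟩ := H2 R x hu hr
      beta_reduce at e1 e2 ⊢
      constructor
      · rw [map_mul, ← e1]
        exact ((hu m).mul a1).mul a2
      · rw [map_mul, map_mul, ← e1, ← e2, ← hr m]
        ring

/-- Transfer: periodicity on positive reals implies periodicity for unit sequences over
every commutative real algebra. -/
theorem transfer (k : ℕ) (hk : 1 ≤ k) (b : ℕ → ℝ) (hb : ∀ i, 0 ≤ b i)
    (hs : 0 < b 0 + ∑ i ∈ Ico 1 k, b i) (p : ℕ) (hper : PerReal k b p)
    (R : Type) [CommRing R] [Algebra ℝ R] (x : ℕ → R) (hu : ∀ n, IsUnit (x n))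
    (hr : Rec k b x) (n : ℕ) : x (n + p) = x n := by
  obtain ⟨N, D, H⟩ := good_seq k hk b p
  have key : N = MvPolynomial.X ⟨0, hk⟩ * D := by
    apply MvPolynomial.funext_set (fun _ : Fin k => Set.Ioi (0:ℝ)) (fun _ => Set.Ioi_infinite 0)
    intro z hz
    have hz' : ∀ i, 0 < z i := fun i => hz i (Set.mem_univ _)
    obtain ⟨y, hy, hpos, hrec⟩ := exists_pos k hk b hb hs
      (fun i => if h : i < k then z ⟨i, h⟩ else 1) (by
        intro i hi
        simp [hi, hz'])
    obtain ⟨_, e⟩ := H ℝ y (fun n => (hpos n).ne'.isUnit) hrec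
    have hyz : (fun i : Fin k => y i) = z := by
      funext i
      rw [hy i i.2]
      simp
    have hp := hper y hpos hrec 0
    rw [zero_add] at hp
    beta_reduce at e
    rw [hyz, hp] at e
    have h0 : y 0 = z ⟨0, hk⟩ := by rw [← hyz]
    have hev : ∀ q : MvPolynomial (Fin k) ℝ, MvPolynomial.aeval z q = MvPolynomial.eval z q := by
      intro q
      rw [← MvPolynomial.coe_aeval_eq_eval]
      rfl
    rw [h0, hev, hev] at e
    rw [map_mul, MvPolynomial.eval_X]
    exact e.symm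
  have hr' : Rec k b (fun m => x (n + m)) := by
    intro m
    have := hr (n + m)
    simp only [← add_assoc]
    exact this
  obtain ⟨a1, e1⟩ := H R (fun m => x (n + m)) (fun m => hu _) hr'
  beta_reduce at e1
  rw [key, map_mul, MvPolynomial.aeval_X] at e1
  simp only [add_zero] at e1
  exact a1.mul_right_cancel e1

end Pool.Agent.Helper470.Basic
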