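import Pool.Agent.Helper470.Reduce2

set_option autoImplicit false

open Finset

namespace Pool.Agent.Helper470.Reduce

open Pool.Agent.Helper470.Basic Pool.Agent.Helper470.Perturb Pool.Agent.Helper470.Trop

/-- equivalence with one of the five equations -/
def Equiv5 (k : ℕ) (F : (ℕ → ℝ) → ℝ) : Prop :=
  ∃ l : ℕ, 1 ≤ l ∧ ∃ s : ℝ, 0 < s ∧
    ((k = l ∧ ∀ y : ℕ → ℝ, (∀ i, 0 < y i) → F y = s * (y 0 / s)) ∨
     (k = l ∧ ∀ y : ℕ → ℝ, (∀ i, 0 < y i) → F y = s * (1 / (y 0 / s))) ∨
     (k = 2 * l ∧ ∀ y : ℕ → ℝ, (∀ i, 0 < y i) → F y = s * ((y l / s) / (y 0 / s))) ∨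
     (k = 2 * l ∧ ∀ y : ℕ → ℝ, (∀ i, 0 < y i) → F y = s * ((1 + y l / s) / (y 0 / s))) ∨
     (k = 3 * l ∧ ∀ y : ℕ → ℝ, (∀ i, 0 < y i) →
        F y = s * ((1 + y l / s + y (2 * l) / s) / (y 0 / s))))

theorem case_two (k : ℕ) (hk : 1 ≤ k) (A0 B0 : ℝ) (a c : ℕ → ℝ) (hA0 : 0 ≤ A0) (hB0 : 0 ≤ B0)
    (ha : ∀ j, 0 ≤ a j) (hc : ∀ j, 0 ≤ c j)
    (hAs : 0 < A0 + ∑ j ∈ range k, a j)
    (p : ℕ) (hp : 1 ≤ p) (hper : PerF k A0 B0 a c p)
    (ha0 : a 0 = 0) (hQ : B0 + ∑ j ∈ Ico 1 k, c j = 0) (hc0 : 0 < c 0) :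
    Equiv5 k (Fr k A0 B0 a c) := by
  obtain ⟨hB, hcj⟩ := sum_zero_of hB0 hc hQ
  have hden : ∀ z : ℕ → ℝ, B0 + ∑ j ∈ range k, c j * z j = c 0 * z 0 := by
    intro z
    rw [sum_split k hk (fun j => c j * z j), hB]
    have : ∑ j ∈ Ico 1 k, c j * z j = 0 := by
      apply sum_eq_zero
      intro j hj
      simp only [mem_Ico] at hj
      rw [hcj j hj.1 hj.2, zero_mul]
    rw [this]; ring
  have hnum : ∀ z : ℕ → ℝ, A0 + ∑ j ∈ range k, a j * z j = A0 + ∑ j ∈ Ico 1 k, a j * z j := by
    intro z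
    rw [sum_split k hk (fun j => a j * z j), ha0]
    ring
  have hF : ∀ z : ℕ → ℝ, Fr k A0 B0 a c z = (A0 + ∑ j ∈ Ico 1 k, a j * z j) / (c 0 * z 0) := by
    intro z
    unfold Fr
    rw [hnum, hden]
  obtain ⟨α0, hα0⟩ : ∃ α0, α0 = A0 / c 0 := ⟨_, rfl⟩
  obtain ⟨S, hS⟩ : ∃ S, S = (∑ j ∈ Ico 1 k, a j) / c 0 := ⟨_, rfl⟩
  have hα0n : 0 ≤ α0 := by rw [hα0]; positivity
  have hS0' : 0 ≤ ∑ j ∈ Ico 1 k, a j := sum_nonneg (fun j _ => ha j)
  have hS0 : 0 ≤ S := by rw [hS]; positivity
  have hA0' : A0 = α0 * c 0 := by rw [hα0]; field_simp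
  rcases hS0.lt_or_eq with hSp | hSz
  · -- genuine case
    obtain ⟨X, hX⟩ : ∃ X, X = (S + Real.sqrt (S ^ 2 + 4 * α0)) / 2 := ⟨_, rfl⟩
    have hXp : 0 < X := by
      rw [hX]
      have := Real.sqrt_nonneg (S ^ 2 + 4 * α0)
      linarith
    have hX2 : X ^ 2 = α0 + S * X := by
      have h1 : Real.sqrt (S ^ 2 + 4 * α0) ^ 2 = S ^ 2 + 4 * α0 :=
        Real.sq_sqrt (by positivity)
      rw [hX]
      nlinarith
    obtain ⟨b, hb⟩ : ∃ b : ℕ → ℝ, b = fun j => if j = 0 then α0 / X ^ 2 else a j / c 0 / X :=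
      ⟨_, rfl⟩
    have hb0 : b 0 = α0 / X ^ 2 := by rw [hb]; simp
    have hbj : ∀ j, 1 ≤ j → b j = a j / c 0 / X := by
      intro j hj
      rw [hb]
      simp only [if_neg (by omega : ¬ j = 0)]
    have haj : ∀ j, 1 ≤ j → a j = b j * X * c 0 := by
      intro j hj
      rw [hbj j hj]
      field_simp
    have hsumb : ∀ z : ℕ → ℝ, ∑ j ∈ Ico 1 k, a j * z j =
        (∑ j ∈ Ico 1 k, b j * z j) * X * c 0 := by
      intro z
      rw [sum_mul, sum_mul]
      apply sum_congr rfl
      intro j hj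
      simp only [mem_Ico] at hj
      rw [haj j hj.1]
      ring
    have hA0b : A0 = b 0 * X ^ 2 * c 0 := by
      rw [hb0, hA0']
      field_simp
    have hsum1 : b 0 + ∑ j ∈ Ico 1 k, b j = 1 := by
      have h1 := hsumb (fun _ => 1)
      simp only [mul_one] at h1
      have h2 : S = (∑ j ∈ Ico 1 k, b j) * X := by
        rw [hS, h1]; field_simp
      have h3 : α0 = b 0 * X ^ 2 := by rw [hb0]; field_simp
      rw [h2, h3] at hX2
      have h4 : X ^ 2 * (b 0 + ∑ j ∈ Ico 1 k, b j) = X ^ 2 * 1 := by linarith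
      exact mul_left_cancel₀ (by positivity) h4
    have hFX : ∀ z : ℕ → ℝ, (∀ i, 0 < z i) → Fr k A0 B0 a c z =
        (b 0 * X ^ 2 + (∑ j ∈ Ico 1 k, b j * z j) * X) / z 0 := by
      intro z hz
      rw [hF, hsumb, hA0b]
      have := hz 0
      field_simp
    have hdata : Data k b p := by
      refine ⟨hk, hp, ?_, hsum1, ?_⟩
      · intro i
        rcases Nat.eq_zero_or_pos i with h | h
        · rw [h, hb0]; positivity
        · rw [hbj i h]
          have := ha i
          positivity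
      · intro x hx hr n
        have h1 := hper (fun n => X * x n) (fun i _ => mul_pos hXp (hx i)) (by
          intro n
          rw [hFX (fun j => X * x (n + j)) (fun i => mul_pos hXp (hx _))]
          have h2 := hr n
          simp only [smul_eq_mul, mul_one] at h2
          have h3 : ∑ j ∈ Ico 1 k, b j * (X * x (n + j)) =
              X * ∑ j ∈ Ico 1 k, b j * x (n + j) := by
            rw [mul_sum]
            apply sum_congr rfl
            intro j _
            ring
          rw [h3, add_zero]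
          have h4 := hx n
          rw [eq_div_iff (by positivity)]
          have h5 : b 0 * X ^ 2 + X * (∑ j ∈ Ico 1 k, b j * x (n + j)) * X =
              X ^ 2 * (b 0 + ∑ j ∈ Ico 1 k, b j * x (n + j)) := by ring
          rw [h5, ← h2]
          ring) n
        exact mul_left_cancel₀ hXp.ne' h1
    have hbnn : 0 ≤ b 0 := by rw [hb0]; positivity
    rcases hbnn.lt_or_eq with hbp | hbz
    · -- positive constant term
      have hex : ∃ i, Su k b i := by
        by_contra hcon
        have : ∑ j ∈ Ico 1 k, a j = 0 := by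
          apply sum_eq_zero
          intro j hj
          simp only [mem_Ico] at hj
          by_contra hne
          apply hcon
          refine ⟨j, hj.1, hj.2, ?_⟩
          intro h0
          apply hne
          rw [haj j hj.1, h0]; ring
        rw [hS, this] at hSp
        simp at hSp
      obtain ⟨m, hm, hcase⟩ := PosCase.pos_case hdata hbp hex
      refine ⟨m, hm, b m * X, ?_, ?_⟩
      · rcases hcase with ⟨_, _, h3, _⟩ | ⟨_, _, _, h3, _⟩ <;> positivity
      · rcases hcase with ⟨hk2, hb2, hbm, hz⟩ | ⟨hk3, hb2, hb3, hbm, hz⟩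
        · right; right; right; left
          refine ⟨hk2, fun y hy => ?_⟩
          rw [hFX y hy, hb2]
          have h1 : ∑ j ∈ Ico 1 k, b j * y j = b m * y m := by
            apply sum_eq_single m
            · intro j hj hne
              simp only [mem_Ico] at hj
              rw [hz j hj.1 hj.2 hne, zero_mul]
            · intro hnot
              exfalso
              apply hnot
              simp only [mem_Ico]
              omega
          rw [h1]
          have h2 := hy 0
          have h3 := hy m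
          field_simp
        · right; right; right; right
          refine ⟨hk3, fun y hy => ?_⟩
          rw [hFX y hy, hb2]
          have h1 : ∑ j ∈ Ico 1 k, b j * y j = b m * y m + b (2 * m) * y (2 * m) := by
            apply sum_eq_add m (2 * m) (by omega)
            · intro j hj hne
              simp only [mem_Ico] at hj
              rw [hz j hj.1 hj.2 hne.1 hne.2, zero_mul]
            · intro hnot
              exfalso
              apply hnot
              simp only [mem_Ico]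
              omega
            · intro hnot
              exfalso
              apply hnot
              simp only [mem_Ico]
              omega
          rw [h1, hb3]
          have h2 := hy 0
          have h3 := hy m
          field_simp
          ring
    · -- zero constant term
      obtain ⟨l, hl, hk2, hbl, hz⟩ := ZeroCase.zero_case hdata hbz.symm
      refine ⟨l, hl, X, hXp, ?_⟩
      right; right; left
      refine ⟨hk2, fun y hy => ?_⟩
      rw [hFX y hy, ← hbz]
      have h1 : ∑ j ∈ Ico 1 k, b j * y j = b l * y l := by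
        apply sum_eq_single l
        · intro j hj hne
          simp only [mem_Ico] at hj
          rw [hz j hj.1 hj.2 hne, zero_mul]
        · intro hnot
          exfalso
          apply hnot
          simp only [mem_Ico]
          omega
      rw [h1, hbl]
      have h2 := hy 0
      have h3 := hy l
      field_simp
      ring
  · -- all middle coefficients vanish
    have hsz : ∑ j ∈ Ico 1 k, a j = 0 := by
      rw [hS] at hSz
      rcases div_eq_zero_iff.mp hSz.symm with h | h
      · exact h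
      · exact absurd h hc0.ne'
    have haj : ∀ j, 1 ≤ j → j < k → a j = 0 := by
      intro j hj1 hj2
      exact (sum_eq_zero_iff_of_nonneg (fun j _ => ha j)).mp hsz j (by simp [hj1, hj2])
    have hα : 0 < α0 := by
      rw [sum_split k hk a, ha0, hsz] at hAs
      rw [hα0]
      apply div_pos _ hc0
      linarith
    refine ⟨k, hk, Real.sqrt α0, Real.sqrt_pos.mpr hα, ?_⟩
    right; left
    refine ⟨rfl, fun y hy => ?_⟩
    have h1 : ∑ j ∈ Ico 1 k, a j * y j = 0 := by
      apply sum_eq_zero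
      intro j hj
      simp only [mem_Ico] at hj
      rw [haj j hj.1 hj.2, zero_mul]
    rw [hF, h1, add_zero, hA0']
    have h2 := hy 0
    have h3 : Real.sqrt α0 ^ 2 = α0 := Real.sq_sqrt hα.le
    have h4 := Real.sqrt_pos.mpr hα
    have h5 : Real.sqrt α0 * (1 / (y 0 / Real.sqrt α0)) = Real.sqrt α0 ^ 2 / y 0 := by
      field_simp
    rw [h5, h3]
    field_simp

theorem main (k : ℕ) (hk : 1 ≤ k) (A0 B0 : ℝ) (a c : ℕ → ℝ) (hA0 : 0 ≤ A0) (hB0 : 0 ≤ B0)
    (ha : ∀ j, 0 ≤ a j) (hc : ∀ j, 0 ≤ c j)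
    (hAs : 0 < A0 + ∑ j ∈ range k, a j) (hBs : 0 < B0 + ∑ j ∈ range k, c j)
    (hne : a 0 ^ 2 + c 0 ^ 2 ≠ 0)
    (p : ℕ) (hp : 1 ≤ p) (hper : PerF k A0 B0 a c p) : Equiv5 k (Fr k A0 B0 a c) := by
  have hd := dicho (a 0) (c 0) (A0 + ∑ j ∈ Ico 1 k, a j) (B0 + ∑ j ∈ Ico 1 k, c j) (ha 0) (hc 0)
    (add_nonneg hA0 (sum_nonneg (fun j _ => ha j)))
    (add_nonneg hB0 (sum_nonneg (fun j _ => hc j))) hne
    (fun y hy => surj k hk A0 B0 a c hA0 hB0 ha hc hAs hBs p hp hper y hy)
  rcases hd with ⟨h1, h2, h3⟩ | ⟨h1, h2, h3⟩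
  · refine ⟨k, hk, 1, one_pos, Or.inl ⟨rfl, fun y hy => ?_⟩⟩
    rw [case_one k hk A0 B0 a c hA0 hB0 ha hc hAs hBs p hp hper h1 h2 h3 y hy]
    ring
  · exact case_two k hk A0 B0 a c hA0 hB0 ha hc hAs p hp hper h1 h2 h3

end Pool.Agent.Helper470.Reduce
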