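import Pool.Agent.Helper470.Trop

set_option autoImplicit false

namespace Pool.Agent.Helper470.Orbits

open Pool.Agent.Helper470.Trop

/-- symmetric support with least element `m` -/
structure Sup (k m : ℕ) (I : ℕ → Prop) : Prop where
  m1 : 1 ≤ m
  Im : I m
  lo : ∀ i, I i → m ≤ i
  sym : ∀ i, I i → i < k ∧ I (k - i)

theorem Sup.hi {k m : ℕ} {I : ℕ → Prop} (h : Sup k m I) (i : ℕ) (hi : I i) : i + m ≤ k := by
  have h1 := h.sym i hi
  have h2 := h.lo _ h1.2
  omega

theorem Sup.two {k m : ℕ} {I : ℕ → Prop} (h : Sup k m I) : 2 * m ≤ k := by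
  have := h.hi m h.Im
  omega

theorem Sup.Ikm {k m : ℕ} {I : ℕ → Prop} (h : Sup k m I) : I (k - m) := (h.sym m h.Im).2

/-- the block pattern in the D language -/
def E (k m : ℕ) (B : ℤ) (D D' : ℕ → ℤ) (j : ℕ) : ℤ :=
  if j < k then B - D j
  else if j < 2 * k - m then D (j - k) - D (j - k + m)
  else if j < 2 * k then -B + D (j - k)
  else if j < 3 * k - m then D (j - 2 * k + m) - D ((j - 2 * k) % m)
  else B - D' (j - (3 * k - m))

section
variable (k m : ℕ) (B : ℤ) (D D' : ℕ → ℤ)

theorem E1 (j : ℕ) (h : j < k) : E k m B D D' j = B - D j := by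
  unfold E; rw [if_pos h]

theorem E2 (hm : 2 * m ≤ k) (r : ℕ) (h : r + m < k) :
    E k m B D D' (k + r) = D r - D (r + m) := by
  unfold E
  rw [if_neg (by omega), if_pos (by omega)]
  rw [show k + r - k = r by omega]

theorem E3 (hm : 2 * m ≤ k) (y : ℕ) (h : y < m) :
    E k m B D D' (2 * k - m + y) = -B + D (k - m + y) := by
  unfold E
  rw [if_neg (by omega), if_neg (by omega), if_pos (by omega)]
  rw [show 2 * k - m + y - k = k - m + y by omega]

theorem E4 (hm : 2 * m ≤ k) (x : ℕ) (h : x + m < k) :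
    E k m B D D' (2 * k + x) = D (x + m) - D (x % m) := by
  unfold E
  rw [if_neg (by omega), if_neg (by omega), if_neg (by omega), if_pos (by omega)]
  rw [show 2 * k + x - 2 * k = x by omega]

theorem E5 (hm : 2 * m ≤ k) (y : ℕ) :
    E k m B D D' (3 * k - m + y) = B - D' y := by
  unfold E
  rw [if_neg (by omega), if_neg (by omega), if_neg (by omega), if_neg (by omega)]
  rw [show 3 * k - m + y - (3 * k - m) = y by omega]

end

theorem vblock {k m : ℕ} {I : ℕ → Prop} (h : Sup k m I) (B M : ℤ) (D D' : ℕ → ℤ)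
    (hM : ∀ j, j < k → -M ≤ D j ∧ D j ≤ M) (hM' : ∀ j, j < k → -M ≤ D' j ∧ D' j ≤ M)
    (hB : 5 * M ≤ B)
    (h1 : ∀ r, r < m → D r ≤ D m)
    (h2 : ∀ x y, m ≤ x → x ≤ y → y < k → D x ≤ D y)
    (h3 : ∀ x y r r', m ≤ x → x < y → y < k → r < m → r' < m → D r - D r' ≤ D y - D x)
    (h4 : ∀ r, r < m → D' r = D ((k + r) % m))
    (h5 : ∀ j, m ≤ j → j < k →
      (∀ s, I s → s ≤ j → D' j ≤ D j - D (j % m) + D' (j - s)) ∧
      (∃ s, I s ∧ s ≤ j ∧ D' j = D j - D (j % m) + D' (j - s)))
    (n : ℕ) (hn : n < 3 * k - m) : TropAt k I (E k m B D D') n := by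
  have hm1 := h.m1
  have hm2 := h.two
  have hM0 : 0 ≤ M := by have := hM 0 (by omega); omega
  have hmod : ∀ x, x % m < m := fun x => Nat.mod_lt _ (by omega)
  -- case split into phases
  rcases lt_or_ge n (k - m) with c1 | c1
  · -- phase a
    have e1 : E k m B D D' n = B - D n := E1 k m B D D' n (by omega)
    have e2 : E k m B D D' (n + k) = D n - D (n + m) := by
      rw [add_comm n k]; exact E2 k m B D D' hm2 n (by omega)
    have b1 := hM (n + m) (by omega)
    refine ⟨by rw [e1, e2]; omega, ?_, ?_⟩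
    · intro i hi
      have l1 := h.lo i hi
      have l2 := h.hi i hi
      rw [e1, e2]
      rcases lt_or_ge (n + i) k with c2 | c2
      · rw [E1 k m B D D' (n + i) c2]
        have := h2 (n + m) (n + i) (by omega) (by omega) c2
        omega
      · obtain ⟨r, hr⟩ : ∃ r, n + i = k + r := ⟨n + i - k, by omega⟩
        rw [hr, E2 k m B D D' hm2 r (by omega)]
        have b2 := hM r (by omega)
        have b3 := hM (r + m) (by omega)
        omega
    · right
      refine ⟨m, h.Im, ?_⟩
      rw [e1, e2, E1 k m B D D' (n + m) (by omega)]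
      omega
  rcases lt_or_ge n k with c2 | c2
  · -- phase b
    obtain ⟨y, hy⟩ : ∃ y, n = k - m + y := ⟨n - (k - m), by omega⟩
    have e1 : E k m B D D' n = B - D n := E1 k m B D D' n (by omega)
    have e2 : E k m B D D' (n + k) = -B + D n := by
      have := E3 k m B D D' hm2 y (by omega)
      rw [show 2 * k - m + y = n + k by omega] at this
      rw [this, hy]
    refine ⟨by rw [e1, e2]; omega, ?_, Or.inl (by rw [e1, e2]; omega)⟩
    intro i hi
    have l1 := h.lo i hi
    have l2 := h.hi i hi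
    rw [e1, e2]
    obtain ⟨r, hr⟩ : ∃ r, n + i = k + r := ⟨n + i - k, by omega⟩
    rw [hr, E2 k m B D D' hm2 r (by omega)]
    rcases lt_or_ge r m with c3 | c3
    · have a1 := h1 r c3
      have a2 := h2 m (r + m) (by omega) (by omega) (by omega)
      omega
    · have a2 := h2 r (r + m) (by omega) (by omega) (by omega)
      omega
  rcases lt_or_ge n (2 * k - m) with c3 | c3
  · -- phase c
    obtain ⟨x, hx⟩ : ∃ x, n = k + x := ⟨n - k, by omega⟩
    have e1 : E k m B D D' n = D x - D (x + m) := by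
      rw [hx]; exact E2 k m B D D' hm2 x (by omega)
    have e2 : E k m B D D' (n + k) = D (x + m) - D (x % m) := by
      rw [show n + k = 2 * k + x by omega]
      exact E4 k m B D D' hm2 x (by omega)
    have hc0 : 0 ≤ D x - D (x % m) := by
      rcases lt_or_ge x m with c4 | c4
      · rw [Nat.mod_eq_of_lt c4]; omega
      · have a1 := h1 (x % m) (hmod x)
        have a2 := h2 m x (by omega) c4 (by omega)
        omega
    refine ⟨by rw [e1, e2]; omega, ?_, ?_⟩
    · intro i hi
      have l1 := h.lo i hi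
      have l2 := h.hi i hi
      rw [e1, e2]
      rcases lt_or_ge (n + i) (2 * k - m) with c4 | c4
      · obtain ⟨r, hr⟩ : ∃ r, n + i = k + r := ⟨n + i - k, by omega⟩
        rw [hr, E2 k m B D D' hm2 r (by omega)]
        rcases lt_or_ge r m with c5 | c5
        · have a1 := h1 r c5
          have a2 := h2 m (r + m) (by omega) (by omega) (by omega)
          omega
        · have a2 := h2 r (r + m) (by omega) (by omega) (by omega)
          omega
      rcases lt_or_ge (n + i) (2 * k) with c5 | c5
      · obtain ⟨y, hy⟩ : ∃ y, n + i = 2 * k - m + y := ⟨n + i - (2 * k - m), by omega⟩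
        rw [hy, E3 k m B D D' hm2 y (by omega)]
        have b2 := hM (k - m + y) (by omega)
        omega
      · obtain ⟨x', hx'⟩ : ∃ x', n + i = 2 * k + x' := ⟨n + i - 2 * k, by omega⟩
        rw [hx', E4 k m B D D' hm2 x' (by omega)]
        rcases Nat.eq_or_lt_of_le (show x' + m ≤ x by omega) with c6 | c6
        · have : x % m = x' % m := by rw [← c6]; simp
          rw [this, c6]; omega
        · have := h3 (x' + m) x (x % m) (x' % m) (by omega) c6 (by omega) (hmod _) (hmod _)
          omega
    · rcases lt_or_ge x m with c4 | c4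
      · left
        rw [e1, e2, Nat.mod_eq_of_lt c4]; omega
      · right
        refine ⟨k - m, h.Ikm, ?_⟩
        obtain ⟨x', hx'⟩ : ∃ x', x = x' + m := ⟨x - m, by omega⟩
        rw [e1, e2, show n + (k - m) = 2 * k + x' by omega,
          E4 k m B D D' hm2 x' (by omega)]
        have : x % m = x' % m := by rw [hx']; simp
        rw [this, hx']; omega
  rcases lt_or_ge n (2 * k) with c4 | c4
  · -- phase d
    obtain ⟨r, hr⟩ : ∃ r, n = 2 * k - m + r := ⟨n - (2 * k - m), by omega⟩
    have e1 : E k m B D D' n = -B + D (k - m + r) := by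
      rw [hr]; exact E3 k m B D D' hm2 r (by omega)
    have e2 : E k m B D D' (n + k) = B - D ((k + r) % m) := by
      rw [show n + k = 3 * k - m + r by omega, E5 k m B D D' hm2 r, h4 r (by omega)]
    have hc0 : 0 ≤ D (k - m + r) - D ((k + r) % m) := by
      have a1 := h1 ((k + r) % m) (hmod _)
      have a2 := h2 m (k - m + r) (by omega) (by omega) (by omega)
      omega
    refine ⟨by rw [e1, e2]; omega, ?_, ?_⟩
    · intro i hi
      have l1 := h.lo i hi
      have l2 := h.hi i hi
      rw [e1, e2]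
      obtain ⟨x, hx⟩ : ∃ x, n + i = 2 * k + x := ⟨n + i - 2 * k, by omega⟩
      rw [hx, E4 k m B D D' hm2 x (by omega)]
      rcases Nat.eq_or_lt_of_le (show x + m ≤ k - m + r by omega) with c6 | c6
      · have : (k + r) % m = x % m := by
          rw [show k + r = x + 2 * m by omega]
          simp
        rw [this, c6]; omega
      · have := h3 (x + m) (k - m + r) ((k + r) % m) (x % m) (by omega) c6 (by omega)
          (hmod _) (hmod _)
        omega
    · right
      refine ⟨k - m, h.Ikm, ?_⟩
      obtain ⟨x, hx⟩ : ∃ x, n + (k - m) = 2 * k + x := ⟨n + (k - m) - 2 * k, by omega⟩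
      rw [e1, e2, hx, E4 k m B D D' hm2 x (by omega)]
      have : (k + r) % m = x % m := by
        rw [show k + r = x + 2 * m by omega]
        simp
      rw [this, show k - m + r = x + m by omega]; omega
  · -- phase e
    obtain ⟨x, hx⟩ : ∃ x, n = 2 * k + x := ⟨n - 2 * k, by omega⟩
    have hxm : (x + m) % m = x % m := by simp
    have e1 : E k m B D D' n = D (x + m) - D (x % m) := by
      rw [hx]; exact E4 k m B D D' hm2 x (by omega)
    have e2 : E k m B D D' (n + k) = B - D' (x + m) := by
      rw [show n + k = 3 * k - m + (x + m) by omega, E5 k m B D D' hm2 (x + m)]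
    obtain ⟨q1, s0, hs0, hs0', hs0''⟩ := h5 (x + m) (by omega) (by omega)
    rw [hxm] at q1 hs0''
    have b1 := hM (x + m) (by omega)
    have b2 := hM (x % m) (by have := hmod x; omega)
    have b3 := hM' (x + m) (by omega)
    refine ⟨by rw [e1, e2]; omega, ?_, ?_⟩
    · intro i hi
      have l1 := h.lo i hi
      have l2 := h.hi i hi
      have l3 := (h.sym i hi).2
      rw [e1, e2]
      rcases lt_or_ge (n + i) (3 * k - m) with c5 | c5
      · obtain ⟨x', hx'⟩ : ∃ x', n + i = 2 * k + x' := ⟨n + i - 2 * k, by omega⟩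
        rw [hx', E4 k m B D D' hm2 x' (by omega)]
        have b4 := hM (x' + m) (by omega)
        have b5 := hM (x' % m) (by have := hmod x'; omega)
        omega
      · obtain ⟨y, hy⟩ : ∃ y, n + i = 3 * k - m + y := ⟨n + i - (3 * k - m), by omega⟩
        rw [hy, E5 k m B D D' hm2 y]
        have := q1 (k - i) l3 (by omega)
        rw [show x + m - (k - i) = y by omega] at this
        omega
    · right
      have l3 := h.sym s0 hs0
      have l4 := h.lo s0 hs0
      refine ⟨k - s0, l3.2, ?_⟩
      rw [e1, e2, show n + (k - s0) = 3 * k - m + (x + m - s0) by omega,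
        E5 k m B D D' hm2 (x + m - s0), hs0'']
      omega

/-- passing one block -/
theorem vstep {k m : ℕ} {I : ℕ → Prop} (h : Sup k m I) (u : ℕ → ℤ) (hu : ∀ n, TropAt k I u n)
    (N : ℕ) (B M : ℤ) (D D' : ℕ → ℤ)
    (hM : ∀ j, j < k → -M ≤ D j ∧ D j ≤ M) (hM' : ∀ j, j < k → -M ≤ D' j ∧ D' j ≤ M)
    (hB : 5 * M ≤ B)
    (h1 : ∀ r, r < m → D r ≤ D m)
    (h2 : ∀ x y, m ≤ x → x ≤ y → y < k → D x ≤ D y)
    (h3 : ∀ x y r r', m ≤ x → x < y → y < k → r < m → r' < m → D r - D r' ≤ D y - D x)
    (h4 : ∀ r, r < m → D' r = D ((k + r) % m))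
    (h5 : ∀ j, m ≤ j → j < k →
      (∀ s, I s → s ≤ j → D' j ≤ D j - D (j % m) + D' (j - s)) ∧
      (∃ s, I s ∧ s ≤ j ∧ D' j = D j - D (j % m) + D' (j - s)))
    (hw : ∀ j, j < k → u (N + j) = B - D j) (j : ℕ) (hj : j < k) :
    u (N + (3 * k - m) + j) = B - D' j := by
  have hm2 := h.two
  have hm1 := h.m1
  have := block (fun i hi => (h.sym i hi).1) (by omega) u hu N (3 * k - m) (E k m B D D')
    (vblock h B M D D' hM hM' hB h1 h2 h3 h4 h5) (fun j hj => by
      rw [hw j hj, E1 k m B D D' j hj]) (3 * k - m + j) (by omega)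
  rw [← add_assoc, E5 k m B D D' hm2 j] at this
  exact this

end Pool.Agent.Helper470.Orbits
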