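import Pool.Agent.Helper470.Orbits

set_option autoImplicit false

namespace Pool.Agent.Helper470.Orbits

open Pool.Agent.Helper470.Trop

theorem per_mul {u : ℕ → ℤ} {p : ℕ} (h : ∀ n, u (n + p) = u n) (n q : ℕ) :
    u (n + q * p) = u n := by
  induction q with
  | zero => simp
  | succ q ih =>
    rw [show n + (q + 1) * p = n + q * p + p by ring, h, ih]

/-- iterate blocks -/
theorem viter {k m : ℕ} {I : ℕ → Prop} {p : ℕ} (h : Sup k m I) (hper : PerTrop k I p)
    (B M : ℤ) (D : ℕ → ℕ → ℤ)
    (hM : ∀ t, t ≤ p → ∀ j, j < k → -M ≤ D t j ∧ D t j ≤ M)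
    (hB : 5 * M ≤ B)
    (h1 : ∀ t, t < p → ∀ r, r < m → D t r ≤ D t m)
    (h2 : ∀ t, t < p → ∀ x y, m ≤ x → x ≤ y → y < k → D t x ≤ D t y)
    (h3 : ∀ t, t < p → ∀ x y r r', m ≤ x → x < y → y < k → r < m → r' < m →
      D t r - D t r' ≤ D t y - D t x)
    (h4 : ∀ t, t < p → ∀ r, r < m → D (t + 1) r = D t ((k + r) % m))
    (h5 : ∀ t, t < p → ∀ j, m ≤ j → j < k →
      (∀ s, I s → s ≤ j → D (t + 1) j ≤ D t j - D t (j % m) + D (t + 1) (j - s)) ∧
      (∃ s, I s ∧ s ≤ j ∧ D (t + 1) j = D t j - D t (j % m) + D (t + 1) (j - s)))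
    (j : ℕ) (hj : j < k) : D p j = D 0 j := by
  have hm1 := h.m1
  have hm2 := h.two
  obtain ⟨u, hu0, hu⟩ := exists_trop k (by omega) I (fun i hi => (h.sym i hi).1)
    (fun j => B - D 0 j)
  have key : ∀ t, t ≤ p → ∀ j, j < k → u (t * (3 * k - m) + j) = B - D t j := by
    intro t
    induction t with
    | zero =>
      intro _ j hj
      rw [zero_mul, zero_add]
      exact hu0 j hj
    | succ t ih =>
      intro ht j hj
      have := vstep h u hu (t * (3 * k - m)) B M (D t) (D (t + 1)) (hM t (by omega))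
        (hM (t + 1) ht) hB (h1 t (by omega)) (h2 t (by omega)) (h3 t (by omega))
        (h4 t (by omega)) (h5 t (by omega)) (ih (by omega)) j hj
      rw [show (t + 1) * (3 * k - m) = t * (3 * k - m) + (3 * k - m) by ring]
      exact this
  have a1 := key p (le_refl _) j hj
  have a2 := per_mul (hper u hu) j (3 * k - m)
  rw [show p * (3 * k - m) + j = j + (3 * k - m) * p by ring, a2, hu0 j hj] at a1
  omega

/-- all gaps are at most `m` -/
theorem gaps {k m : ℕ} {I : ℕ → Prop} {p : ℕ} (hp : 1 ≤ p) (h : Sup k m I)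
    (hper : PerTrop k I p) (j : ℕ) (hmj : m ≤ j) (hjk : j < k) :
    ∃ s, I s ∧ s ≤ j ∧ j < s + m := by
  classical
  have hm1 := h.m1
  have hm2 := h.two
  by_contra hcon
  -- distance function: the least distance
  have hex : ∀ j, m ≤ j → ∃ d, ∃ s, I s ∧ s + d = j := fun j hj => ⟨j - m, m, h.Im, by omega⟩
  -- dist j
  let dist : ℕ → ℕ := fun j => if hj : m ≤ j then Nat.find (hex j hj) else 0
  have dist_spec : ∀ j, m ≤ j → ∃ s, I s ∧ s + dist j = j := by
    intro j hj
    have := Nat.find_spec (hex j hj)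
    simp only [dist, dif_pos hj]
    exact this
  have dist_min : ∀ j s, m ≤ j → I s → s ≤ j → s + dist j ≤ j := by
    intro j s hj hs hsj
    simp only [dist, dif_pos hj]
    have := Nat.find_min' (hex j hj) (m := j - s) ⟨s, hs, by omega⟩
    omega
  -- maximise over [m,k)
  obtain ⟨j0, hj0, hmax⟩ := Finset.exists_max_image (Finset.Ico m k) dist
    ⟨m, by simp only [Finset.mem_Ico]; omega⟩
  simp only [Finset.mem_Ico] at hj0 hmax
  set θ := dist j0 with hθ
  have hθm : m ≤ θ := by
    have h1 := hmax j ⟨hmj, hjk⟩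
    obtain ⟨s, hs, hsj⟩ := dist_spec j hmj
    by_contra hc
    apply hcon
    exact ⟨s, hs, by omega, by omega⟩
  have hθj : θ ≤ j0 := by
    obtain ⟨s, hs, hsj⟩ := dist_spec j0 hj0.1
    omega
  have hθk : θ < k := by omega
  have hle : ∀ j, m ≤ j → j < k → dist j ≤ θ := fun j h1 h2 => hmax j ⟨h1, h2⟩
  have hθd : dist θ < θ := by
    have := dist_min θ m hθm h.Im hθm
    omega
  let D : ℕ → ℕ → ℤ := fun t j =>
    if j < θ then 0 else 1 + ((p : ℤ) + 2) * ((j : ℤ) - θ) + (if dist j = θ then (t : ℤ) else 0)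
  have D0 : ∀ t j, j < θ → D t j = 0 := fun t j hj => if_pos hj
  have D1 : ∀ t j, θ ≤ j → D t j =
      1 + ((p : ℤ) + 2) * ((j : ℤ) - θ) + (if dist j = θ then (t : ℤ) else 0) :=
    fun t j hj => if_neg (not_lt.mpr hj)
  have Dge : ∀ t j, θ ≤ j → 1 ≤ D t j := by
    intro t j hj
    rw [D1 t j hj]
    have : (0 : ℤ) ≤ ((p : ℤ) + 2) * ((j : ℤ) - θ) := by
      apply mul_nonneg <;> omega
    split_ifs <;> omega
  have Dge0 : ∀ t j, 0 ≤ D t j := by
    intro t j
    rcases lt_or_ge j θ with c | c
    · rw [D0 t j c]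
    · have := Dge t j c; omega
  have Dmono : ∀ t, t < p → ∀ x y, x ≤ y → D t x ≤ D t y := by
    intro t ht x y hxy
    rcases lt_or_ge x θ with c | c
    · rw [D0 t x c]; exact Dge0 t y
    · rcases Nat.eq_or_lt_of_le hxy with c2 | c2
      · rw [c2]
      · rw [D1 t x c, D1 t y (by omega)]
        have : ((p : ℤ) + 2) * ((x : ℤ) - θ) + ((p : ℤ) + 2) ≤ ((p : ℤ) + 2) * ((y : ℤ) - θ) := by
          have h1 : ((p : ℤ) + 2) * ((x : ℤ) - θ) + ((p : ℤ) + 2) =
            ((p : ℤ) + 2) * ((x : ℤ) + 1 - θ) := by ring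
          rw [h1]
          apply mul_le_mul_of_nonneg_left <;> omega
        split_ifs <;> omega
  have hmod : ∀ x, x % m < θ := fun x => lt_of_lt_of_le (Nat.mod_lt _ (by omega)) hθm
  have key := viter h hper (5 * (1 + ((p : ℤ) + 2) * k + p)) (1 + ((p : ℤ) + 2) * k + p) D
    (by
      intro t ht j hj
      have hnn : (0 : ℤ) ≤ ((p : ℤ) + 2) * k := by positivity
      constructor
      · have := Dge0 t j; omega
      · rcases lt_or_ge j θ with c | c
        · rw [D0 t j c]; omega
        · rw [D1 t j c]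
          have : ((p : ℤ) + 2) * ((j : ℤ) - θ) ≤ ((p : ℤ) + 2) * k := by
            apply mul_le_mul_of_nonneg_left <;> omega
          split_ifs <;> omega)
    (le_refl _)
    (by
      intro t ht r hr
      rw [D0 t r (by omega)]
      exact Dge0 t m)
    (fun t ht x y _ hxy _ => Dmono t ht x y hxy)
    (by
      intro t ht x y r r' _ hxy _ hr hr'
      rw [D0 t r (by omega), D0 t r' (by omega)]
      have := Dmono t ht x y hxy.le
      omega)
    (by
      intro t ht r hr
      rw [D0 (t + 1) r (by omega), D0 t _ (hmod _)])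
    (by
      intro t ht j hj hjk
      rw [D0 t _ (hmod j)]
      rcases lt_or_ge j θ with c | c
      · rw [D0 t j c, D0 (t + 1) j c]
        constructor
        · intro s _ _
          rw [D0 (t + 1) (j - s) (by omega)]
          omega
        · refine ⟨m, h.Im, hj, ?_⟩
          rw [D0 (t + 1) (j - m) (by omega)]
          omega
      · obtain ⟨s0, hs0, hs0'⟩ := dist_spec j hj
        have hdj := hle j hj hjk
        by_cases c2 : dist j = θ
        · have e1 : D (t + 1) j = D t j + 1 := by
            rw [D1 (t + 1) j c, D1 t j c, if_pos c2, if_pos c2]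
            push_cast; ring
          constructor
          · intro s hs hsj
            have a1 := dist_min j s hj hs hsj
            have a2 := Dge (t + 1) (j - s) (by omega)
            omega
          · refine ⟨s0, hs0, by omega, ?_⟩
            rw [show j - s0 = θ by omega]
            have : D (t + 1) θ = 1 := by
              rw [D1 (t + 1) θ (le_refl _), if_neg (by omega)]
              ring
            omega
        · have e1 : D (t + 1) j = D t j := by
            rw [D1 (t + 1) j c, D1 t j c, if_neg c2, if_neg c2]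
          constructor
          · intro s hs hsj
            have := Dge0 (t + 1) (j - s)
            omega
          · refine ⟨s0, hs0, by omega, ?_⟩
            rw [D0 (t + 1) (j - s0) (by omega)]
            omega)
    j0 hj0.2
  rw [D1 p j0 hθj, D1 0 j0 hθj, if_pos rfl, if_pos rfl] at key
  have : (p : ℤ) = 0 := by
    have := key
    push_cast at this
    linarith
  omega

end Pool.Agent.Helper470.Orbits
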