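import Pool.Agent.Helper470.Orbits2

set_option autoImplicit false

namespace Pool.Agent.Helper470.Orbits

open Pool.Agent.Helper470.Trop

open Classical in
/-- seeds -/
noncomputable def sg (k m : ℕ) (t j : ℕ) : ℤ := if m ∣ t * k + j then 0 else 1

open Classical in
/-- seed minimum seen from `j` -/
noncomputable def mu (k m : ℕ) (I : ℕ → Prop) (t j : ℕ) : ℤ :=
  if ∃ s, I s ∧ s ≤ j ∧ j < s + m ∧ m ∣ t * k + (j - s) then 0 else 1

/-- slow variable -/
noncomputable def bb (k m : ℕ) (I : ℕ → Prop) (H : ℤ) : ℕ → ℕ → ℤ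
  | 0, j => H * j
  | t + 1, j => bb k m I H t j + mu k m I t j - sg k m t j

theorem bb_succ (k m : ℕ) (I : ℕ → Prop) (H : ℤ) (t j : ℕ) :
    bb k m I H (t + 1) j = bb k m I H t j + mu k m I t j - sg k m t j := rfl

theorem mu_congr (k m : ℕ) (I : ℕ → Prop) (t t' j : ℕ)
    (hd : ∀ r, r < m → (m ∣ t * k + r ↔ m ∣ t' * k + r)) : mu k m I t j = mu k m I t' j := by
  unfold mu
  by_cases c : ∃ s, I s ∧ s ≤ j ∧ j < s + m ∧ m ∣ t * k + (j - s)
  · obtain ⟨s, a1, a2, a3, a4⟩ := c
    rw [if_pos ⟨s, a1, a2, a3, a4⟩, if_pos ⟨s, a1, a2, a3, (hd _ (by omega)).mp a4⟩]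
  · rw [if_neg c, if_neg]
    rintro ⟨s, a1, a2, a3, a4⟩
    exact c ⟨s, a1, a2, a3, (hd _ (by omega)).mpr a4⟩

theorem sg_cases (k m t j : ℕ) : sg k m t j = 0 ∨ sg k m t j = 1 := by
  unfold sg; split_ifs <;> simp

theorem mu_cases (k m : ℕ) (I : ℕ → Prop) (t j : ℕ) : mu k m I t j = 0 ∨ mu k m I t j = 1 := by
  unfold mu; split_ifs <;> simp

theorem sg_mod (k m t j : ℕ) : sg k m t (j % m) = sg k m t j := by
  unfold sg
  have : m ∣ t * k + j % m ↔ m ∣ t * k + j := by
    rw [Nat.dvd_iff_mod_eq_zero, Nat.dvd_iff_mod_eq_zero, Nat.add_mod, Nat.mod_mod,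
      ← Nat.add_mod]
  rw [if_congr this rfl rfl]

theorem sg_shift (k m t j : ℕ) : sg k m (t + 1) j = sg k m t (k + j) := by
  unfold sg
  rw [show (t + 1) * k + j = t * k + (k + j) by ring]

theorem bb_bound (k m : ℕ) (I : ℕ → Prop) (H : ℤ) (t j : ℕ) :
    H * j - t ≤ bb k m I H t j ∧ bb k m I H t j ≤ H * j + t := by
  induction t with
  | zero => simp [bb]
  | succ t ih =>
    rw [bb]
    rcases sg_cases k m t j with h1 | h1 <;> rcases mu_cases k m I t j with h2 | h2 <;>
      rw [h1, h2] <;> (push_cast; omega)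

theorem mu_le_sg (k m : ℕ) (I : ℕ → Prop) (t j s : ℕ) (hs : I s) (hsj : s ≤ j)
    (hjs : j < s + m) : mu k m I t j ≤ sg k m t (j - s) := by
  rcases sg_cases k m t (j - s) with h1 | h1
  · rw [h1]
    unfold sg at h1
    have hd : m ∣ t * k + (j - s) := by
      by_contra hc
      rw [if_neg hc] at h1
      exact one_ne_zero h1
    unfold mu
    rw [if_pos ⟨s, hs, hsj, hjs, hd⟩]
  · rw [h1]
    rcases mu_cases k m I t j with h2 | h2 <;> rw [h2] <;> norm_num

/-- no support element strictly between `m` and `2m` -/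
theorem no_mid {k m : ℕ} {I : ℕ → Prop} {p : ℕ} (hp : 1 ≤ p) (h : Sup k m I)
    (hper : PerTrop k I p) (s1 : ℕ) (hs1 : I s1) (h1 : m < s1) (h2 : s1 < 2 * m) : False := by
  have hm1 := h.m1
  have hm2 := h.two
  have hs1k : s1 < k := (h.sym s1 hs1).1
  have hgap := gaps hp h hper
  obtain ⟨H, hH⟩ : ∃ H : ℤ, H = 2 * (p : ℤ) + 4 := ⟨_, rfl⟩
  let D : ℕ → ℕ → ℤ := fun t j => if j < m then sg k m t j else bb k m I H t j + mu k m I t j
  have D0 : ∀ t j, j < m → D t j = sg k m t j := fun t j hj => if_pos hj
  have D1 : ∀ t j, m ≤ j → D t j = bb k m I H t j + mu k m I t j :=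
    fun t j hj => if_neg (not_lt.mpr hj)
  have hmod : ∀ x, x % m < m := fun x => Nat.mod_lt _ (by omega)
  have Dbig : ∀ t, t ≤ p → ∀ j, m ≤ j → 1 ≤ D t j := by
    intro t ht j hj
    rw [D1 t j hj]
    have b1 := (bb_bound k m I H t j).1
    have b2 : H ≤ H * j := by
      have : (1 : ℤ) ≤ j := by omega
      nlinarith
    rcases mu_cases k m I t j with h2 | h2 <;> rw [h2] <;> omega
  have Dstep : ∀ t, t < p → ∀ x y, m ≤ x → x < y → D t x + 1 ≤ D t y := by
    intro t ht x y hx hxy
    rw [D1 t x hx, D1 t y (by omega)]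
    have b1 := bb_bound k m I H t x
    have b2 := bb_bound k m I H t y
    have b3 : H * x + H ≤ H * y := by
      have h3 : H * (x : ℤ) + H = H * ((x : ℤ) + 1) := by ring
      rw [h3]
      apply mul_le_mul_of_nonneg_left <;> omega
    rcases mu_cases k m I t x with h3 | h3 <;> rcases mu_cases k m I t y with h4 | h4 <;>
      rw [h3, h4] <;> omega
  have key := viter h hper (5 * (H * k + p + 1)) (H * k + p + 1) D
    (by
      intro t ht j hj
      have hnn : (0 : ℤ) ≤ H * k := by rw [hH]; positivity
      rcases lt_or_ge j m with c | c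
      · rw [D0 t j c]
        rcases sg_cases k m t j with h3 | h3 <;> rw [h3] <;> omega
      · have b1 := Dbig t ht j c
        constructor
        · omega
        · rw [D1 t j c]
          have b2 := (bb_bound k m I H t j).2
          have b3 : H * (j : ℤ) ≤ H * k := by
            apply mul_le_mul_of_nonneg_left <;> omega
          rcases mu_cases k m I t j with h3 | h3 <;> rw [h3] <;> omega)
    (le_refl _)
    (by
      intro t ht r hr
      rw [D0 t r hr]
      have := Dbig t ht.le m (le_refl _)
      rcases sg_cases k m t r with h3 | h3 <;> rw [h3] <;> omega)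
    (by
      intro t ht x y hx hxy _
      rcases Nat.eq_or_lt_of_le hxy with c | c
      · rw [c]
      · have := Dstep t ht x y hx c; omega)
    (by
      intro t ht x y r r' hx hxy _ hr hr'
      have := Dstep t ht x y hx hxy
      rw [D0 t r hr, D0 t r' hr']
      rcases sg_cases k m t r with h3 | h3 <;> rcases sg_cases k m t r' with h4 | h4 <;>
        rw [h3, h4] <;> omega)
    (by
      intro t ht r hr
      rw [D0 (t + 1) r hr, D0 t _ (hmod _), sg_mod, sg_shift])
    (by
      intro t ht j hj hjk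
      have e1 : D t j - D t (j % m) = bb k m I H (t + 1) j := by
        rw [D1 t j hj, D0 t _ (hmod _), sg_mod, bb]
      rw [e1, D1 (t + 1) j hj]
      constructor
      · intro s hs hsj
        rcases lt_or_ge (j - s) m with c | c
        · rw [D0 (t + 1) (j - s) c]
          have := mu_le_sg k m I (t + 1) j s hs hsj (by omega)
          omega
        · have a1 := Dbig (t + 1) (by omega) (j - s) c
          rcases mu_cases k m I (t + 1) j with h3 | h3 <;> rw [h3] <;> omega
      · rcases mu_cases k m I (t + 1) j with h3 | h3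
        · have h3' := h3
          unfold mu at h3'
          have hd : ∃ s, I s ∧ s ≤ j ∧ j < s + m ∧ m ∣ (t + 1) * k + (j - s) := by
            by_contra hc
            rw [if_neg hc] at h3'
            exact one_ne_zero h3'
          obtain ⟨s, hs, hsj, hjs, hdv⟩ := hd
          refine ⟨s, hs, hsj, ?_⟩
          rw [D0 (t + 1) (j - s) (by omega), h3]
          unfold sg
          rw [if_pos hdv]
        · obtain ⟨s, hs, hsj, hjs⟩ := hgap j hj hjk
          refine ⟨s, hs, hsj, ?_⟩
          rw [D0 (t + 1) (j - s) (by omega), h3]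
          have := mu_le_sg k m I (t + 1) j s hs hsj hjs
          rw [h3] at this
          rcases sg_cases k m (t + 1) (j - s) with h4 | h4
          · rw [h4] at this; omega
          · rw [h4])
  -- seeds return
  have hseed : ∀ r, r < m → sg k m p r = sg k m 0 r := by
    intro r hr
    have := key r (by omega)
    rwa [D0 p r hr, D0 0 r hr] at this
  have hdvd : ∀ r, r < m → (m ∣ p * k + r ↔ m ∣ 0 * k + r) := by
    intro r hr
    have := hseed r hr
    unfold sg at this
    by_cases c1 : m ∣ p * k + r <;> by_cases c2 : m ∣ 0 * k + r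
    · exact ⟨fun _ => c2, fun _ => c1⟩
    · rw [if_pos c1, if_neg c2] at this; norm_num at this
    · rw [if_neg c1, if_pos c2] at this; norm_num at this
    · exact ⟨fun h => absurd h c1, fun h => absurd h c2⟩
  have hmu : mu k m I p s1 = mu k m I 0 s1 := mu_congr k m I p 0 s1 hdvd
  have hbb : bb k m I H p s1 = bb k m I H 0 s1 := by
    have := key s1 hs1k
    rw [D1 p s1 h1.le, D1 0 s1 h1.le, hmu] at this
    linarith
  have hmon : ∀ t, mu k m I t s1 ≤ sg k m t s1 := by
    intro t
    have := mu_le_sg k m I t s1 m h.Im h1.le (by omega)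
    rw [← sg_mod, show (s1 - m) % m = s1 % m by
      rw [Nat.mod_eq_sub_mod h1.le], sg_mod] at this
    exact this
  have hdrop : mu k m I 0 s1 = 0 ∧ sg k m 0 s1 = 1 := by
    constructor
    · unfold mu
      rw [if_pos ⟨s1, hs1, le_refl _, by omega, by simp⟩]
    · unfold sg
      rw [if_neg]
      rw [zero_mul, zero_add]
      rintro ⟨c, hc⟩
      have c1 : c < 2 := by
        by_contra hcc
        have : m * 2 ≤ m * c := Nat.mul_le_mul_left m (by omega)
        omega
      have c2 : 1 < c := by
        by_contra hcc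
        have : m * c ≤ m * 1 := Nat.mul_le_mul_left m (by omega)
        omega
      omega
  have hdec : ∀ t, 1 ≤ t → bb k m I H t s1 ≤ bb k m I H 0 s1 - 1 := by
    intro t ht
    induction t with
    | zero => omega
    | succ t ih =>
      rcases Nat.eq_zero_or_pos t with c | c
      · rw [c, bb_succ, hdrop.1, hdrop.2]; omega
      · rw [bb_succ]
        have a1 := ih c
        have a2 := hmon t
        omega
  have := hdec p hp
  omega

end Pool.Agent.Helper470.Orbits
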