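import Pool.Agent.Helper470.Orbits3

set_option autoImplicit false

namespace Pool.Agent.Helper470.Orbits

open Pool.Agent.Helper470.Trop

/-- the shear pattern -/
def F (k m : ℕ) (al M B : ℤ) (j : ℕ) : ℤ :=
  if j < m then al
  else if j < 2 * m then 0
  else if j < k - m then M
  else if j < k then B
  else if j < k + m then B - al
  else if j < k + 2 * m then B
  else if j < 2 * k - m then B - M
  else if j < 2 * k then 0
  else if j < 2 * k + m then al
  else if j < 2 * k + 2 * m then -M
  else if j < 3 * k - 2 * m then 0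
  else if j < 3 * k - m then al - B + M
  else if j < 3 * k then al
  else if j < 3 * k + m then 0
  else if j < 4 * k - 2 * m then M + al
  else B

theorem F_cases (k m : ℕ) (al M B : ℤ) (j : ℕ) :
    (j < m ∧ F k m al M B j = al) ∨
    (m ≤ j ∧ j < 2 * m ∧ F k m al M B j = 0) ∨
    (2 * m ≤ j ∧ j < k - m ∧ F k m al M B j = M) ∨
    (k - m ≤ j ∧ j < k ∧ F k m al M B j = B) ∨
    (k ≤ j ∧ j < k + m ∧ F k m al M B j = B - al) ∨
    (k + m ≤ j ∧ j < k + 2 * m ∧ F k m al M B j = B) ∨
    (k + 2 * m ≤ j ∧ j < 2 * k - m ∧ F k m al M B j = B - M) ∨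
    (2 * k - m ≤ j ∧ j < 2 * k ∧ F k m al M B j = 0) ∨
    (2 * k ≤ j ∧ j < 2 * k + m ∧ F k m al M B j = al) ∨
    (2 * k + m ≤ j ∧ j < 2 * k + 2 * m ∧ F k m al M B j = -M) ∨
    (2 * k + 2 * m ≤ j ∧ j < 3 * k - 2 * m ∧ F k m al M B j = 0) ∨
    (3 * k - 2 * m ≤ j ∧ j < 3 * k - m ∧ F k m al M B j = al - B + M) ∨
    (3 * k - m ≤ j ∧ j < 3 * k ∧ F k m al M B j = al) ∨
    (3 * k ≤ j ∧ j < 3 * k + m ∧ F k m al M B j = 0) ∨
    (3 * k + m ≤ j ∧ j < 4 * k - 2 * m ∧ F k m al M B j = M + al) ∨
    (4 * k - 2 * m ≤ j ∧ F k m al M B j = B) := by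
  obtain ⟨v, hv⟩ : ∃ v, F k m al M B j = v := ⟨_, rfl⟩
  rw [hv]
  unfold F at hv
  rcases lt_or_ge j (m) with h0 | h0
  · rw [if_pos h0] at hv; exact Or.inl ⟨h0, hv.symm⟩
  rw [if_neg (not_lt.mpr h0)] at hv
  refine Or.inr ?_
  rcases lt_or_ge j (2 * m) with h1 | h1
  · rw [if_pos h1] at hv; exact Or.inl ⟨h0, h1, hv.symm⟩
  rw [if_neg (not_lt.mpr h1)] at hv
  refine Or.inr ?_
  rcases lt_or_ge j (k - m) with h2 | h2
  · rw [if_pos h2] at hv; exact Or.inl ⟨h1, h2, hv.symm⟩
  rw [if_neg (not_lt.mpr h2)] at hv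
  refine Or.inr ?_
  rcases lt_or_ge j (k) with h3 | h3
  · rw [if_pos h3] at hv; exact Or.inl ⟨h2, h3, hv.symm⟩
  rw [if_neg (not_lt.mpr h3)] at hv
  refine Or.inr ?_
  rcases lt_or_ge j (k + m) with h4 | h4
  · rw [if_pos h4] at hv; exact Or.inl ⟨h3, h4, hv.symm⟩
  rw [if_neg (not_lt.mpr h4)] at hv
  refine Or.inr ?_
  rcases lt_or_ge j (k + 2 * m) with h5 | h5
  · rw [if_pos h5] at hv; exact Or.inl ⟨h4, h5, hv.symm⟩
  rw [if_neg (not_lt.mpr h5)] at hv
  refine Or.inr ?_
  rcases lt_or_ge j (2 * k - m) with h6 | h6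
  · rw [if_pos h6] at hv; exact Or.inl ⟨h5, h6, hv.symm⟩
  rw [if_neg (not_lt.mpr h6)] at hv
  refine Or.inr ?_
  rcases lt_or_ge j (2 * k) with h7 | h7
  · rw [if_pos h7] at hv; exact Or.inl ⟨h6, h7, hv.symm⟩
  rw [if_neg (not_lt.mpr h7)] at hv
  refine Or.inr ?_
  rcases lt_or_ge j (2 * k + m) with h8 | h8
  · rw [if_pos h8] at hv; exact Or.inl ⟨h7, h8, hv.symm⟩
  rw [if_neg (not_lt.mpr h8)] at hv
  refine Or.inr ?_
  rcases lt_or_ge j (2 * k + 2 * m) with h9 | h9
  · rw [if_pos h9] at hv; exact Or.inl ⟨h8, h9, hv.symm⟩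
  rw [if_neg (not_lt.mpr h9)] at hv
  refine Or.inr ?_
  rcases lt_or_ge j (3 * k - 2 * m) with h10 | h10
  · rw [if_pos h10] at hv; exact Or.inl ⟨h9, h10, hv.symm⟩
  rw [if_neg (not_lt.mpr h10)] at hv
  refine Or.inr ?_
  rcases lt_or_ge j (3 * k - m) with h11 | h11
  · rw [if_pos h11] at hv; exact Or.inl ⟨h10, h11, hv.symm⟩
  rw [if_neg (not_lt.mpr h11)] at hv
  refine Or.inr ?_
  rcases lt_or_ge j (3 * k) with h12 | h12
  · rw [if_pos h12] at hv; exact Or.inl ⟨h11, h12, hv.symm⟩
  rw [if_neg (not_lt.mpr h12)] at hv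
  refine Or.inr ?_
  rcases lt_or_ge j (3 * k + m) with h13 | h13
  · rw [if_pos h13] at hv; exact Or.inl ⟨h12, h13, hv.symm⟩
  rw [if_neg (not_lt.mpr h13)] at hv
  refine Or.inr ?_
  rcases lt_or_ge j (4 * k - 2 * m) with h14 | h14
  · rw [if_pos h14] at hv; exact Or.inl ⟨h13, h14, hv.symm⟩
  rw [if_neg (not_lt.mpr h14)] at hv
  refine Or.inr ?_
  exact ⟨h14, hv.symm⟩

theorem shear_block {k m : ℕ} {I : ℕ → Prop} (h : Sup k m I) (h4 : 4 * m ≤ k)
    (hgap : ∀ j, m ≤ j → j < k → ∃ s, I s ∧ s ≤ j ∧ j < s + m)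
    (al M B : ℤ) (ha : 0 ≤ al) (haM : al ≤ M) (hB : 2 * M + al ≤ B)
    (n : ℕ) (hn : n < 3 * k - m) : TropAt k I (F k m al M B) n := by
  have hm1 := h.m1
  have gen : ∀ a c : ℤ, F k m al M B n = a → F k m al M B (n + k) = c - a → 0 ≤ c →
      (∀ i, m ≤ i → i + m ≤ k → F k m al M B (n + i) ≤ c) →
      (∃ i, I i ∧ F k m al M B (n + i) = c) → TropAt k I (F k m al M B) n := by
    intro a c e1 e2 hc hle ⟨i, hi, hic⟩
    refine ⟨by rw [e1, e2]; omega, ?_, Or.inr ⟨i, hi, by rw [e1, e2, hic]; omega⟩⟩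
    intro i hi
    have := hle i (h.lo i hi) (h.hi i hi)
    rw [e1, e2]; omega
  have viaGap : ∀ j, m ≤ j → j < k → ∃ i, I i ∧ k ≤ i + j ∧ i + j < k + m := by
    intro j h1 h2
    obtain ⟨s, hs, a1, a2⟩ := hgap j h1 h2
    have a3 := h.sym s hs
    exact ⟨k - s, a3.2, by omega, by omega⟩
  rcases lt_or_ge n m with c1 | c1
  · apply gen al B
    · have := F_cases k m al M B n; omega
    · have := F_cases k m al M B (n + k); omega
    · omega
    · intro i hi1 hi2; have := F_cases k m al M B (n + i); omega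
    · refine ⟨k - m, h.Ikm, ?_⟩
      have := F_cases k m al M B (n + (k - m)); omega
  rcases lt_or_ge n (2 * m) with c2 | c2
  · apply gen 0 B
    · have := F_cases k m al M B n; omega
    · have := F_cases k m al M B (n + k); omega
    · omega
    · intro i hi1 hi2; have := F_cases k m al M B (n + i); omega
    · obtain ⟨i, hi, b1, b2⟩ := viaGap (n + m) (by omega) (by omega)
      refine ⟨i, hi, ?_⟩
      have := F_cases k m al M B (n + (i)); omega
  rcases lt_or_ge n (k - m) with c3 | c3
  · apply gen M B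
    · have := F_cases k m al M B n; omega
    · have := F_cases k m al M B (n + k); omega
    · omega
    · intro i hi1 hi2; have := F_cases k m al M B (n + i); omega
    · obtain ⟨i, hi, b1, b2⟩ := viaGap (n + m) (by omega) (by omega)
      refine ⟨i, hi, ?_⟩
      have := F_cases k m al M B (n + (i)); omega
  rcases lt_or_ge n k with c4 | c4
  · apply gen B B
    · have := F_cases k m al M B n; omega
    · have := F_cases k m al M B (n + k); omega
    · omega
    · intro i hi1 hi2; have := F_cases k m al M B (n + i); omega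
    · obtain ⟨i, hi, b1, b2⟩ := viaGap (n - m) (by omega) (by omega)
      refine ⟨i, hi, ?_⟩
      have := F_cases k m al M B (n + (i)); omega
  rcases lt_or_ge n (k + m) with c5 | c5
  · apply gen (B - al) B
    · have := F_cases k m al M B n; omega
    · have := F_cases k m al M B (n + k); omega
    · omega
    · intro i hi1 hi2; have := F_cases k m al M B (n + i); omega
    · refine ⟨m, h.Im, ?_⟩
      have := F_cases k m al M B (n + (m)); omega
  rcases lt_or_ge n (k + 2 * m) with c6 | c6
  · apply gen B (B - M)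
    · have := F_cases k m al M B n; omega
    · have := F_cases k m al M B (n + k); omega
    · omega
    · intro i hi1 hi2; have := F_cases k m al M B (n + i); omega
    · refine ⟨m, h.Im, ?_⟩
      have := F_cases k m al M B (n + (m)); omega
  rcases lt_or_ge n (2 * k - 2 * m) with c7 | c7
  · apply gen (B - M) (B - M)
    · have := F_cases k m al M B n; omega
    · have := F_cases k m al M B (n + k); omega
    · omega
    · intro i hi1 hi2; have := F_cases k m al M B (n + i); omega
    · refine ⟨m, h.Im, ?_⟩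
      have := F_cases k m al M B (n + (m)); omega
  rcases lt_or_ge n (2 * k - m) with c8 | c8
  · apply gen (B - M) al
    · have := F_cases k m al M B n; omega
    · have := F_cases k m al M B (n + k); omega
    · omega
    · intro i hi1 hi2; have := F_cases k m al M B (n + i); omega
    · obtain ⟨i, hi, b1, b2⟩ := viaGap (n - k) (by omega) (by omega)
      refine ⟨i, hi, ?_⟩
      have := F_cases k m al M B (n + (i)); omega
  rcases lt_or_ge n (2 * k) with c9 | c9
  · apply gen 0 al
    · have := F_cases k m al M B n; omega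
    · have := F_cases k m al M B (n + k); omega
    · omega
    · intro i hi1 hi2; have := F_cases k m al M B (n + i); omega
    · refine ⟨m, h.Im, ?_⟩
      have := F_cases k m al M B (n + (m)); omega
  rcases lt_or_ge n (2 * k + m) with c10 | c10
  · apply gen al al
    · have := F_cases k m al M B n; omega
    · have := F_cases k m al M B (n + k); omega
    · omega
    · intro i hi1 hi2; have := F_cases k m al M B (n + i); omega
    · refine ⟨k - m, h.Ikm, ?_⟩
      have := F_cases k m al M B (n + (k - m)); omega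
  rcases lt_or_ge n (2 * k + 2 * m) with c11 | c11
  · apply gen (-M) al
    · have := F_cases k m al M B n; omega
    · have := F_cases k m al M B (n + k); omega
    · omega
    · intro i hi1 hi2; have := F_cases k m al M B (n + i); omega
    · obtain ⟨i, hi, b1, b2⟩ := viaGap (n - 2 * k + m) (by omega) (by omega)
      refine ⟨i, hi, ?_⟩
      have := F_cases k m al M B (n + (i)); omega
  rcases lt_or_ge n (3 * k - 2 * m) with c12 | c12
  · apply gen 0 (M + al)
    · have := F_cases k m al M B n; omega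
    · have := F_cases k m al M B (n + k); omega
    · omega
    · intro i hi1 hi2; have := F_cases k m al M B (n + i); omega
    · refine ⟨k - m, h.Ikm, ?_⟩
      have := F_cases k m al M B (n + (k - m)); omega
  · apply gen (al - B + M) (M + al)
    · have := F_cases k m al M B n; omega
    · have := F_cases k m al M B (n + k); omega
    · omega
    · intro i hi1 hi2; have := F_cases k m al M B (n + i); omega
    · refine ⟨k - m, h.Ikm, ?_⟩
      have := F_cases k m al M B (n + (k - m)); omega

theorem small_k {k m : ℕ} {I : ℕ → Prop} {p : ℕ} (hp : 1 ≤ p) (h : Sup k m I)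
    (hper : PerTrop k I p) : k < 4 * m := by
  by_contra hc
  have h4 : 4 * m ≤ k := not_lt.mp hc
  have hm1 := h.m1
  have hgap := gaps hp h hper
  obtain ⟨B, hB⟩ : ∃ B : ℤ, B = 2 * (1 + p) + 1 := ⟨_, rfl⟩
  obtain ⟨u, hu0, hu⟩ := exists_trop k (by omega) I (fun i hi => (h.sym i hi).1)
    (fun j => F k m 1 1 B j)
  have key : ∀ t : ℕ, t ≤ p → ∀ j, j < k → u (t * (3 * k - m) + j) = F k m 1 (1 + t) B j := by
    intro t
    induction t with
    | zero =>
      intro _ j hj
      rw [zero_mul, zero_add]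
      have := hu0 j hj
      simpa using this
    | succ t ih =>
      intro ht j hj
      have := block (fun i hi => (h.sym i hi).1) (by omega) u hu (t * (3 * k - m)) (3 * k - m)
        (F k m 1 (1 + t) B)
        (shear_block h h4 hgap 1 (1 + t) B (by omega) (by omega) (by omega))
        (ih (by omega)) (3 * k - m + j) (by omega)
      rw [show (t + 1) * (3 * k - m) + j = t * (3 * k - m) + (3 * k - m + j) by ring, this]
      have q1 := F_cases k m 1 (1 + t) B (3 * k - m + j)
      have q2 := F_cases k m 1 (1 + (t + 1 : ℕ)) B j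
      omega
  have a1 := key p (le_refl _) (2 * m) (by omega)
  have a2 := per_mul (hper u hu) (2 * m) (3 * k - m)
  rw [show p * (3 * k - m) + 2 * m = 2 * m + (3 * k - m) * p by ring, a2,
    hu0 (2 * m) (by omega)] at a1
  have f1 : F k m 1 1 B (2 * m) = 1 := by have := F_cases k m 1 1 B (2 * m); omega
  have f2 : F k m 1 (1 + p) B (2 * m) = 1 + p := by have := F_cases k m 1 (1 + p) B (2 * m); omega
  rw [f1, f2] at a1
  omega

/-- Structure of supports of periodic max-plus recurrences. -/
theorem trop_struct {k m : ℕ} {I : ℕ → Prop} {p : ℕ} (hp : 1 ≤ p) (h : Sup k m I)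
    (hper : PerTrop k I p) :
    (k = 2 * m ∧ ∀ i, I i ↔ i = m) ∨ (k = 3 * m ∧ ∀ i, I i ↔ (i = m ∨ i = 2 * m)) := by
  have hm1 := h.m1
  have hm2 := h.two
  have hk := small_k hp h hper
  have hgap := gaps hp h hper
  have hmid := no_mid hp h hper
  have hmid' : ∀ i, I i → i ≤ m ∨ 2 * m ≤ i := by
    intro i hi
    by_contra hc
    exact hmid i hi (by omega) (by omega)
  rcases lt_or_ge (k - m) (2 * m) with c1 | c1
  · left
    have hk2 : k = 2 * m := by
      rcases hmid' (k - m) h.Ikm with h1 | h1 <;> omega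
    refine ⟨hk2, fun i => ⟨fun hi => ?_, fun hi => by rw [hi]; exact h.Im⟩⟩
    have a1 := h.lo i hi
    have a2 := h.hi i hi
    omega
  · right
    have hk3 : k = 3 * m := by
      by_contra hne
      obtain ⟨s, hs, a1, a2⟩ := hgap (k - m - 1) (by omega) (by omega)
      have a3 := h.lo s hs
      have a4 := hmid' s hs
      have a5 := h.sym s hs
      have a6 := hmid' _ a5.2
      omega
    refine ⟨hk3, fun i => ⟨fun hi => ?_, fun hi => ?_⟩⟩
    · have a1 := h.lo i hi
      have a2 := h.hi i hi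
      have a3 := hmid' i hi
      omega
    · rcases hi with hi | hi
      · rw [hi]; exact h.Im
      · have := h.Ikm
        rw [show k - m = 2 * m by omega] at this
        rw [hi]; exact this

end Pool.Agent.Helper470.Orbits
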