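import Pool.Agent.Helper470.Basic

set_option autoImplicit false

open Finset

namespace Pool.Agent.Helper470.Perturb

open Pool.Agent.Helper470.Basic

/-- Normalised periodic data. -/
structure Data (k : ℕ) (b : ℕ → ℝ) (p : ℕ) : Prop where
  hk : 1 ≤ k
  hp : 1 ≤ p
  nn : ∀ i, 0 ≤ b i
  sum1 : b 0 + ∑ i ∈ Ico 1 k, b i = 1
  per : PerReal k b p

instance instCR (R : Type) [CommRing R] : CommRing (DualNumber R) := inferInstance

noncomputable instance instAlg (R : Type) [CommRing R] [Algebra ℝ R] :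
    Algebra ℝ (DualNumber R) := inferInstance

/-- pair in a square zero extension -/
def dn {R : Type} [CommRing R] (a c : R) : DualNumber R :=
  TrivSqZeroExt.inl a + TrivSqZeroExt.inr c

theorem fst_dn {R : Type} [CommRing R] (a c : R) : (dn a c).fst = a := by simp [dn]

theorem snd_dn {R : Type} [CommRing R] (a c : R) : (dn a c).snd = c := by simp [dn]

theorem dn_ext {R : Type} [CommRing R] {a c : R} {z : DualNumber R} (h1 : z.fst = a)
    (h2 : z.snd = c) : z = dn a c := by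
  apply TrivSqZeroExt.ext
  · rw [fst_dn, h1]
  · rw [snd_dn, h2]

theorem rec_dn {R : Type} [CommRing R] [Algebra ℝ R] (k : ℕ) (b : ℕ → ℝ) (x y : ℕ → R)
    (hx : Rec k b x)
    (hy : ∀ n, x (n + k) * y n + y (n + k) * x n = ∑ i ∈ Ico 1 k, b i • y (n + i)) :
    Rec k b (fun n => dn (x n) (y n)) := by
  intro n
  apply TrivSqZeroExt.ext
  · rw [TrivSqZeroExt.fst_mul, fst_dn, fst_dn, hx n]
    simp [TrivSqZeroExt.fst_sum, fst_dn]
  · rw [DualNumber.snd_mul, fst_dn, fst_dn, snd_dn, snd_dn, hy n]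
    simp [TrivSqZeroExt.snd_sum, snd_dn]

theorem isUnit_dn {R : Type} [CommRing R] (a c : R) (h : IsUnit a) : IsUnit (dn a c) := by
  rw [TrivSqZeroExt.isUnit_iff_isUnit_fst, fst_dn]
  exact h

/-- Abstract periodicity over all real algebras. -/
def PerAlg (k : ℕ) (b : ℕ → ℝ) (p : ℕ) : Prop :=
  ∀ (R : Type) [CommRing R] [Algebra ℝ R] (x : ℕ → R), (∀ n, IsUnit (x n)) →
    Rec k b x → ∀ n, x (n + p) = x n

theorem Data.perAlg {k : ℕ} {b : ℕ → ℝ} {p : ℕ} (h : Data k b p) : PerAlg k b p := by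
  intro R _ _ x hu hr n
  exact transfer k h.hk b h.nn (by rw [h.sum1]; norm_num) p h.per R x hu hr n

/-- third order perturbation statement -/
theorem Data.third {k : ℕ} {b : ℕ → ℝ} {p : ℕ} (h : Data k b p)
    (u1 u2 u3 s12 s13 s23 r : ℕ → ℂ)
    (h1 : ∀ n, u1 (n + k) + u1 n = ∑ i ∈ Ico 1 k, (b i : ℂ) * u1 (n + i))
    (h2 : ∀ n, u2 (n + k) + u2 n = ∑ i ∈ Ico 1 k, (b i : ℂ) * u2 (n + i))
    (h3 : ∀ n, u3 (n + k) + u3 n = ∑ i ∈ Ico 1 k, (b i : ℂ) * u3 (n + i))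
    (h12 : ∀ n, s12 (n + k) + s12 n + (u1 (n + k) * u2 n + u2 (n + k) * u1 n) =
      ∑ i ∈ Ico 1 k, (b i : ℂ) * s12 (n + i))
    (h13 : ∀ n, s13 (n + k) + s13 n + (u1 (n + k) * u3 n + u3 (n + k) * u1 n) =
      ∑ i ∈ Ico 1 k, (b i : ℂ) * s13 (n + i))
    (h23 : ∀ n, s23 (n + k) + s23 n + (u2 (n + k) * u3 n + u3 (n + k) * u2 n) =
      ∑ i ∈ Ico 1 k, (b i : ℂ) * s23 (n + i))
    (hr : ∀ n, r (n + k) + r n + (u1 (n + k) * s23 n + s23 (n + k) * u1 n)
      + (u2 (n + k) * s13 n + s13 (n + k) * u2 n)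
      + (u3 (n + k) * s12 n + s12 (n + k) * u3 n) =
      ∑ i ∈ Ico 1 k, (b i : ℂ) * r (n + i)) :
    ∀ n, u1 (n + p) = u1 n ∧ s12 (n + p) = s12 n ∧ r (n + p) = r n := by
  -- level 0
  have e0 : Rec k b (fun _ => (1 : ℂ)) := by
    intro n
    have := h.sum1
    have h' : (b 0 : ℂ) + ∑ i ∈ Ico 1 k, (b i : ℂ) = 1 := by exact_mod_cast this
    simp only [Complex.real_smul, mul_one]
    rw [h']
  have e1 : Rec k b (fun n => dn (1 : ℂ) (u1 n)) := by
    apply rec_dn k b (fun _ => (1 : ℂ)) u1 e0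
    intro n
    simp only [Complex.real_smul]
    rw [← h1 n]; ring
  have e2 : Rec k b (fun n => dn (dn (1 : ℂ) (u1 n)) (dn (u2 n) (s12 n))) := by
    apply rec_dn k b (fun n => dn (1 : ℂ) (u1 n)) (fun n => dn (u2 n) (s12 n)) e1
    intro n
    apply TrivSqZeroExt.ext
    · simp only [TrivSqZeroExt.fst_add, TrivSqZeroExt.fst_mul, fst_dn, TrivSqZeroExt.fst_sum,
        TrivSqZeroExt.fst_smul, Complex.real_smul]
      rw [← h2 n]; ring
    · simp only [TrivSqZeroExt.snd_add, DualNumber.snd_mul, fst_dn, snd_dn,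
        TrivSqZeroExt.snd_sum, TrivSqZeroExt.snd_smul, Complex.real_smul]
      rw [← h12 n]; ring
  have e3 : Rec k b (fun n => dn (dn (dn (1 : ℂ) (u1 n)) (dn (u2 n) (s12 n)))
      (dn (dn (u3 n) (s13 n)) (dn (s23 n) (r n)))) := by
    apply rec_dn k b (fun n => dn (dn (1 : ℂ) (u1 n)) (dn (u2 n) (s12 n)))
      (fun n => dn (dn (u3 n) (s13 n)) (dn (s23 n) (r n))) e2
    intro n
    apply TrivSqZeroExt.ext
    · apply TrivSqZeroExt.ext
      · simp only [TrivSqZeroExt.fst_add, TrivSqZeroExt.fst_mul, fst_dn, TrivSqZeroExt.fst_sum,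
          TrivSqZeroExt.fst_smul, Complex.real_smul]
        rw [← h3 n]; ring
      · simp only [TrivSqZeroExt.fst_add, TrivSqZeroExt.fst_mul, TrivSqZeroExt.snd_add,
          DualNumber.snd_mul, fst_dn, snd_dn, TrivSqZeroExt.fst_sum,
          TrivSqZeroExt.snd_sum, TrivSqZeroExt.fst_smul, TrivSqZeroExt.snd_smul,
          Complex.real_smul]
        rw [← h13 n]; ring
    · apply TrivSqZeroExt.ext
      · simp only [TrivSqZeroExt.fst_add, TrivSqZeroExt.fst_mul, TrivSqZeroExt.snd_add,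
          DualNumber.snd_mul, fst_dn, snd_dn, TrivSqZeroExt.fst_sum,
          TrivSqZeroExt.snd_sum, TrivSqZeroExt.fst_smul, TrivSqZeroExt.snd_smul,
          Complex.real_smul]
        rw [← h23 n]; ring
      · simp only [TrivSqZeroExt.fst_add, TrivSqZeroExt.fst_mul, TrivSqZeroExt.snd_add,
          DualNumber.snd_mul, fst_dn, snd_dn, TrivSqZeroExt.fst_sum,
          TrivSqZeroExt.snd_sum, TrivSqZeroExt.fst_smul, TrivSqZeroExt.snd_smul,
          Complex.real_smul]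
        rw [← hr n]; ring
  intro n
  have key := h.perAlg _ _ (fun m => isUnit_dn _ _ (isUnit_dn _ _ (isUnit_dn _ _ isUnit_one)))
    e3 n
  have k1 := congrArg (fun z => z.fst.fst.snd) key
  have k2 := congrArg (fun z => z.fst.snd.snd) key
  have k3 := congrArg (fun z => z.snd.snd.snd) key
  simp only [fst_dn, snd_dn] at k1 k2 k3
  exact ⟨k1, k2, k3⟩

/-- characteristic function -/
noncomputable def Pf (k : ℕ) (b : ℕ → ℝ) (z : ℂ) : ℂ :=
  z ^ k + 1 - ∑ i ∈ Ico 1 k, (b i : ℂ) * z ^ i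

theorem sum_shift (k : ℕ) (b : ℕ → ℝ) (z c : ℂ) (n : ℕ) :
    ∑ i ∈ Ico 1 k, (b i : ℂ) * (c * z ^ (n + i)) =
      c * z ^ n * ∑ i ∈ Ico 1 k, (b i : ℂ) * z ^ i := by
  rw [mul_sum]
  apply sum_congr rfl
  intro i _
  rw [pow_add]; ring

theorem Pf_zero {k : ℕ} {b : ℕ → ℝ} {z : ℂ} (h : Pf k b z = 0) :
    ∑ i ∈ Ico 1 k, (b i : ℂ) * z ^ i = z ^ k + 1 := by
  unfold Pf at h
  linear_combination -h

theorem Data.first {k : ℕ} {b : ℕ → ℝ} {p : ℕ} (h : Data k b p) (u : ℕ → ℂ)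
    (h1 : ∀ n, u (n + k) + u n = ∑ i ∈ Ico 1 k, (b i : ℂ) * u (n + i)) (n : ℕ) :
    u (n + p) = u n := by
  have := h.third u (fun _ => 0) (fun _ => 0) (fun _ => 0) (fun _ => 0) (fun _ => 0)
    (fun _ => 0) h1 (by simp) (by simp) (by simp) (by simp) (by simp) (by simp) n
  exact this.1

theorem Data.root_pow {k : ℕ} {b : ℕ → ℝ} {p : ℕ} (h : Data k b p) (z : ℂ)
    (hz : Pf k b z = 0) : z ^ p = 1 := by
  have := h.first (fun n => 1 * z ^ n) (by
    intro n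
    rw [sum_shift, Pf_zero hz, pow_add]; ring) 0
  simpa using this

theorem Data.simple_root {k : ℕ} {b : ℕ → ℝ} {p : ℕ} (h : Data k b p) (z : ℂ)
    (hz : Pf k b z = 0) :
    (k : ℂ) * z ^ k - ∑ i ∈ Ico 1 k, (i : ℂ) * (b i : ℂ) * z ^ i ≠ 0 := by
  intro hd
  have hd' : ∑ i ∈ Ico 1 k, (i : ℂ) * (b i : ℂ) * z ^ i = (k : ℂ) * z ^ k := by
    linear_combination -hd
  have h1 := h.first (fun n => (n : ℂ) * z ^ n) (by
    intro n
    have e1 : ∑ i ∈ Ico 1 k, (b i : ℂ) * (((n + i : ℕ) : ℂ) * z ^ (n + i)) =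
        (n : ℂ) * z ^ n * ∑ i ∈ Ico 1 k, (b i : ℂ) * z ^ i
        + z ^ n * ∑ i ∈ Ico 1 k, (i : ℂ) * (b i : ℂ) * z ^ i := by
      rw [mul_sum, mul_sum, ← sum_add_distrib]
      apply sum_congr rfl
      intro i _
      rw [pow_add]
      push_cast
      ring
    rw [e1, Pf_zero hz, hd', pow_add]
    push_cast
    ring) 0
  have hp := h.root_pow z hz
  simp only [zero_add, hp, CharP.cast_eq_zero, zero_mul, mul_one] at h1
  have := h.hp
  have h2 : (p : ℂ) ≠ 0 := by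
    exact_mod_cast (by omega : p ≠ 0)
  exact h2 h1

theorem solvable (k : ℕ) (b : ℕ → ℝ) (p : ℕ) (hp : 1 ≤ p) (z c : ℂ) (s : ℕ → ℂ)
    (hzp : z ^ p = 1) (hz : Pf k b z = 0) (hs : ∀ n, s (n + p) = s n)
    (hr : ∀ n, s (n + k) + s n + c * z ^ n = ∑ i ∈ Ico 1 k, (b i : ℂ) * s (n + i)) :
    c = 0 := by
  have hz0 : z ≠ 0 := by
    rintro rfl
    rw [zero_pow (by omega)] at hzp
    exact one_ne_zero hzp.symm
  have hA : ∀ i, ∑ n ∈ range p, (z⁻¹) ^ n * s (n + i) =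
      z ^ i * ∑ n ∈ range p, (z⁻¹) ^ n * s n := by
    intro i
    induction i with
    | zero => simp
    | succ i ih =>
      have e1 : ∑ n ∈ range p, (z⁻¹) ^ n * s (n + (i + 1)) =
          z * ∑ n ∈ range p, (z⁻¹) ^ (n + 1) * s (n + 1 + i) := by
        rw [mul_sum]
        apply sum_congr rfl
        intro n _
        have e2 : n + (i + 1) = n + 1 + i := by ring
        rw [e2, pow_succ]
        field_simp
      have e3 := sum_range_succ' (fun n => (z⁻¹) ^ n * s (n + i)) p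
      have e4 := sum_range_succ (fun n => (z⁻¹) ^ n * s (n + i)) p
      have e5 : (z⁻¹) ^ p * s (p + i) = (z⁻¹) ^ 0 * s (0 + i) := by
        rw [inv_pow, hzp, add_comm p i, hs i]
        simp
      rw [e5] at e4
      have e6 : ∑ n ∈ range p, (z⁻¹) ^ (n + 1) * s (n + 1 + i) =
          ∑ n ∈ range p, (z⁻¹) ^ n * s (n + i) := by
        linear_combination e4 - e3
      rw [e1, e6, ih, pow_succ]
      ring
  have hsum : ∑ n ∈ range p, (z⁻¹) ^ n * (s (n + k) + s n + c * z ^ n) =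
      ∑ n ∈ range p, (z⁻¹) ^ n * ∑ i ∈ Ico 1 k, (b i : ℂ) * s (n + i) := by
    apply sum_congr rfl
    intro n _
    rw [hr n]
  have e7 : ∑ n ∈ range p, (z⁻¹) ^ n * ∑ i ∈ Ico 1 k, (b i : ℂ) * s (n + i) =
      ∑ i ∈ Ico 1 k, (b i : ℂ) * (z ^ i * ∑ n ∈ range p, (z⁻¹) ^ n * s n) := by
    simp_rw [mul_sum]
    rw [sum_comm]
    apply sum_congr rfl
    intro i _
    have := hA i
    rw [mul_sum] at this
    rw [← mul_sum, ← this, mul_sum]
    apply sum_congr rfl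
    intro n _
    ring
  have e8 : ∑ n ∈ range p, (z⁻¹) ^ n * (s (n + k) + s n + c * z ^ n) =
      z ^ k * (∑ n ∈ range p, (z⁻¹) ^ n * s n) + (∑ n ∈ range p, (z⁻¹) ^ n * s n) + p * c := by
    rw [← hA k]
    have e9 : (p : ℂ) * c = ∑ n ∈ range p, (z⁻¹) ^ n * (c * z ^ n) := by
      have : ∀ n ∈ range p, (z⁻¹) ^ n * (c * z ^ n) = c := by
        intro n _
        rw [inv_pow]
        field_simp
      rw [sum_congr rfl this]
      simp
    rw [e9, ← sum_add_distrib, ← sum_add_distrib]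
    apply sum_congr rfl
    intro n _
    ring
  rw [e7, e8] at hsum
  have e10 : ∑ i ∈ Ico 1 k, (b i : ℂ) * (z ^ i * ∑ n ∈ range p, (z⁻¹) ^ n * s n) =
      (∑ i ∈ Ico 1 k, (b i : ℂ) * z ^ i) * ∑ n ∈ range p, (z⁻¹) ^ n * s n := by
    rw [sum_mul]
    apply sum_congr rfl
    intro i _
    ring
  rw [e10, Pf_zero hz] at hsum
  have e11 : (p : ℂ) * c = 0 := by linear_combination hsum
  rcases mul_eq_zero.mp e11 with h | h
  · exfalso
    have : p = 0 := by exact_mod_cast h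
    omega
  · exact h

theorem exists_forced (k : ℕ) (hk : 1 ≤ k) (b : ℕ → ℝ) (z c : ℂ) :
    ∃ s : ℕ → ℂ, ∀ n, s (n + k) + s n + c * z ^ n = ∑ i ∈ Ico 1 k, (b i : ℂ) * s (n + i) := by
  obtain ⟨x, _, hx⟩ := exists_seq k (fun _ => (0 : ℂ))
    (fun n f => (∑ i ∈ Ico 1 k, (b i : ℂ) * f i) - f 0 - c * z ^ n) (by
      intro n f g hfg
      have h1 : ∑ i ∈ Ico 1 k, (b i : ℂ) * f i = ∑ i ∈ Ico 1 k, (b i : ℂ) * g i := by
        apply sum_congr rfl
        intro i hi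
        rw [hfg i (by simp at hi; omega)]
      simp only [h1, hfg 0 (by omega)])
  refine ⟨x, fun n => ?_⟩
  rw [hx n]
  simp only [add_zero]
  ring

/-- second order resonance condition -/
theorem Data.Q2 {k : ℕ} {b : ℕ → ℝ} {p : ℕ} (h : Data k b p) (z1 z2 : ℂ)
    (h1 : Pf k b z1 = 0) (h2 : Pf k b z2 = 0) (h12 : Pf k b (z1 * z2) = 0) :
    z1 ^ k + z2 ^ k = 0 := by
  obtain ⟨s, hs⟩ := exists_forced k h.hk b (z1 * z2) (z1 ^ k + z2 ^ k)
  have hper := fun n => (h.third (fun n => 1 * z1 ^ n) (fun n => 1 * z2 ^ n) (fun _ => 0) s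
    (fun _ => 0) (fun _ => 0) (fun _ => 0)
    (by intro n; rw [sum_shift, Pf_zero h1, pow_add]; ring)
    (by intro n; rw [sum_shift, Pf_zero h2, pow_add]; ring)
    (by simp)
    (by intro n; rw [← hs n, pow_add, pow_add, mul_pow]; ring)
    (by simp) (by simp) (by simp) n).2.1
  exact solvable k b p h.hp (z1 * z2) _ s (h.root_pow _ h12) h12 hper hs

/-- third order condition -/
theorem Data.Q3 {k : ℕ} {b : ℕ → ℝ} {p : ℕ} (h : Data k b p) (z1 z2 z3 : ℂ)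
    (h1 : Pf k b z1 = 0) (h2 : Pf k b z2 = 0) (h3 : Pf k b z3 = 0)
    (h123 : Pf k b (z1 * z2 * z3) = 0)
    (h12 : Pf k b (z1 * z2) ≠ 0) (h13 : Pf k b (z1 * z3) ≠ 0) (h23 : Pf k b (z2 * z3) ≠ 0) :
    (z1 ^ k + z2 ^ k) * (z3 ^ k + z1 ^ k * z2 ^ k) / Pf k b (z1 * z2)
    + (z1 ^ k + z3 ^ k) * (z2 ^ k + z1 ^ k * z3 ^ k) / Pf k b (z1 * z3)
    + (z2 ^ k + z3 ^ k) * (z1 ^ k + z2 ^ k * z3 ^ k) / Pf k b (z2 * z3) = 0 := by
  have key : ∀ (x y : ℂ), Pf k b (x * y) ≠ 0 → ∀ n : ℕ,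
      (-(x ^ k + y ^ k) / Pf k b (x * y)) * (x * y) ^ (n + k)
      + (-(x ^ k + y ^ k) / Pf k b (x * y)) * (x * y) ^ n
      + (1 * x ^ (n + k) * (1 * y ^ n) + 1 * y ^ (n + k) * (1 * x ^ n)) =
      ∑ i ∈ Ico 1 k, (b i : ℂ) * ((-(x ^ k + y ^ k) / Pf k b (x * y)) * (x * y) ^ (n + i)) := by
    intro x y hxy n
    rw [sum_shift]
    have e : ∑ i ∈ Ico 1 k, (b i : ℂ) * (x * y) ^ i = (x * y) ^ k + 1 - Pf k b (x * y) := by
      unfold Pf; ring
    rw [e]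
    field_simp
    rw [pow_add, pow_add, pow_add, mul_pow, mul_pow]
    ring
  obtain ⟨s, hs⟩ := exists_forced k h.hk b (z1 * z2 * z3)
    (-((z1 ^ k + z2 ^ k) * (z3 ^ k + z1 ^ k * z2 ^ k) / Pf k b (z1 * z2)
    + (z1 ^ k + z3 ^ k) * (z2 ^ k + z1 ^ k * z3 ^ k) / Pf k b (z1 * z3)
    + (z2 ^ k + z3 ^ k) * (z1 ^ k + z2 ^ k * z3 ^ k) / Pf k b (z2 * z3)))
  have hper := fun n => (h.third (fun n => 1 * z1 ^ n) (fun n => 1 * z2 ^ n)
    (fun n => 1 * z3 ^ n)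
    (fun n => (-(z1 ^ k + z2 ^ k) / Pf k b (z1 * z2)) * (z1 * z2) ^ n)
    (fun n => (-(z1 ^ k + z3 ^ k) / Pf k b (z1 * z3)) * (z1 * z3) ^ n)
    (fun n => (-(z2 ^ k + z3 ^ k) / Pf k b (z2 * z3)) * (z2 * z3) ^ n)
    s
    (by intro n; rw [sum_shift, Pf_zero h1, pow_add]; ring)
    (by intro n; rw [sum_shift, Pf_zero h2, pow_add]; ring)
    (by intro n; rw [sum_shift, Pf_zero h3, pow_add]; ring)
    (key z1 z2 h12) (key z1 z3 h13) (key z2 z3 h23)
    (by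
      intro n
      rw [← hs n]
      simp only [pow_add, mul_pow]
      ring) n).2.2
  have := solvable k b p h.hp (z1 * z2 * z3) _ s (h.root_pow _ h123) h123 hper hs
  linear_combination -this

end Pool.Agent.Helper470.Perturb
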