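import Pool.Agent.Helper470.Orbits4

set_option autoImplicit false

open Finset

namespace Pool.Agent.Helper470.PosCase

open Pool.Agent.Helper470.Basic Pool.Agent.Helper470.Perturb Pool.Agent.Helper470.Roots
open Pool.Agent.Helper470.Trop Pool.Agent.Helper470.Orbits

theorem exists_sup {k : ℕ} {b : ℕ → ℝ} {p : ℕ} (h : Data k b p)
    (hex : ∃ i, Su k b i) : ∃ m, Sup k m (Su k b) := by
  classical
  refine ⟨Nat.find hex, ?_, Nat.find_spec hex, fun i hi => Nat.find_min' hex hi, ?_⟩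
  · exact (Nat.find_spec hex).1
  · intro i hi
    obtain ⟨h1, h2, h3⟩ := hi
    refine ⟨h2, by omega, by omega, ?_⟩
    rw [← palin h i h1 h2]
    exact h3

theorem Pf_one' {k : ℕ} {b : ℕ → ℝ} {p : ℕ} (h : Data k b p) : Pf k b 1 = 1 + (b 0 : ℂ) := by
  have e : ∑ i ∈ Ico 1 k, (b i : ℂ) = 1 - (b 0 : ℂ) := by
    have := h.sum1
    have h' : (b 0 : ℂ) + ∑ i ∈ Ico 1 k, (b i : ℂ) = 1 := by exact_mod_cast this
    linear_combination h'
  unfold Pf
  simp only [one_pow, mul_one]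
  rw [e]; ring

theorem frac_lemma (A B P κ : ℂ) (hP : P ≠ 0) (hκ : κ ≠ 0) (q : A / P + B / κ + B / κ = 0) :
    A * κ + 2 * B * P = 0 := by
  have e : A / P + B / κ + B / κ = (A * κ + 2 * B * P) / (P * κ) := by
    field_simp
    ring
  rw [e] at q
  rcases div_eq_zero_iff.mp q with h | h
  · exact h
  · exact absurd h (mul_ne_zero hP hκ)

theorem two_case {k : ℕ} {b : ℕ → ℝ} {p : ℕ} (h : Data k b p) (hb0 : 0 < b 0) (m : ℕ)
    (hm : 1 ≤ m) (hk : k = 2 * m) (hI : ∀ i, Su k b i ↔ i = m) : b 0 = b m ^ 2 := by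
  have hbm : 0 < b m := by
    have := ((hI m).mpr rfl).2.2
    exact lt_of_le_of_ne (h.nn m) (Ne.symm this)
  have hz : ∀ i, 1 ≤ i → i < k → i ≠ m → b i = 0 := by
    intro i h1 h2 h3
    by_contra hc
    exact h3 ((hI i).mp ⟨h1, h2, hc⟩)
  have hsum : b 0 + b m = 1 := by
    have := h.sum1
    rwa [sum_eq_single m (by
      intro i hi hne
      simp only [mem_Ico] at hi
      exact hz i hi.1 hi.2 hne) (by
      intro hnot
      exfalso
      apply hnot
      simp only [mem_Ico]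
      omega)] at this
  have hPf : ∀ z : ℂ, Pf k b z = (z ^ m) ^ 2 + 1 - (b m : ℂ) * z ^ m := by
    intro z
    unfold Pf
    rw [sum_eq_single m (by
      intro i hi hne
      simp only [mem_Ico] at hi
      rw [hz i hi.1 hi.2 hne]
      simp) (by
      intro hnot
      exfalso
      apply hnot
      simp only [mem_Ico]
      omega)]
    rw [hk, ← pow_mul, mul_comm m 2]
  -- a root
  obtain ⟨ζ, hζ⟩ : (Z k b).Nonempty := by
    rw [← card_pos, card_Z h]; exact h.hk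
  have hζ0 := (mem_Z h.hk).mp hζ
  obtain ⟨y, hy⟩ : ∃ y, y = (starRingEnd ℂ) ζ := ⟨_, rfl⟩
  have hmy : ζ * y = 1 := by rw [hy]; exact mul_conj_root h hζ0
  have hy0 : Pf k b y = 0 := by rw [hy]; exact conj_root hζ0
  obtain ⟨e, he⟩ : ∃ e, e = ζ ^ m := ⟨_, rfl⟩
  obtain ⟨f, hf⟩ : ∃ f, f = y ^ m := ⟨_, rfl⟩
  obtain ⟨β, hβ⟩ : ∃ β : ℂ, β = (b m : ℂ) := ⟨_, rfl⟩
  have hef : e * f = 1 := by rw [he, hf, ← mul_pow, hmy, one_pow]
  have he0 : e ≠ 0 := left_ne_zero_of_mul_eq_one hef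
  have hqe : e ^ 2 + 1 - β * e = 0 := by rw [he, hβ, ← hPf]; exact hζ0
  have hsumef : e + f = β := by
    have : e * (e + f - β) = 0 := by linear_combination hqe + hef
    rcases mul_eq_zero.mp this with h1 | h1
    · exact absurd h1 he0
    · linear_combination h1
  have hwe : ζ ^ k = e ^ 2 := by rw [he, hk, ← pow_mul, mul_comm m 2]
  have hwf : y ^ k = f ^ 2 := by rw [hf, hk, ← pow_mul, mul_comm m 2]
  have hβ0 : β ≠ 0 := by
    rw [hβ]; exact_mod_cast hbm.ne'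
  obtain ⟨c, hc⟩ : ∃ c, c = β ^ 2 - 2 := ⟨_, rfl⟩
  have hce : e ^ 2 + f ^ 2 = c := by rw [hc, ← hsumef]; linear_combination -2 * hef
  have hP2 : Pf k b (ζ * ζ) = e ^ 2 * (c - β) := by
    rw [hPf, mul_pow, ← he, ← hβ, ← hce]
    linear_combination -(e * f + 1) * hef
  have hcb : c - β ≠ 0 := by
    have : c - β = (((b m - 2) * (b m + 1) : ℝ) : ℂ) := by
      rw [hc, hβ]; push_cast; ring
    rw [this]
    have h2 : (b m - 2) * (b m + 1) ≠ 0 := by
      apply mul_ne_zero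
      · linarith
      · linarith
    exact_mod_cast h2
  have hP2n : Pf k b (ζ * ζ) ≠ 0 := by
    rw [hP2]; exact mul_ne_zero (pow_ne_zero _ he0) hcb
  obtain ⟨κ, hκ⟩ : ∃ κ : ℂ, κ = 2 - β := ⟨_, rfl⟩
  have hP1 : Pf k b (ζ * y) = κ := by
    rw [hmy, Pf_one' h, hκ, hβ]
    have : (b 0 : ℂ) = 1 - (b m : ℂ) := by
      have : b 0 = 1 - b m := by linarith
      rw [this]; push_cast; ring
    rw [this]; ring
  have hκ0 : κ ≠ 0 := by
    rw [hκ, hβ]
    have : (2 - b m : ℝ) ≠ 0 := by linarith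
    exact_mod_cast this
  have q := h.Q3 ζ ζ y hζ0 hζ0 hy0 (by rw [mul_assoc, hmy, mul_one]; exact hζ0) hP2n
    (by rw [hP1]; exact hκ0) (by rw [hP1]; exact hκ0)
  rw [hP1, hP2, hwe, hwf] at q
  have q1 := frac_lemma _ _ _ _ (mul_ne_zero (pow_ne_zero 2 he0) hcb) hκ0 q
  have hA : f ^ 2 + e ^ 2 * e ^ 2 = (1 + e ^ 2) * (c - 1) := by
    rw [← hce]; linear_combination -(e * f + 1) * hef
  have hB : e ^ 2 + e ^ 2 * f ^ 2 = β * e := by
    linear_combination (e * f + 1) * hef + hqe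
  have h1e : 1 + e ^ 2 = β * e := by linear_combination hqe
  rw [hA, hB, hce, h1e] at q1
  have q2 : (2 * e ^ 3 * β) * ((c - 1) * κ + c * (c - β)) = 0 := by
    linear_combination q1
  have q3 : (c - 1) * κ + c * (c - β) = 0 := by
    rcases mul_eq_zero.mp q2 with h1 | h1
    · exfalso
      have : (2 : ℂ) * e ^ 3 * β ≠ 0 :=
        mul_ne_zero (mul_ne_zero two_ne_zero (pow_ne_zero 3 he0)) hβ0
      exact this h1
    · exact h1
  have q4 : (((b m - 2) * ((b m - 1) * (b m ^ 2 + b m - 1)) : ℝ) : ℂ) = 0 := by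
    push_cast
    rw [← hβ]
    rw [hc, hκ] at q3
    linear_combination q3
  have q5 : (b m - 2) * ((b m - 1) * (b m ^ 2 + b m - 1)) = 0 := by exact_mod_cast q4
  have q6 : b m ^ 2 + b m - 1 = 0 := by
    rcases mul_eq_zero.mp q5 with h1 | h1
    · linarith
    · rcases mul_eq_zero.mp h1 with h2 | h2
      · linarith
      · exact h2
  linarith

theorem three_case {k : ℕ} {b : ℕ → ℝ} {p : ℕ} (h : Data k b p) (hb0 : 0 < b 0) (m : ℕ)
    (hm : 1 ≤ m) (hk : k = 3 * m) (hI : ∀ i, Su k b i ↔ (i = m ∨ i = 2 * m)) :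
    b (2 * m) = b m ∧ b 0 = b m ^ 2 := by
  have hbm : 0 < b m := by
    have := ((hI m).mpr (Or.inl rfl)).2.2
    exact lt_of_le_of_ne (h.nn m) (Ne.symm this)
  have h2m : b (2 * m) = b m := by
    have := palin h m hm (by omega)
    rw [this, show k - m = 2 * m by omega]
  refine ⟨h2m, ?_⟩
  have hz : ∀ i, 1 ≤ i → i < k → i ≠ m ∧ i ≠ 2 * m → b i = 0 := by
    intro i h1 h2 h3
    by_contra hc
    rcases (hI i).mp ⟨h1, h2, hc⟩ with h4 | h4
    · exact h3.1 h4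
    · exact h3.2 h4
  have hsum : b 0 + 2 * b m = 1 := by
    have := h.sum1
    rw [sum_eq_add m (2 * m) (by omega) (by
      intro i hi hne
      simp only [mem_Ico] at hi
      exact hz i hi.1 hi.2 hne) (by
      intro hnot
      exfalso
      apply hnot
      simp only [mem_Ico]
      omega) (by
      intro hnot
      exfalso
      apply hnot
      simp only [mem_Ico]
      omega), h2m] at this
    linarith
  obtain ⟨β, hβ⟩ : ∃ β : ℂ, β = (b m : ℂ) := ⟨_, rfl⟩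
  have hβ0 : β ≠ 0 := by
    rw [hβ]; exact_mod_cast hbm.ne'
  have hPf : ∀ z : ℂ, Pf k b z = (z ^ m) ^ 3 + 1 - β * (z ^ m + (z ^ m) ^ 2) := by
    intro z
    unfold Pf
    rw [sum_eq_add m (2 * m) (by omega) (by
      intro i hi hne
      simp only [mem_Ico] at hi
      rw [hz i hi.1 hi.2 hne]
      simp) (by
      intro hnot
      exfalso
      apply hnot
      simp only [mem_Ico]
      omega) (by
      intro hnot
      exfalso
      apply hnot
      simp only [mem_Ico]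
      omega), h2m, ← hβ, hk, mul_comm 3 m, mul_comm 2 m, pow_mul, pow_mul]
    ring
  -- roots
  obtain ⟨a, ha⟩ := IsAlgClosed.exists_pow_nat_eq (-1 : ℂ) (show 0 < m by omega)
  obtain ⟨δ, hδ⟩ := IsAlgClosed.exists_pow_nat_eq ((1 + β) ^ 2 - 4 : ℂ) (show 0 < 2 by norm_num)
  obtain ⟨η, hη⟩ : ∃ η, η = ((1 + β) + δ) / 2 := ⟨_, rfl⟩
  have hη2 : η ^ 2 = (1 + β) * η - 1 := by
    rw [hη]
    linear_combination (1 / 4 : ℂ) * hδ
  obtain ⟨z, hzη⟩ := IsAlgClosed.exists_pow_nat_eq η (show 0 < m by omega)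
  have hη3 : η ^ 3 = β * (η + η ^ 2) - 1 := by
    linear_combination (η + 1) * hη2
  have ra : Pf k b a = 0 := by rw [hPf, ha]; ring
  have rz : Pf k b z = 0 := by rw [hPf, hzη, hη3]; ring
  obtain ⟨a', ha'⟩ : ∃ a', a' = (starRingEnd ℂ) a := ⟨_, rfl⟩
  have maa : a * a' = 1 := by rw [ha']; exact mul_conj_root h ra
  have ra' : Pf k b a' = 0 := by rw [ha']; exact conj_root ra
  have ha'm : a' ^ m = -1 := by
    rw [ha', ← map_pow, ha]; simp
  have nη : ‖η‖ = 1 := by rw [← hzη, norm_pow, norm_root h rz, one_pow]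
  have wz : z ^ k = η ^ 3 := by rw [hk, mul_comm 3 m, pow_mul, hzη]
  have wa : a ^ k = -1 := by rw [hk, mul_comm 3 m, pow_mul, ha]; norm_num
  have wa' : a' ^ k = -1 := by rw [hk, mul_comm 3 m, pow_mul, ha'm]; norm_num
  have hne1 : 1 - β * η ≠ 0 := by
    intro e
    have e1 : β * η = 1 := by linear_combination -e
    have e2 := congrArg norm e1
    rw [norm_mul, nη, mul_one, norm_one, hβ, Complex.norm_real, Real.norm_eq_abs,
      abs_of_pos hbm] at e2
    linarith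
  have h1b : (1 + β) ≠ 0 := by
    rw [hβ]
    have : (1 + b m : ℝ) ≠ 0 := by linarith
    exact_mod_cast this
  have Pza : ∀ x : ℂ, x ^ m = -1 → Pf k b (z * x) = 2 * (1 + β) * (1 - β * η) := by
    intro x hx
    rw [hPf, mul_pow, hzη, hx]
    linear_combination -1 * (η + 1) * hη2 - β * hη2 - β * hη2
  obtain ⟨Q, hQ⟩ : ∃ Q, Q = 2 * (1 + β) * (1 - β * η) := ⟨_, rfl⟩
  have hQ0 : Q ≠ 0 := by
    rw [hQ]; exact mul_ne_zero (mul_ne_zero two_ne_zero h1b) hne1
  have P1 : Pf k b (z * a) = Q := by rw [hQ]; exact Pza a ha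
  have P2 : Pf k b (z * a') = Q := by rw [hQ]; exact Pza a' ha'm
  obtain ⟨κ, hκ⟩ : ∃ κ : ℂ, κ = 2 - 2 * β := ⟨_, rfl⟩
  have P3 : Pf k b (a * a') = κ := by
    rw [maa, Pf_one' h, hκ, hβ]
    have : (b 0 : ℂ) = 1 - 2 * (b m : ℂ) := by
      have : b 0 = 1 - 2 * b m := by linarith
      rw [this]; push_cast; ring
    rw [this]; ring
  have hκ0 : κ ≠ 0 := by
    rw [hκ, hβ]
    have : (2 - 2 * b m : ℝ) ≠ 0 := by linarith
    exact_mod_cast this
  have q := h.Q3 z a a' rz ra ra' (by rw [mul_assoc, maa, mul_one]; exact rz)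
    (by rw [P1]; exact hQ0) (by rw [P2]; exact hQ0) (by rw [P3]; exact hκ0)
  rw [P1, P2, P3, wz, wa, wa'] at q
  have hw : 1 - η ^ 3 = (2 + β) * (1 - β * η) := by
    linear_combination (-1 : ℂ) * (η + 1) * hη2 - β * hη2
  have q1 : (η ^ 3 + 1) * (κ * (η ^ 3 - 1) + Q) = 0 := by
    have e : (η ^ 3 + -1) * (-1 + η ^ 3 * -1) / Q + (η ^ 3 + -1) * (-1 + η ^ 3 * -1) / Q +
        (-1 + -1) * (η ^ 3 + -1 * -1) / κ =
        -2 * ((η ^ 3 + 1) * (κ * (η ^ 3 - 1) + Q)) / (Q * κ) := by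
      field_simp
      ring
    rw [e] at q
    rcases div_eq_zero_iff.mp q with h1 | h1
    · linear_combination (-1 / 2 : ℂ) * h1
    · exact absurd h1 (mul_ne_zero hQ0 hκ0)
  have hw1 : η ^ 3 + 1 ≠ 0 := by
    intro e
    have e1 : (2 + β) * (1 - β * η) = 2 := by rw [← hw]; linear_combination -e
    have e2 : β * ((2 + β) * η - 1) = 0 := by linear_combination -e1
    rcases mul_eq_zero.mp e2 with h1 | h1
    · exact hβ0 h1
    · have e3 : (2 + β) * η = 1 := by linear_combination h1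
      have e4 := congrArg norm e3
      have e5 : (2 + β) = ((2 + b m : ℝ) : ℂ) := by rw [hβ]; push_cast; ring
      rw [norm_mul, nη, mul_one, norm_one, e5, Complex.norm_real, Real.norm_eq_abs,
        abs_of_pos (by linarith)] at e4
      linarith
  have q2 : κ * (η ^ 3 - 1) + Q = 0 := by
    rcases mul_eq_zero.mp q1 with h1 | h1
    · exact absurd h1 hw1
    · exact h1
  have q3 : 2 * (1 - β * η) * (β ^ 2 + 2 * β - 1) = 0 := by
    have : η ^ 3 - 1 = -((2 + β) * (1 - β * η)) := by linear_combination -hw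
    rw [this, hκ, hQ] at q2
    linear_combination q2
  have q4 : β ^ 2 + 2 * β - 1 = 0 := by
    rcases mul_eq_zero.mp q3 with h1 | h1
    · exact absurd h1 (mul_ne_zero two_ne_zero hne1)
    · exact h1
  have q5 : b m ^ 2 + 2 * b m - 1 = 0 := by
    rw [hβ] at q4
    exact_mod_cast q4
  linarith

/-- Classification with positive constant term. -/
theorem pos_case {k : ℕ} {b : ℕ → ℝ} {p : ℕ} (h : Data k b p) (hb0 : 0 < b 0)
    (hex : ∃ i, Su k b i) :
    ∃ m : ℕ, 1 ≤ m ∧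
      ((k = 2 * m ∧ b 0 = b m ^ 2 ∧ 0 < b m ∧ ∀ i, 1 ≤ i → i < k → i ≠ m → b i = 0) ∨
       (k = 3 * m ∧ b 0 = b m ^ 2 ∧ b (2 * m) = b m ∧ 0 < b m ∧
          ∀ i, 1 ≤ i → i < k → i ≠ m → i ≠ 2 * m → b i = 0)) := by
  obtain ⟨m, hm⟩ := exists_sup h hex
  have hbm : 0 < b m := lt_of_le_of_ne (h.nn m) (Ne.symm hm.Im.2.2)
  refine ⟨m, hm.m1, ?_⟩
  rcases trop_struct h.hp hm (perTrop h hb0) with ⟨hk, hI⟩ | ⟨hk, hI⟩
  · left
    refine ⟨hk, two_case h hb0 m hm.m1 hk hI, hbm, ?_⟩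
    intro i h1 h2 h3
    by_contra hc
    exact h3 ((hI i).mp ⟨h1, h2, hc⟩)
  · right
    obtain ⟨e1, e2⟩ := three_case h hb0 m hm.m1 hk hI
    refine ⟨hk, e2, e1, hbm, ?_⟩
    intro i h1 h2 h3 h4
    by_contra hc
    rcases (hI i).mp ⟨h1, h2, hc⟩ with h5 | h5
    · exact h3 h5
    · exact h4 h5

end Pool.Agent.Helper470.PosCase
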