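import Pool.Agent.Helper470.ZeroCase4

set_option autoImplicit false

open Finset

namespace Pool.Agent.Helper470.ZeroCase

open Pool.Agent.Helper470.Basic Pool.Agent.Helper470.Perturb Pool.Agent.Helper470.Roots

theorem re_eq {k : ℕ} {b : ℕ → ℝ} {p : ℕ} (h : Data k b p) (h0 : b 0 = 0) (a0 : ℂ)
    (ha0 : Pf k b a0 = 0) : (a0 ^ k).re = -1 / 2 := by
  classical
  by_contra hne
  have hlt : (a0 ^ k).re < -1 / 2 := lt_of_le_of_ne (re_w h a0 ha0) hne
  set w := a0 ^ k with hw
  have hw1 : w * cj w = 1 := w_cj h ha0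
  have hwm : w ≠ -1 := w_ne_neg_one h h0 a0 ha0
  have hwp : w ≠ 1 := w_ne_one h a0 ha0
  have hww : w ≠ cj w := by
    intro e
    rw [← e] at hw1
    have : (w - 1) * (w + 1) = 0 := by linear_combination hw1
    rcases mul_eq_zero.mp this with h1 | h1
    · exact hwp (sub_eq_zero.mp h1)
    · exact hwm (by linear_combination h1)
  obtain ⟨C, hC⟩ : ∃ C : ℝ, C = -2 * w.re := ⟨_, rfl⟩
  have hC1 : 1 < C := by linarith
  have hC2 : C ≤ 2 := by
    have h1 : |w.re| ≤ ‖w‖ := Complex.abs_re_le_norm w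
    have h2 : ‖w‖ = 1 := by rw [hw, norm_pow, norm_root h ha0, one_pow]
    rw [h2] at h1
    have := (abs_le.mp h1).1
    linarith
  have hCc : (C : ℂ) = -(w + cj w) := by
    have : w + cj w = ((2 * w.re : ℝ) : ℂ) := Complex.add_conj w
    rw [this, hC]
    push_cast; ring
  have hC0 : (C : ℂ) ≠ 0 := by
    have : (C : ℝ) ≠ 0 := by linarith
    exact_mod_cast this
  have hwcj : (1 + w) * (1 + cj w) = 2 - (C : ℂ) := by
    rw [hCc]; linear_combination hw1
  set G := (Z k b).filter (fun z => z ^ k = w) with hG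
  have memG : ∀ a ∈ G, Pf k b a = 0 ∧ a ^ k = w := by
    intro a ha
    rw [hG, mem_filter] at ha
    exact ⟨(mem_Z h.hk).mp ha.1, ha.2⟩
  set v : ℂ → ℂ := fun a => (Df k b a)⁻¹ with hv
  set X : ℂ → ℂ → ℂ := fun a c => T k b a (cj c) with hX
  have hXS : ∀ a ∈ G, ∀ c ∈ G, X a c = S k b (a * cj c) - (2 - (C : ℂ)) := by
    intro a ha c hc
    obtain ⟨ra, wa⟩ := memG a ha
    obtain ⟨rc, wc⟩ := memG c hc
    have s2 := S_root (conj_root rc)
    have hcc : (starRingEnd ℂ) c ^ k = cj w := by rw [← wc]; exact cj_pow c k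
    rw [hcc] at s2
    simp only [hX, T]
    rw [S_root ra, wa, ← hwcj]
    rw [show S k b (cj c) = 1 + cj w from s2]
  have hXn : ∀ a ∈ G, ∀ c ∈ G, ‖X a c‖ < 1 + C := by
    intro a ha c hc
    rw [hXS a ha c hc]
    obtain ⟨ra, wa⟩ := memG a ha
    obtain ⟨rc, wc⟩ := memG c hc
    have n1 : ‖a * cj c‖ = 1 := by
      rw [norm_mul, norm_root h ra, norm_root h (conj_root rc), one_mul]
    have n2 := norm_S_le h (a * cj c) n1
    rw [h0, sub_zero] at n2
    have n3 : ‖(2 - (C : ℂ))‖ = 2 - C := by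
      have : (2 - (C : ℂ)) = ((2 - C : ℝ) : ℂ) := by push_cast; ring
      rw [this, Complex.norm_real, Real.norm_eq_abs, abs_of_nonneg (by linarith)]
    calc ‖S k b (a * cj c) - (2 - (C : ℂ))‖ ≤ ‖S k b (a * cj c)‖ + ‖(2 - (C : ℂ))‖ :=
          norm_sub_le _ _
      _ ≤ 1 + (2 - C) := by rw [n3]; linarith
      _ < 1 + C := by linarith
  have hgram : ∀ a ∈ G, ∀ c ∈ G, X a c =
      ∑ i ∈ Ico 1 k, (b i : ℂ) * ((a ^ i - (1 + w)) * (starRingEnd ℂ) (c ^ i - (1 + w))) := by
    intro a ha c hc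
    obtain ⟨ra, wa⟩ := memG a ha
    obtain ⟨rc, wc⟩ := memG c hc
    exact gram h h0 a c w ra rc wa wc
  have hq : ∀ j : ℕ, ∃ r : ℝ, 0 ≤ r ∧
      ∑ a ∈ G, ∑ c ∈ G, v a * cj (v c) * X a c ^ j = (r : ℂ) := by
    intro j
    exact schur_pos G (Ico 1 k) b h.nn (fun a i => a ^ i - (1 + w)) X hgram j v
  have hz : ∑ a ∈ G, ∑ c ∈ G, v a * cj (v c) *
      (X a c + (2 / (C : ℂ)) * (X a c / (1 + (C : ℂ) - X a c))) = 0 := by
    rw [sum_comm]
    apply sum_eq_zero
    intro c hc
    obtain ⟨rc, wc⟩ := memG c hc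
    have g := group_sum h h0 w c hw1 hww rc wc
    have e : ∀ a ∈ G, v a * cj (v c) *
        (X a c + (2 / (C : ℂ)) * (X a c / (1 + (C : ℂ) - X a c))) =
        cj (v c) * ((Df k b a)⁻¹ * (T k b a (cj c) - T k b a c / w)) := by
      intro a ha
      obtain ⟨ra, wa⟩ := memG a ha
      have r := group_rel h h0 a c w ra rc wa wc
      rw [← hCc] at r
      have hne : 1 + (C : ℂ) - X a c ≠ 0 := by
        intro e
        have e' : X a c = 1 + (C : ℂ) := by linear_combination -e
        have h2 := hXn a ha c hc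
        have hn : ‖(1 + (C : ℂ))‖ = 1 + C := by
          have : (1 + (C : ℂ)) = ((1 + C : ℝ) : ℂ) := by push_cast; ring
          rw [this, Complex.norm_real, Real.norm_eq_abs, abs_of_pos (by linarith)]
        rw [e', hn] at h2
        exact lt_irrefl _ h2
      have e3 : T k b a c / w = -((2 / (C : ℂ)) * (X a c / (1 + (C : ℂ) - X a c))) := by
        have r' : (C : ℂ) * (1 + (C : ℂ) - X a c) * (T k b a c / w) = -2 * X a c := r
        have hp : (C : ℂ) * (1 + (C : ℂ) - X a c) ≠ 0 := mul_ne_zero hC0 hne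
        have : T k b a c / w = (-2 * X a c) / ((C : ℂ) * (1 + (C : ℂ) - X a c)) := by
          rw [← r']
          field_simp
        rw [this]
        field_simp
      rw [e3]
      simp only [hv, hX]
      ring
    rw [sum_congr rfl e, ← mul_sum, g, mul_zero]
  have hm := moments_zero G v X C hC1 hXn hq hz
  have hD : ((C : ℂ) - 1) ≠ 0 := by
    have : (C - 1 : ℝ) ≠ 0 := by linarith
    exact_mod_cast this
  have hl := level_sum G v X hm ((C : ℂ) - 1) hD
  have hveq : ∀ x ∈ (G ×ˢ G).filter (fun x => X x.1 x.2 = (C : ℂ) - 1), v x.1 = v x.2 := by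
    intro x hx
    rw [mem_filter, mem_product] at hx
    obtain ⟨⟨hx1, hx2⟩, hx3⟩ := hx
    obtain ⟨r1, w1⟩ := memG x.1 hx1
    obtain ⟨r2, w2⟩ := memG x.2 hx2
    have hs : S k b (x.1 * cj x.2) = 1 := by
      have := hXS x.1 hx1 x.2 hx2
      rw [hx3] at this
      linear_combination -this
    have n1 : ‖x.1 * cj x.2‖ = 1 := by
      rw [norm_mul, norm_root h r1, norm_root h (conj_root r2), one_mul]
    have m2 := mul_conj_root h r2
    have hpow : ∀ i, 1 ≤ i → i < k → b i ≠ 0 → x.1 ^ i = x.2 ^ i := by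
      intro i h1 hi hb
      have := eq_case h h0 (x.1 * cj x.2) n1 (by rw [hs]; simp) i h1 hi hb
      rw [hs, mul_pow] at this
      have m3 : x.2 ^ i * (cj x.2) ^ i = 1 := by
        rw [← mul_pow]
        rw [show x.2 * cj x.2 = 1 from m2, one_pow]
      linear_combination x.2 ^ i * this - x.1 ^ i * m3
    have hDf : Df k b x.1 = Df k b x.2 := by
      unfold Df
      rw [w1, w2]
      congr 1
      apply sum_congr rfl
      intro i hi
      simp only [mem_Ico] at hi
      by_cases hb : b i = 0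
      · rw [hb]; simp
      · rw [hpow i hi.1 hi.2 hb]
    simp only [hv]
    rw [hDf]
  have hreal : ∑ x ∈ (G ×ˢ G).filter (fun x => X x.1 x.2 = (C : ℂ) - 1),
      Complex.normSq (v x.1) = 0 := by
    have e : ∑ x ∈ (G ×ˢ G).filter (fun x => X x.1 x.2 = (C : ℂ) - 1), v x.1 * cj (v x.2) =
        ((∑ x ∈ (G ×ˢ G).filter (fun x => X x.1 x.2 = (C : ℂ) - 1),
          Complex.normSq (v x.1) : ℝ) : ℂ) := by
      push_cast
      apply sum_congr rfl
      intro x hx
      rw [← hveq x hx]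
      exact Complex.mul_conj _
    rw [e] at hl
    exact_mod_cast hl
  have hmem : (a0, a0) ∈ (G ×ˢ G).filter (fun x => X x.1 x.2 = (C : ℂ) - 1) := by
    have haG : a0 ∈ G := by
      rw [hG, mem_filter]
      exact ⟨(mem_Z h.hk).mpr ha0, rfl⟩
    rw [mem_filter, mem_product]
    refine ⟨⟨haG, haG⟩, ?_⟩
    have := hXS a0 haG a0 haG
    rw [show a0 * cj a0 = 1 from mul_conj_root h ha0, S_one h h0] at this
    rw [this]; ring
  have := (sum_eq_zero_iff_of_nonneg (fun x _ => Complex.normSq_nonneg _)).mp hreal (a0, a0) hmem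
  rw [Complex.normSq_eq_zero] at this
  simp only [hv] at this
  exact (inv_ne_zero (h.simple_root a0 ha0)) this

/-- Classification when the constant term vanishes. -/
theorem zero_case {k : ℕ} {b : ℕ → ℝ} {p : ℕ} (h : Data k b p) (h0 : b 0 = 0) :
    ∃ l : ℕ, 1 ≤ l ∧ k = 2 * l ∧ b l = 1 ∧ ∀ i, 1 ≤ i → i < k → i ≠ l → b i = 0 := by
  have hsum : ∑ i ∈ Ico 1 k, b i = 1 := by have := h.sum1; rw [h0, zero_add] at this; exact this
  obtain ⟨i0, hi0, hbi0⟩ : ∃ i ∈ Ico 1 k, b i ≠ 0 := by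
    by_contra hc
    have : ∑ i ∈ Ico 1 k, b i = 0 := by
      apply sum_eq_zero
      intro i hi
      by_contra hb
      exact hc ⟨i, hi, hb⟩
    rw [this] at hsum
    exact zero_ne_one hsum
  simp only [mem_Ico] at hi0
  have hroot : ∀ z, Pf k b z = 0 → z ^ i0 = S k b z := by
    intro z hz
    apply eq_case h h0 z (norm_root h hz) _ i0 hi0.1 hi0.2 hbi0
    rw [S_root hz]
    have h1 := re_eq h h0 z hz
    have h2 : Complex.normSq (1 + z ^ k) = 1 := by
      rw [Complex.normSq_add, Complex.normSq_one, Complex.normSq_eq_norm_sq, norm_pow,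
        norm_root h hz, one_mul, Complex.conj_re, one_pow, one_pow, h1]
      norm_num
    rw [Complex.normSq_eq_norm_sq] at h2
    have h3 := norm_nonneg (1 + z ^ k)
    nlinarith
  have key := coeff_zero h (fun i => if i = 0 then 0 else (b i : ℂ) - (if i = i0 then 1 else 0)) (by
    intro z hz
    have e9 : ∑ i ∈ range k, (if i = 0 then 0 else (b i : ℂ) - (if i = i0 then 1 else 0)) * z ^ i =
        ∑ i ∈ Ico 1 k, ((b i : ℂ) - (if i = i0 then 1 else 0)) * z ^ i := by
      rw [Finset.range_eq_Ico, Finset.sum_eq_sum_Ico_succ_bot (by omega)]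
      simp only [if_true, zero_mul, zero_add]
      apply sum_congr rfl
      intro i hi
      simp only [mem_Ico] at hi
      rw [if_neg (by omega)]
    rw [e9]
    simp only [sub_mul, sum_sub_distrib, ite_mul, one_mul, zero_mul]
    rw [Finset.sum_ite_eq' (Ico 1 k) i0, if_pos (by simp [hi0])]
    rw [hroot z hz]
    unfold S
    ring)
  have hb : ∀ i, 1 ≤ i → i < k → b i = if i = i0 then 1 else 0 := by
    intro i h1 hi
    have := key i hi
    simp only [if_neg (by omega : ¬ i = 0)] at this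
    have e := sub_eq_zero.mp this
    split_ifs at e ⊢ with hc
    · exact_mod_cast e
    · exact_mod_cast e
  have hb1 : b i0 = 1 := by rw [hb i0 hi0.1 hi0.2, if_pos rfl]
  have hpal := palin h i0 hi0.1 hi0.2
  rw [hb1] at hpal
  have h2 := hb (k - i0) (by omega) (by omega)
  rw [← hpal] at h2
  have h3 : k - i0 = i0 := by
    by_contra hc
    rw [if_neg hc] at h2
    exact one_ne_zero h2
  refine ⟨i0, hi0.1, by omega, hb1, ?_⟩
  intro i h1 hi hne
  rw [hb i h1 hi, if_neg hne]

end Pool.Agent.Helper470.ZeroCase
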