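import Pool.Agent.Helper470.PosCase
import Pool.Agent.Helper470.ZeroCase5

set_option autoImplicit false

open Finset

namespace Pool.Agent.Helper470.Reduce

open Pool.Agent.Helper470.Basic Pool.Agent.Helper470.Perturb

/-- the rational function -/
noncomputable def Fr (k : ℕ) (A0 B0 : ℝ) (a c : ℕ → ℝ) (y : ℕ → ℝ) : ℝ :=
  (A0 + ∑ j ∈ range k, a j * y j) / (B0 + ∑ j ∈ range k, c j * y j)

/-- periodicity of the rational recurrence -/
def PerF (k : ℕ) (A0 B0 : ℝ) (a c : ℕ → ℝ) (p : ℕ) : Prop :=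
  ∀ x : ℕ → ℝ, (∀ i, i < k → 0 < x i) →
    (∀ n, x (n + k) = Fr k A0 B0 a c (fun j => x (n + j))) → ∀ n, x (n + p) = x n

theorem lin_pos (k : ℕ) (A0 : ℝ) (a : ℕ → ℝ) (h0 : 0 ≤ A0) (ha : ∀ j, 0 ≤ a j)
    (hs : 0 < A0 + ∑ j ∈ range k, a j) (y : ℕ → ℝ) (hy : ∀ j, j < k → 0 < y j) :
    0 < A0 + ∑ j ∈ range k, a j * y j := by
  have hnn : ∀ j ∈ range k, 0 ≤ a j * y j := fun j hj =>
    mul_nonneg (ha j) (hy j (mem_range.mp hj)).le
  rcases h0.lt_or_eq with h | h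
  · exact add_pos_of_pos_of_nonneg h (sum_nonneg hnn)
  · rw [← h, zero_add] at hs ⊢
    obtain ⟨i, hi, hbi⟩ := exists_lt_of_sum_lt (s := range k) (f := fun _ => (0:ℝ))
      (g := a) (by simpa using hs)
    exact sum_pos' hnn ⟨i, hi, mul_pos hbi (hy i (mem_range.mp hi))⟩

theorem sol (k : ℕ) (hk : 1 ≤ k) (A0 B0 : ℝ) (a c : ℕ → ℝ) (hA0 : 0 ≤ A0) (hB0 : 0 ≤ B0)
    (ha : ∀ j, 0 ≤ a j) (hc : ∀ j, 0 ≤ c j)
    (hAs : 0 < A0 + ∑ j ∈ range k, a j) (hBs : 0 < B0 + ∑ j ∈ range k, c j)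
    (init : ℕ → ℝ) (hinit : ∀ i, i < k → 0 < init i) :
    ∃ x : ℕ → ℝ, (∀ i, i < k → x i = init i) ∧ (∀ n, 0 < x n) ∧
      ∀ n, x (n + k) = Fr k A0 B0 a c (fun j => x (n + j)) := by
  obtain ⟨x, hx, hr⟩ := exists_seq k init (fun _ f => Fr k A0 B0 a c f) (by
    intro n f g hfg
    unfold Fr
    have h1 : ∑ j ∈ range k, a j * f j = ∑ j ∈ range k, a j * g j := by
      apply sum_congr rfl
      intro i hi
      rw [hfg i (mem_range.mp hi)]
    have h2 : ∑ j ∈ range k, c j * f j = ∑ j ∈ range k, c j * g j := by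
      apply sum_congr rfl
      intro i hi
      rw [hfg i (mem_range.mp hi)]
    rw [h1, h2])
  refine ⟨x, hx, ?_, hr⟩
  intro n
  induction n using Nat.strong_induction_on with
  | _ n ih =>
    by_cases hn : n < k
    · rw [hx n hn]; exact hinit n hn
    · obtain ⟨m, rfl⟩ : ∃ m, n = m + k := ⟨n - k, by omega⟩
      rw [hr m]
      unfold Fr
      apply div_pos
      · exact lin_pos k A0 a hA0 ha hAs _ (fun j hj => ih _ (by omega))
      · exact lin_pos k B0 c hB0 hc hBs _ (fun j hj => ih _ (by omega))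

theorem sum_split (k : ℕ) (hk : 1 ≤ k) (f : ℕ → ℝ) :
    ∑ j ∈ range k, f j = f 0 + ∑ j ∈ Ico 1 k, f j := by
  rw [Finset.range_eq_Ico, Finset.sum_eq_sum_Ico_succ_bot (by omega)]

/-- surjectivity in the oldest variable -/
theorem surj (k : ℕ) (hk : 1 ≤ k) (A0 B0 : ℝ) (a c : ℕ → ℝ) (hA0 : 0 ≤ A0) (hB0 : 0 ≤ B0)
    (ha : ∀ j, 0 ≤ a j) (hc : ∀ j, 0 ≤ c j)
    (hAs : 0 < A0 + ∑ j ∈ range k, a j) (hBs : 0 < B0 + ∑ j ∈ range k, c j)
    (p : ℕ) (hp : 1 ≤ p) (hper : PerF k A0 B0 a c p) (y : ℝ) (hy : 0 < y) :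
    ∃ x : ℝ, 0 < x ∧ y * ((B0 + ∑ j ∈ Ico 1 k, c j) + c 0 * x) =
      (A0 + ∑ j ∈ Ico 1 k, a j) + a 0 * x := by
  obtain ⟨z, hz, hpos, hr⟩ := sol k hk A0 B0 a c hA0 hB0 ha hc hAs hBs
    (fun i => if i = k - 1 then y else 1) (by intro i _; beta_reduce; split_ifs <;> positivity)
  have hp2 := hper z (fun i _ => hpos i) hr
  refine ⟨z (p - 1), hpos _, ?_⟩
  have e1 := hr (p - 1)
  have e2 : z (p - 1 + k) = y := by
    rw [show p - 1 + k = (k - 1) + p by omega, hp2, hz (k - 1) (by omega), if_pos rfl]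
  have e3 : ∀ j, 1 ≤ j → j < k → z (p - 1 + j) = 1 := by
    intro j h1 h2
    rw [show p - 1 + j = (j - 1) + p by omega, hp2, hz (j - 1) (by omega), if_neg (by omega)]
  rw [e2] at e1
  unfold Fr at e1
  rw [sum_split k hk (fun j => a j * z (p - 1 + j)),
    sum_split k hk (fun j => c j * z (p - 1 + j))] at e1
  have e4 : ∑ j ∈ Ico 1 k, a j * z (p - 1 + j) = ∑ j ∈ Ico 1 k, a j := by
    apply sum_congr rfl
    intro j hj
    simp only [mem_Ico] at hj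
    rw [e3 j hj.1 hj.2, mul_one]
  have e5 : ∑ j ∈ Ico 1 k, c j * z (p - 1 + j) = ∑ j ∈ Ico 1 k, c j := by
    apply sum_congr rfl
    intro j hj
    simp only [mem_Ico] at hj
    rw [e3 j hj.1 hj.2, mul_one]
  rw [e4, e5, add_zero] at e1
  have hd : 0 < B0 + (c 0 * z (p - 1) + ∑ j ∈ Ico 1 k, c j) := by
    have := lin_pos k B0 c hB0 hc hBs (fun j => z (p - 1 + j)) (fun j _ => hpos _)
    rw [sum_split k hk (fun j => c j * z (p - 1 + j)), e5, add_zero] at this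
    exact this
  rw [eq_div_iff hd.ne'] at e1
  linarith

theorem dicho (a0 c0 P Q : ℝ) (ha : 0 ≤ a0) (hc : 0 ≤ c0) (hP : 0 ≤ P) (hQ : 0 ≤ Q)
    (hne : a0 ^ 2 + c0 ^ 2 ≠ 0)
    (hs : ∀ y : ℝ, 0 < y → ∃ x : ℝ, 0 < x ∧ y * (Q + c0 * x) = P + a0 * x) :
    (c0 = 0 ∧ P = 0 ∧ 0 < a0) ∨ (a0 = 0 ∧ Q = 0 ∧ 0 < c0) := by
  rcases ha.lt_or_eq with h1 | h1 <;> rcases hc.lt_or_eq with h2 | h2
  · exfalso
    have hy : 0 < a0 / c0 := div_pos h1 h2
    obtain ⟨x, hx, e⟩ := hs (a0 / c0) hy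
    have e' : a0 * Q = c0 * P := by
      field_simp at e
      nlinarith
    obtain ⟨x', hx', f⟩ := hs (2 * (a0 / c0)) (by positivity)
    have f' : 2 * a0 * Q + 2 * a0 * c0 * x' = c0 * P + a0 * c0 * x' := by
      field_simp at f
      nlinarith
    have : 0 < a0 * c0 * x' := by positivity
    have : 0 ≤ a0 * Q := by positivity
    nlinarith
  · left
    refine ⟨h2.symm, ?_, h1⟩
    by_contra hPn
    have hP' : 0 < P := lt_of_le_of_ne hP (Ne.symm hPn)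
    rcases hQ.lt_or_eq with h3 | h3
    · obtain ⟨x, hx, e⟩ := hs (P / (2 * Q)) (by positivity)
      rw [← h2] at e
      have e2 : P / (2 * Q) * (Q + 0 * x) = P / 2 := by
        field_simp
        ring
      rw [e2] at e
      have : 0 < a0 * x := by positivity
      linarith
    · obtain ⟨x, hx, e⟩ := hs 1 one_pos
      rw [← h2, ← h3] at e
      have : 0 < a0 * x := by positivity
      linarith
  · right
    refine ⟨h1.symm, ?_, h2⟩
    by_contra hQn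
    have hQ' : 0 < Q := lt_of_le_of_ne hQ (Ne.symm hQn)
    obtain ⟨x, hx, e⟩ := hs ((P + 1) / Q) (by positivity)
    rw [← h1] at e
    have e2 : (P + 1) / Q * (Q + c0 * x) = P + 1 + (P + 1) / Q * (c0 * x) := by
      field_simp
    rw [e2] at e
    have : 0 < (P + 1) / Q * (c0 * x) := by positivity
    linarith
  · exfalso
    apply hne
    rw [← h1, ← h2]
    norm_num

end Pool.Agent.Helper470.Reduce
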