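import Pool.Agent.Helper470.Reduce

set_option autoImplicit false

open Finset

namespace Pool.Agent.Helper470.Reduce

open Pool.Agent.Helper470.Basic Pool.Agent.Helper470.Perturb

theorem sum_zero_of {k : ℕ} {A0 : ℝ} {a : ℕ → ℝ} (h0 : 0 ≤ A0) (ha : ∀ j, 0 ≤ a j)
    (h : A0 + ∑ j ∈ Ico 1 k, a j = 0) : A0 = 0 ∧ ∀ j, 1 ≤ j → j < k → a j = 0 := by
  have hs : 0 ≤ ∑ j ∈ Ico 1 k, a j := sum_nonneg (fun j _ => ha j)
  have h1 : A0 = 0 := by linarith
  have h2 : ∑ j ∈ Ico 1 k, a j = 0 := by linarith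
  refine ⟨h1, fun j hj1 hj2 => ?_⟩
  exact (sum_eq_zero_iff_of_nonneg (fun j _ => ha j)).mp h2 j (by simp [hj1, hj2])

/-- linear-fractional case `x (n+k) = a0 x n / (B0 + ...)` -/
theorem case_one (k : ℕ) (hk : 1 ≤ k) (A0 B0 : ℝ) (a c : ℕ → ℝ) (hA0 : 0 ≤ A0) (hB0 : 0 ≤ B0)
    (ha : ∀ j, 0 ≤ a j) (hc : ∀ j, 0 ≤ c j)
    (hAs : 0 < A0 + ∑ j ∈ range k, a j) (hBs : 0 < B0 + ∑ j ∈ range k, c j)
    (p : ℕ) (hp : 1 ≤ p) (hper : PerF k A0 B0 a c p)
    (hc0 : c 0 = 0) (hP : A0 + ∑ j ∈ Ico 1 k, a j = 0) (ha0 : 0 < a 0) (y : ℕ → ℝ)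
    (hy : ∀ i, 0 < y i) : Fr k A0 B0 a c y = y 0 := by
  obtain ⟨hA, haj⟩ := sum_zero_of hA0 ha hP
  have hnum : ∀ z : ℕ → ℝ, A0 + ∑ j ∈ range k, a j * z j = a 0 * z 0 := by
    intro z
    rw [sum_split k hk (fun j => a j * z j), hA]
    have : ∑ j ∈ Ico 1 k, a j * z j = 0 := by
      apply sum_eq_zero
      intro j hj
      simp only [mem_Ico] at hj
      rw [haj j hj.1 hj.2, zero_mul]
    rw [this]; ring
  have hden : ∀ z : ℕ → ℝ, B0 + ∑ j ∈ range k, c j * z j = B0 + ∑ j ∈ Ico 1 k, c j * z j := by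
    intro z
    rw [sum_split k hk (fun j => c j * z j), hc0]
    ring
  -- all other denominator coefficients vanish
  have hcs : ∑ j ∈ Ico 1 k, c j = 0 := by
    by_contra hne
    have hS0 : 0 ≤ ∑ j ∈ Ico 1 k, c j := sum_nonneg (fun j _ => hc j)
    have hS : 0 < ∑ j ∈ Ico 1 k, c j := lt_of_le_of_ne hS0 (Ne.symm hne)
    obtain ⟨S, hSd⟩ : ∃ S, S = ∑ j ∈ Ico 1 k, c j := ⟨_, rfl⟩
    rw [← hSd] at hS
    obtain ⟨R, hR⟩ : ∃ R, R = 2 * a 0 / S := ⟨_, rfl⟩
    have hR0 : 0 < R := by rw [hR]; positivity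
    have hRS : R * S = 2 * a 0 := by rw [hR]; field_simp
    obtain ⟨x, hx, hpos, hr⟩ := sol k hk A0 B0 a c hA0 hB0 ha hc hAs hBs (fun _ => R)
      (fun _ _ => hR0)
    have hp2 := hper x (fun i _ => hpos i) hr
    -- one step back
    have back : ∀ n, (∀ i, 1 ≤ i → i ≤ k → R ≤ x (n + i)) → 2 * x (n + k) ≤ x n := by
      intro n hn
      have e := hr n
      unfold Fr at e
      rw [hnum, hden] at e
      have hd : R * S ≤ B0 + ∑ j ∈ Ico 1 k, c j * x (n + j) := by
        have : R * S ≤ ∑ j ∈ Ico 1 k, c j * x (n + j) := by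
          rw [hSd, mul_sum]
          apply sum_le_sum
          intro j hj
          simp only [mem_Ico] at hj
          have := hn j hj.1 (by omega)
          have := hc j
          nlinarith
        linarith
      have hdpos : 0 < B0 + ∑ j ∈ Ico 1 k, c j * x (n + j) := by
        have : 0 < R * S := by positivity
        linarith
      rw [eq_div_iff hdpos.ne', add_zero] at e
      have h1 := hpos (n + k)
      have h2 : x (n + k) * (R * S) ≤ a 0 * x n := by
        rw [← e]
        exact mul_le_mul_of_nonneg_left hd h1.le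
      rw [hRS] at h2
      have h3 : a 0 * (2 * x (n + k)) ≤ a 0 * x n := by linarith
      exact le_of_mul_le_mul_left h3 ha0
    have hwin : ∀ d, d ≤ p → ∀ i, i < k → R ≤ x (p - d + i) := by
      intro d
      induction d with
      | zero =>
        intro _ i hi
        rw [Nat.sub_zero, add_comm, hp2, hx i hi]
      | succ d ih =>
        intro hd i hi
        have ih' := ih (by omega)
        rcases Nat.eq_zero_or_pos i with c1 | c1
        · have hb := back (p - (d + 1)) (by
            intro i h1 h2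
            have := ih' (i - 1) (by omega)
            rwa [show p - d + (i - 1) = p - (d + 1) + i by omega] at this)
          have h4 := ih' (k - 1) (by omega)
          rw [show p - d + (k - 1) = p - (d + 1) + k by omega] at h4
          rw [c1, add_zero]
          linarith
        · have := ih' (i - 1) (by omega)
          rwa [show p - d + (i - 1) = p - (d + 1) + i by omega] at this
    have hw := hwin (p - 1) (by omega)
    have hb := back 0 (by
      intro i h1 h2
      have := hw (i - 1) (by omega)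
      rwa [show p - (p - 1) + (i - 1) = 0 + i by omega] at this)
    have h4 := hw (k - 1) (by omega)
    rw [show p - (p - 1) + (k - 1) = 0 + k by omega] at h4
    rw [hx 0 (by omega)] at hb
    linarith
  have hcj : ∀ j, 1 ≤ j → j < k → c j = 0 := by
    intro j hj1 hj2
    exact (sum_eq_zero_iff_of_nonneg (fun j _ => hc j)).mp hcs j (by simp [hj1, hj2])
  have hden2 : ∀ z : ℕ → ℝ, B0 + ∑ j ∈ range k, c j * z j = B0 := by
    intro z
    rw [hden z]
    have : ∑ j ∈ Ico 1 k, c j * z j = 0 := by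
      apply sum_eq_zero
      intro j hj
      simp only [mem_Ico] at hj
      rw [hcj j hj.1 hj.2, zero_mul]
    rw [this]; ring
  have hB : 0 < B0 := by
    rw [sum_split k hk c, hc0, hcs] at hBs
    linarith
  obtain ⟨x, hx, hpos, hr⟩ := sol k hk A0 B0 a c hA0 hB0 ha hc hAs hBs (fun _ => 1)
    (fun _ _ => one_pos)
  have hp2 := hper x (fun i _ => hpos i) hr
  have hstep : ∀ n, x (n + k) = (a 0 / B0) * x n := by
    intro n
    rw [hr n]
    unfold Fr
    rw [hnum, hden2, add_zero]
    ring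
  have hit : ∀ q, x (k * q) = (a 0 / B0) ^ q := by
    intro q
    induction q with
    | zero => rw [mul_zero, hx 0 (by omega), pow_zero]
    | succ q ih => rw [mul_add, mul_one, hstep, ih, pow_succ]; ring
  have hxp : x (k * p) = 1 := by
    have : ∀ q, x (q * p) = 1 := by
      intro q
      induction q with
      | zero => rw [zero_mul, hx 0 (by omega)]
      | succ q ih => rw [add_mul, one_mul, hp2, ih]
    exact this k
  rw [hit p] at hxp
  have hratio : a 0 / B0 = 1 := by
    exact (pow_eq_one_iff_of_nonneg (by positivity) (by omega)).mp hxp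
  unfold Fr
  rw [hnum, hden2]
  have : a 0 = B0 := by
    rw [div_eq_one_iff_eq hB.ne'] at hratio
    exact hratio
  rw [this]
  field_simp

end Pool.Agent.Helper470.Reduce
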