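import Pool.Agent.Helper470.Perturb

set_option autoImplicit false

open Finset

namespace Pool.Agent.Helper470.Roots

open Pool.Agent.Helper470.Basic Pool.Agent.Helper470.Perturb

/-- lower part of the characteristic polynomial -/
noncomputable def Lp (k : ℕ) (b : ℕ → ℝ) : Polynomial ℂ :=
  1 - ∑ i ∈ Ico 1 k, Polynomial.C (b i : ℂ) * Polynomial.X ^ i

/-- the characteristic polynomial -/
noncomputable def Pp (k : ℕ) (b : ℕ → ℝ) : Polynomial ℂ :=
  Polynomial.X ^ k + Lp k b

theorem degree_Lp (k : ℕ) (hk : 1 ≤ k) (b : ℕ → ℝ) : (Lp k b).degree < k := by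
  unfold Lp
  apply lt_of_le_of_lt (Polynomial.degree_sub_le _ _)
  apply max_lt
  · rw [Polynomial.degree_one]
    exact_mod_cast hk
  · apply lt_of_le_of_lt (Polynomial.degree_sum_le _ _)
    rw [Finset.sup_lt_iff (by exact_mod_cast WithBot.bot_lt_coe k)]
    intro i hi
    simp only [mem_Ico] at hi
    apply lt_of_le_of_lt (Polynomial.degree_C_mul_X_pow_le _ _)
    exact_mod_cast hi.2

theorem eval_Pp (k : ℕ) (b : ℕ → ℝ) (z : ℂ) : (Pp k b).eval z = Pf k b z := by
  unfold Pp Lp Pf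
  simp [Polynomial.eval_finsetSum]
  ring

theorem monic_Pp (k : ℕ) (hk : 1 ≤ k) (b : ℕ → ℝ) : (Pp k b).Monic := by
  unfold Pp
  exact Polynomial.monic_X_pow_add (degree_Lp k hk b)

theorem natDegree_Pp (k : ℕ) (hk : 1 ≤ k) (b : ℕ → ℝ) : (Pp k b).natDegree = k := by
  unfold Pp
  apply Polynomial.natDegree_eq_of_degree_eq_some
  rw [Polynomial.degree_add_eq_left_of_degree_lt]
  · exact Polynomial.degree_X_pow k
  · rw [Polynomial.degree_X_pow]; exact degree_Lp k hk b

/-- z P'(z) -/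
noncomputable def Df (k : ℕ) (b : ℕ → ℝ) (z : ℂ) : ℂ :=
  (k : ℂ) * z ^ k - ∑ i ∈ Ico 1 k, (i : ℂ) * (b i : ℂ) * z ^ i

theorem eval_deriv (k : ℕ) (hk : 1 ≤ k) (b : ℕ → ℝ) (z : ℂ) :
    z * (Polynomial.derivative (Pp k b)).eval z = Df k b z := by
  unfold Pp Lp Df
  simp only [Polynomial.derivative_add, Polynomial.derivative_sub, Polynomial.derivative_X_pow,
    Polynomial.derivative_one, Polynomial.derivative_sum, Polynomial.derivative_C_mul,
    Polynomial.eval_add, Polynomial.eval_sub, Polynomial.eval_mul, Polynomial.eval_C,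
    Polynomial.eval_pow, Polynomial.eval_X, Polynomial.eval_finsetSum, Polynomial.eval_zero]
  have e1 : z * ((k : ℂ) * z ^ (k - 1)) = k * z ^ k := by
    obtain ⟨m, rfl⟩ : ∃ m, k = m + 1 := ⟨k - 1, by omega⟩
    rw [Nat.add_sub_cancel, pow_succ]; ring
  have e2 : z * ∑ i ∈ Ico 1 k, (b i : ℂ) * ((i : ℂ) * z ^ (i - 1)) =
      ∑ i ∈ Ico 1 k, (i : ℂ) * (b i : ℂ) * z ^ i := by
    rw [mul_sum]
    apply sum_congr rfl
    intro i hi
    simp only [mem_Ico] at hi
    obtain ⟨m, rfl⟩ : ∃ m, i = m + 1 := ⟨i - 1, by omega⟩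
    rw [Nat.add_sub_cancel, pow_succ]; ring
  linear_combination e1 - e2

/-- the finite set of roots -/
noncomputable def Z (k : ℕ) (b : ℕ → ℝ) : Finset ℂ := (Pp k b).roots.toFinset

theorem mem_Z {k : ℕ} (hk : 1 ≤ k) {b : ℕ → ℝ} {z : ℂ} : z ∈ Z k b ↔ Pf k b z = 0 := by
  unfold Z
  rw [Multiset.mem_toFinset, Polynomial.mem_roots (monic_Pp k hk b).ne_zero, Polynomial.IsRoot,
    eval_Pp]

theorem root_ne_zero {k : ℕ} (hk : 1 ≤ k) {b : ℕ → ℝ} {z : ℂ} (h : Pf k b z = 0) : z ≠ 0 := by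
  rintro rfl
  unfold Pf at h
  rw [zero_pow (by omega)] at h
  have : ∑ i ∈ Ico 1 k, (b i : ℂ) * 0 ^ i = 0 := by
    apply sum_eq_zero
    intro i hi
    simp only [mem_Ico] at hi
    rw [zero_pow (by omega), mul_zero]
  rw [this] at h
  norm_num at h

theorem card_Z {k : ℕ} {b : ℕ → ℝ} {p : ℕ} (h : Data k b p) : (Z k b).card = k := by
  have hnd : (Pp k b).roots.Nodup := by
    rw [Multiset.nodup_iff_count_le_one]
    intro a
    rw [Polynomial.count_roots]
    by_contra hc
    replace hc := not_le.mp hc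
    rw [Polynomial.one_lt_rootMultiplicity_iff_isRoot (monic_Pp k h.hk b).ne_zero] at hc
    obtain ⟨h1, h2⟩ := hc
    rw [Polynomial.IsRoot] at h1 h2
    rw [eval_Pp] at h1
    have h3 := eval_deriv k h.hk b a
    rw [h2, mul_zero] at h3
    exact h.simple_root a h1 h3.symm
  unfold Z
  rw [Multiset.toFinset_card_of_nodup hnd, IsAlgClosed.card_roots_eq_natDegree,
    natDegree_Pp k h.hk]

theorem poly_zero {k : ℕ} {b : ℕ → ℝ} {p : ℕ} (h : Data k b p) (f : Polynomial ℂ)
    (hf : f.degree < k) (he : ∀ z, Pf k b z = 0 → f.eval z = 0) : f = 0 := by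
  apply Polynomial.eq_zero_of_degree_lt_of_eval_finset_eq_zero (Z k b)
  · rw [card_Z h]; exact hf
  · intro z hz
    exact he z ((mem_Z h.hk).mp hz)

theorem coeff_zero {k : ℕ} {b : ℕ → ℝ} {p : ℕ} (h : Data k b p) (c : ℕ → ℂ)
    (he : ∀ z, Pf k b z = 0 → ∑ i ∈ range k, c i * z ^ i = 0) (i : ℕ) (hi : i < k) :
    c i = 0 := by
  have h1 : (∑ i ∈ range k, Polynomial.C (c i) * Polynomial.X ^ i : Polynomial ℂ) = 0 := by
    apply poly_zero h
    · apply lt_of_le_of_lt (Polynomial.degree_sum_le _ _)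
      rw [Finset.sup_lt_iff (by exact_mod_cast WithBot.bot_lt_coe k)]
      intro i hi
      simp only [mem_range] at hi
      apply lt_of_le_of_lt (Polynomial.degree_C_mul_X_pow_le _ _)
      exact_mod_cast hi
    · intro z hz
      have := he z hz
      simpa [Polynomial.eval_finsetSum] using this
  have h2 := congrArg (fun q => Polynomial.coeff q i) h1
  simp only [Polynomial.finsetSum_coeff, Polynomial.coeff_C_mul, Polynomial.coeff_X_pow,
    Polynomial.coeff_zero] at h2
  simpa [hi] using h2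

theorem nodal_eq {k : ℕ} {b : ℕ → ℝ} {p : ℕ} (h : Data k b p) :
    Lagrange.nodal (Z k b) id = Pp k b := by
  have h1 : Lagrange.nodal (Z k b) id - Pp k b = 0 := by
    apply poly_zero h
    · have hd : (Lagrange.nodal (Z k b) id).degree = k := by
        rw [Lagrange.degree_nodal, card_Z h]
      have hd' : (Pp k b).degree = k := by
        rw [Polynomial.degree_eq_natDegree (monic_Pp k h.hk b).ne_zero, natDegree_Pp k h.hk]
      rw [← hd]
      apply Polynomial.degree_sub_lt_left (by rw [hd, hd'])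
      · exact (Lagrange.nodal_monic).ne_zero
      · rw [Lagrange.nodal_monic, monic_Pp k h.hk b]
    · intro z hz
      rw [Polynomial.eval_sub, eval_Pp, hz, sub_zero]
      have : z = id z := rfl
      rw [this]
      exact Lagrange.eval_nodal_at_node ((mem_Z h.hk).mpr hz)
  exact sub_eq_zero.mp h1

/-- Lagrange weights identity -/
theorem lagrange {k : ℕ} {b : ℕ → ℝ} {p : ℕ} (h : Data k b p) (j : ℕ) (h1 : 1 ≤ j)
    (hj : j < k) : ∑ z ∈ Z k b, (Df k b z)⁻¹ * z ^ j = 0 := by
  have hinj : Set.InjOn (id : ℂ → ℂ) (Z k b) := Set.injOn_id _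
  have hdeg : (Polynomial.X ^ (j - 1) : Polynomial ℂ).degree < (Z k b).card := by
    rw [Polynomial.degree_X_pow, card_Z h]
    exact_mod_cast (by omega : j - 1 < k)
  have e := Lagrange.coeff_eq_sum (s := Z k b) (v := (id : ℂ → ℂ)) hinj hdeg
  rw [Polynomial.coeff_X_pow, card_Z h, if_neg (by omega)] at e
  rw [e]
  apply sum_congr rfl
  intro z hz
  have hz' := (mem_Z h.hk).mp hz
  have hz0 := root_ne_zero h.hk hz'
  have e2 : ∏ y ∈ (Z k b).erase z, (id z - id y) =
      (Polynomial.derivative (Pp k b)).eval z := by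
    rw [← nodal_eq h]
    have := Lagrange.eval_nodal_derivative_eval_node_eq (s := Z k b) (v := (id : ℂ → ℂ)) hz
    simp only [id] at this ⊢
    rw [this, Lagrange.eval_nodal]
    rfl
  have e3 := eval_deriv k h.hk b z
  have e4 : Df k b z ≠ 0 := h.simple_root z hz'
  rw [e2]
  have e5 : (Polynomial.derivative (Pp k b)).eval z ≠ 0 := by
    intro h0
    rw [h0, mul_zero] at e3
    exact e4 e3.symm
  rw [← e3, Polynomial.eval_pow, Polynomial.eval_X]
  simp only [id]
  obtain ⟨m, rfl⟩ : ∃ m, j = m + 1 := ⟨j - 1, by omega⟩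
  rw [Nat.add_sub_cancel, pow_succ]
  field_simp

theorem norm_root {k : ℕ} {b : ℕ → ℝ} {p : ℕ} (h : Data k b p) {z : ℂ}
    (hz : Pf k b z = 0) : ‖z‖ = 1 := by
  have := h.root_pow z hz
  exact Complex.norm_eq_one_of_pow_eq_one this (by have := h.hp; omega)

theorem mul_conj_root {k : ℕ} {b : ℕ → ℝ} {p : ℕ} (h : Data k b p) {z : ℂ}
    (hz : Pf k b z = 0) : z * (starRingEnd ℂ) z = 1 := by
  rw [Complex.mul_conj, Complex.normSq_eq_norm_sq, norm_root h hz]
  norm_num

theorem conj_Pf (k : ℕ) (b : ℕ → ℝ) (z : ℂ) :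
    Pf k b ((starRingEnd ℂ) z) = (starRingEnd ℂ) (Pf k b z) := by
  unfold Pf
  simp only [map_sub, map_add, map_pow, map_one, map_sum, map_mul, Complex.conj_ofReal]

theorem conj_root {k : ℕ} {b : ℕ → ℝ} {z : ℂ} (hz : Pf k b z = 0) :
    Pf k b ((starRingEnd ℂ) z) = 0 := by
  rw [conj_Pf, hz, map_zero]

/-- the recurrence is palindromic -/
theorem palin {k : ℕ} {b : ℕ → ℝ} {p : ℕ} (h : Data k b p) (i : ℕ) (h1 : 1 ≤ i)
    (hi : i < k) : b i = b (k - i) := by
  have key := coeff_zero h (fun i => if i = 0 then 0 else (b i : ℂ) - (b (k - i) : ℂ)) (by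
    intro z hz
    have hc := conj_root hz
    have hm := mul_conj_root h hz
    have hz0 := root_ne_zero h.hk hz
    set y := (starRingEnd ℂ) z with hy
    have e1 : ∑ i ∈ Ico 1 k, (b i : ℂ) * z ^ (k - i) = z ^ k + 1 := by
      have e2 : z ^ k * Pf k b y = 1 + z ^ k - ∑ i ∈ Ico 1 k, (b i : ℂ) * z ^ (k - i) := by
        unfold Pf
        have e3 : z ^ k * y ^ k = 1 := by rw [← mul_pow, hm, one_pow]
        have e4 : z ^ k * ∑ i ∈ Ico 1 k, (b i : ℂ) * y ^ i =
            ∑ i ∈ Ico 1 k, (b i : ℂ) * z ^ (k - i) := by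
          rw [mul_sum]
          apply sum_congr rfl
          intro i hi
          simp only [mem_Ico] at hi
          have e5 : z ^ k = z ^ (k - i) * z ^ i := by
            rw [← pow_add]; congr 1; omega
          have e6 : z ^ i * y ^ i = 1 := by rw [← mul_pow, hm, one_pow]
          rw [e5]
          linear_combination (b i : ℂ) * z ^ (k - i) * e6
        linear_combination e3 - e4
      rw [hc, mul_zero] at e2
      linear_combination e2
    have e7 : ∑ i ∈ Ico 1 k, (b i : ℂ) * z ^ (k - i) =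
        ∑ i ∈ Ico 1 k, (b (k - i) : ℂ) * z ^ i := by
      have := Finset.sum_Ico_reflect (fun i => (b (k - i) : ℂ) * z ^ i) 1 (m := k) (n := k)
        (by omega)
      rw [show k + 1 - k = 1 by omega, show k + 1 - 1 = k by omega] at this
      rw [← this]
      apply sum_congr rfl
      intro i hi
      simp only [mem_Ico] at hi
      rw [show k - (k - i) = i by omega]
    have e8 := Pf_zero hz
    have e9 : ∑ i ∈ range k, (if i = 0 then 0 else (b i : ℂ) - (b (k - i) : ℂ)) * z ^ i =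
        ∑ i ∈ Ico 1 k, ((b i : ℂ) - (b (k - i) : ℂ)) * z ^ i := by
      rw [Finset.range_eq_Ico, Finset.sum_eq_sum_Ico_succ_bot (by omega)]
      simp only [if_true, zero_mul, zero_add]
      apply sum_congr rfl
      intro i hi
      simp only [mem_Ico] at hi
      rw [if_neg (by omega)]
    rw [e9]
    simp only [sub_mul, sum_sub_distrib]
    rw [e8, ← e7, e1]
    ring) i hi
  simp only [if_neg (by omega : ¬ i = 0)] at key
  have := sub_eq_zero.mp key
  exact_mod_cast this

end Pool.Agent.Helper470.Roots
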