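import Pool.Agent.Helper470.Roots

set_option autoImplicit false

open Finset

namespace Pool.Agent.Helper470.Trop

open Pool.Agent.Helper470.Basic Pool.Agent.Helper470.Perturb

/-- the max-plus recurrence at one place -/
def TropAt (k : ℕ) (I : ℕ → Prop) (u : ℕ → ℤ) (n : ℕ) : Prop :=
  0 ≤ u (n + k) + u n ∧ (∀ i, I i → u (n + i) ≤ u (n + k) + u n) ∧
    (u (n + k) + u n = 0 ∨ ∃ i, I i ∧ u (n + i) = u (n + k) + u n)

/-- global periodicity of the max-plus recurrence -/
def PerTrop (k : ℕ) (I : ℕ → Prop) (p : ℕ) : Prop :=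
  ∀ u : ℕ → ℤ, (∀ n, TropAt k I u n) → ∀ n, u (n + p) = u n

/-- the support -/
def Su (k : ℕ) (b : ℕ → ℝ) (i : ℕ) : Prop := 1 ≤ i ∧ i < k ∧ b i ≠ 0

theorem bounds {k : ℕ} {b : ℕ → ℝ} {p : ℕ} (h : Data k b p) (hb0 : 0 < b 0) (u : ℕ → ℤ)
    (hu : ∀ n, TropAt k (Su k b) u n) (n : ℕ) :
    ∃ C : ℝ, 1 ≤ C ∧ ∀ t : ℝ, 1 ≤ t → ∀ x : ℕ → ℝ, (∀ n, 0 < x n) → Rec k b x →
      (∀ i, i < k → x i = t ^ (u i)) → x n ≤ C * t ^ (u n) ∧ t ^ (u n) ≤ C * x n := by
  induction n using Nat.strong_induction_on with
  | _ n ih =>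
    by_cases hn : n < k
    · refine ⟨1, le_refl _, fun t _ x _ _ hi => ?_⟩
      rw [hi n hn]
      simp
    · obtain ⟨m, rfl⟩ : ∃ m, n = m + k := ⟨n - k, by omega⟩
      have hk := h.hk
      choose! C hC1 hC using ih
      set K : ℝ := 1 + ∑ j ∈ range (m + k), C j with hK
      have hKj : ∀ j, j < m + k → C j ≤ K := by
        intro j hj
        have h1 : C j ≤ ∑ j ∈ range (m + k), C j := by
          apply single_le_sum (f := C) _ (mem_range.mpr hj)
          intro i hi
          have := hC1 i (mem_range.mp hi)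
          linarith
        linarith
      have hK1 : 1 ≤ K := by
        have : 0 ≤ ∑ j ∈ range (m + k), C j := by
          apply sum_nonneg
          intro i hi
          have := hC1 i (mem_range.mp hi)
          linarith
        linarith
      obtain ⟨hc0, hcle, hceq⟩ := hu m
      set c := u (m + k) + u m with hc
      -- lower constant
      obtain ⟨β, hβ, hlow⟩ : ∃ β : ℝ, 0 < β ∧ ∀ t : ℝ, 1 ≤ t → ∀ x : ℕ → ℝ, (∀ n, 0 < x n) →
          Rec k b x → (∀ i, i < k → x i = t ^ (u i)) →
          β * t ^ c ≤ x (m + k) * x m := by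
        rcases hceq with h0 | ⟨i, hi, hui⟩
        · refine ⟨b 0, hb0, fun t ht x hx hr _ => ?_⟩
          rw [h0, hr m]
          simp only [zpow_zero, smul_eq_mul, mul_one]
          have : 0 ≤ ∑ i ∈ Ico 1 k, b i * x (m + i) :=
            sum_nonneg (fun i _ => mul_nonneg (h.nn i) (hx _).le)
          linarith
        · obtain ⟨hi1, hi2, hi3⟩ := hi
          have hbi : 0 < b i := lt_of_le_of_ne (h.nn i) (Ne.symm hi3)
          refine ⟨b i / K, div_pos hbi (by linarith), fun t ht x hx hr hin => ?_⟩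
          rw [hr m]
          simp only [smul_eq_mul, mul_one]
          have h1 : b i * x (m + i) ≤ ∑ i ∈ Ico 1 k, b i * x (m + i) :=
            single_le_sum (f := fun i => b i * x (m + i))
              (fun i _ => mul_nonneg (h.nn i) (hx _).le) (by simp [hi1, hi2])
          have h2 := (hC (m + i) (by omega) t ht x hx hr hin).2
          rw [hui] at h2
          have h3 : t ^ c ≤ K * x (m + i) :=
            h2.trans (mul_le_mul_of_nonneg_right (hKj _ (by omega)) (hx _).le)
          have h4 : b i / K * t ^ c ≤ b i * x (m + i) := by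
            rw [div_mul_eq_mul_div, div_le_iff₀ (by linarith)]
            nlinarith
          linarith
      refine ⟨K ^ 2 + K / β, ?_, fun t ht x hx hr hin => ?_⟩
      · have : 0 < K / β := div_pos (by linarith) hβ
        nlinarith
      · have ht0 : 0 < t := by linarith
        have hxm := hx m
        have hxk := hx (m + k)
        have b1 := hC m (by omega) t ht x hx hr hin
        have hup : x (m + k) * x m ≤ K * t ^ c := by
          rw [hr m]
          simp only [smul_eq_mul, mul_one]
          have htc : 1 ≤ t ^ c := one_le_zpow₀ ht hc0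
          have hs : ∑ i ∈ Ico 1 k, b i * x (m + i) ≤ ∑ i ∈ Ico 1 k, b i * (K * t ^ c) := by
            apply sum_le_sum
            intro i hi
            simp only [mem_Ico] at hi
            by_cases hbi : b i = 0
            · rw [hbi]; simp
            · apply mul_le_mul_of_nonneg_left _ (h.nn i)
              have h1 := (hC (m + i) (by omega) t ht x hx hr hin).1
              have h2 : t ^ (u (m + i)) ≤ t ^ c :=
                zpow_le_zpow_right₀ ht (hcle i ⟨hi.1, hi.2, hbi⟩)
              have h3 : C (m + i) ≤ K := hKj _ (by omega)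
              have h4 : 0 < t ^ (u (m + i)) := zpow_pos ht0 _
              have h5 := hC1 (m + i) (by omega)
              calc x (m + i) ≤ C (m + i) * t ^ (u (m + i)) := h1
                _ ≤ K * t ^ (u (m + i)) := mul_le_mul_of_nonneg_right h3 h4.le
                _ ≤ K * t ^ c := mul_le_mul_of_nonneg_left h2 (by linarith)
          rw [← sum_mul] at hs
          have h6 : b 0 ≤ b 0 * (K * t ^ c) := by
            have : 1 ≤ K * t ^ c := by nlinarith
            nlinarith
          have h7 : b 0 * (K * t ^ c) + (∑ i ∈ Ico 1 k, b i) * (K * t ^ c) = K * t ^ c := by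
            rw [← add_mul, h.sum1, one_mul]
          linarith
        have hl := hlow t ht x hx hr hin
        have hum : 0 < t ^ (u m) := zpow_pos ht0 _
        have huk : 0 < t ^ (u (m + k)) := zpow_pos ht0 _
        have hsplit : t ^ c = t ^ (u (m + k)) * t ^ (u m) := by
          rw [hc, zpow_add₀ ht0.ne']
        have hKm : t ^ (u m) ≤ K * x m :=
          b1.2.trans (mul_le_mul_of_nonneg_right (hKj _ (by omega)) hxm.le)
        have hKm' : x m ≤ K * t ^ (u m) :=
          b1.1.trans (mul_le_mul_of_nonneg_right (hKj _ (by omega)) hum.le)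
        rw [hsplit] at hup hl
        constructor
        · have h1 : x (m + k) * x m ≤ (K ^ 2 * t ^ (u (m + k))) * x m := by
            calc x (m + k) * x m ≤ K * (t ^ (u (m + k)) * t ^ (u m)) := hup
              _ ≤ K * (t ^ (u (m + k)) * (K * x m)) := by
                  apply mul_le_mul_of_nonneg_left _ (by linarith)
                  apply mul_le_mul_of_nonneg_left hKm huk.le
              _ = (K ^ 2 * t ^ (u (m + k))) * x m := by ring
          have h2 : x (m + k) ≤ K ^ 2 * t ^ (u (m + k)) := le_of_mul_le_mul_right h1 hxm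
          have h3 : 0 < K / β := div_pos (by linarith) hβ
          nlinarith
        · have h1 : t ^ (u (m + k)) * t ^ (u m) ≤ (K / β * x (m + k)) * t ^ (u m) := by
            have e : t ^ (u (m + k)) * t ^ (u m) = (β * (t ^ (u (m + k)) * t ^ (u m))) / β := by
              field_simp
            rw [e, div_le_iff₀ hβ]
            calc β * (t ^ (u (m + k)) * t ^ (u m)) ≤ x (m + k) * x m := hl
              _ ≤ x (m + k) * (K * t ^ (u m)) := mul_le_mul_of_nonneg_left hKm' hxk.le
              _ = K / β * x (m + k) * t ^ (u m) * β := by field_simp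
          have h2 : t ^ (u (m + k)) ≤ K / β * x (m + k) := le_of_mul_le_mul_right h1 hum
          have h3 : 0 ≤ K ^ 2 * x (m + k) := by positivity
          linarith [add_mul (K ^ 2) (K / β) (x (m + k))]

theorem growth {a c : ℤ} {C : ℝ} (h : ∀ t : ℝ, 1 ≤ t → t ^ a ≤ C * t ^ c) : a ≤ c := by
  by_contra hc
  have hc' : c + 1 ≤ a := by omega
  set t : ℝ := |C| + 2 with ht
  have h1 : 1 ≤ t := by have := abs_nonneg C; linarith
  have h0 : 0 < t := by linarith
  have h2 := h t h1
  have h3 : t ^ (c + 1) ≤ t ^ a := zpow_le_zpow_right₀ h1 hc'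
  rw [zpow_add_one₀ h0.ne'] at h3
  have h4 : 0 < t ^ c := zpow_pos h0 c
  have h5 : t ^ c * t ≤ t ^ c * C := by linarith
  have h6 : t ≤ C := le_of_mul_le_mul_left h5 h4
  have h7 := le_abs_self C
  linarith

theorem perTrop {k : ℕ} {b : ℕ → ℝ} {p : ℕ} (h : Data k b p) (hb0 : 0 < b 0) :
    PerTrop k (Su k b) p := by
  intro u hu n
  obtain ⟨C1, hC1, h1⟩ := bounds h hb0 u hu n
  obtain ⟨C2, hC2, h2⟩ := bounds h hb0 u hu (n + p)
  have hex : ∀ t : ℝ, 1 ≤ t → ∃ x : ℕ → ℝ, (∀ i, i < k → x i = t ^ (u i)) ∧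
      (∀ n, 0 < x n) ∧ Rec k b x := by
    intro t ht
    exact exists_pos k h.hk b h.nn (by rw [h.sum1]; norm_num) (fun i => t ^ (u i))
      (fun i _ => zpow_pos (by linarith) _)
  apply le_antisymm
  · apply growth (C := C2 * C1)
    intro t ht
    obtain ⟨x, hi, hx, hr⟩ := hex t ht
    have a1 := (h1 t ht x hx hr hi).1
    have a2 := (h2 t ht x hx hr hi).2
    rw [h.per x hx hr n] at a2
    calc t ^ (u (n + p)) ≤ C2 * x n := a2
      _ ≤ C2 * (C1 * t ^ (u n)) := mul_le_mul_of_nonneg_left a1 (by linarith)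
      _ = C2 * C1 * t ^ (u n) := by ring
  · apply growth (C := C1 * C2)
    intro t ht
    obtain ⟨x, hi, hx, hr⟩ := hex t ht
    have a1 := (h1 t ht x hx hr hi).2
    have a2 := (h2 t ht x hx hr hi).1
    rw [h.per x hx hr n] at a2
    calc t ^ (u n) ≤ C1 * x n := a1
      _ ≤ C1 * (C2 * t ^ (u (n + p))) := mul_le_mul_of_nonneg_left a2 (by linarith)
      _ = C1 * C2 * t ^ (u (n + p)) := by ring

theorem exists_max (S : Finset ℕ) (f : ℕ → ℤ) :
    ∃ c : ℤ, 0 ≤ c ∧ (∀ i ∈ S, f i ≤ c) ∧ (c = 0 ∨ ∃ i ∈ S, f i = c) := by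
  classical
  induction S using Finset.induction_on with
  | empty => exact ⟨0, le_refl _, by simp, Or.inl rfl⟩
  | insert a S ha ih =>
    obtain ⟨c, h0, h1, h2⟩ := ih
    by_cases hac : f a ≤ c
    · refine ⟨c, h0, ?_, ?_⟩
      · intro i hi
        rcases mem_insert.mp hi with h | h
        · rw [h]; exact hac
        · exact h1 i h
      · rcases h2 with h | ⟨i, hi, h⟩
        · exact Or.inl h
        · exact Or.inr ⟨i, mem_insert_of_mem hi, h⟩
    · have hac' : c < f a := not_le.mp hac
      refine ⟨f a, by omega, ?_, Or.inr ⟨a, mem_insert_self _ _, rfl⟩⟩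
      intro i hi
      rcases mem_insert.mp hi with h | h
      · rw [h]
      · exact (h1 i h).trans hac'.le

/-- existence of max-plus solutions -/
theorem exists_trop (k : ℕ) (hk : 1 ≤ k) (I : ℕ → Prop) (hI : ∀ i, I i → i < k)
    (init : ℕ → ℤ) : ∃ u : ℕ → ℤ, (∀ i, i < k → u i = init i) ∧ ∀ n, TropAt k I u n := by
  classical
  choose c h0 h1 h2 using exists_max ((range k).filter I)
  have huniq : ∀ f g : ℕ → ℤ, (∀ i, i < k → f i = g i) → c f ≤ c g := by
    intro f g hfg
    rcases h2 f with h | ⟨i, hi, h⟩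
    · rw [h]; exact h0 g
    · rw [← h, hfg i (mem_range.mp (mem_filter.mp hi).1)]
      exact h1 g i hi
  obtain ⟨u, hu1, hu2⟩ := exists_seq k init (fun _ f => c f - f 0) (by
    intro n f g hfg
    have := le_antisymm (huniq f g hfg) (huniq g f (fun i hi => (hfg i hi).symm))
    simp only [this, hfg 0 (by omega)])
  refine ⟨u, hu1, fun n => ?_⟩
  have e : u (n + k) + u n = c (fun i => u (n + i)) := by
    rw [hu2 n]
    simp
  refine ⟨by rw [e]; exact h0 _, ?_, ?_⟩
  · intro i hi
    rw [e]
    exact h1 (fun i => u (n + i)) i (mem_filter.mpr ⟨mem_range.mpr (hI i hi), hi⟩)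
  · rw [e]
    rcases h2 (fun i => u (n + i)) with h | ⟨i, hi, h⟩
    · exact Or.inl h
    · exact Or.inr ⟨i, (mem_filter.mp hi).2, h⟩

/-- determinism -/
theorem trop_step {k : ℕ} {I : ℕ → Prop} {u : ℕ → ℤ} {n : ℕ} (h : TropAt k I u n) (c : ℤ)
    (h0 : 0 ≤ c) (h1 : ∀ i, I i → u (n + i) ≤ c) (h2 : c = 0 ∨ ∃ i, I i ∧ u (n + i) = c) :
    u (n + k) + u n = c := by
  obtain ⟨a0, a1, a2⟩ := h
  apply le_antisymm
  · rcases a2 with h | ⟨i, hi, h⟩
    · rw [h]; exact h0
    · rw [← h]; exact h1 i hi
  · rcases h2 with h | ⟨i, hi, h⟩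
    · rw [h]; exact a0
    · rw [← h]; exact a1 i hi

/-- block principle: an explicit pattern satisfying the rule on a block is followed. -/
theorem block {k : ℕ} {I : ℕ → Prop} (hI : ∀ i, I i → i < k) (hk : 1 ≤ k) (u : ℕ → ℤ)
    (hu : ∀ n, TropAt k I u n) (N q : ℕ) (E : ℕ → ℤ) (hE : ∀ n, n < q → TropAt k I E n)
    (hinit : ∀ j, j < k → u (N + j) = E j) (j : ℕ) (hj : j < q + k) : u (N + j) = E j := by
  induction j using Nat.strong_induction_on with
  | _ j ih =>
    by_cases hjk : j < k
    · exact hinit j hjk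
    · obtain ⟨n, rfl⟩ : ∃ n, j = n + k := ⟨j - k, by omega⟩
      obtain ⟨e0, e1, e2⟩ := hE n (by omega)
      have hn : u (N + n) = E n := ih n (by omega) (by omega)
      have key := trop_step (hu (N + n)) (E (n + k) + E n) e0 (by
        intro i hi
        have := hI i hi
        rw [add_assoc, ih (n + i) (by omega) (by omega)]
        exact e1 i hi) (by
        rcases e2 with h | ⟨i, hi, h⟩
        · exact Or.inl h
        · refine Or.inr ⟨i, hi, ?_⟩
          have := hI i hi
          rw [add_assoc, ih (n + i) (by omega) (by omega)]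
          exact h)
      rw [← add_assoc]
      linarith

end Pool.Agent.Helper470.Trop
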