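import Pool.Agent.Helper470.Roots

set_option autoImplicit false

open Finset

namespace Pool.Agent.Helper470.ZeroCase

open Pool.Agent.Helper470.Basic Pool.Agent.Helper470.Perturb Pool.Agent.Helper470.Roots

/-- the linear part -/
noncomputable def S (k : ℕ) (b : ℕ → ℝ) (z : ℂ) : ℂ := ∑ i ∈ Ico 1 k, (b i : ℂ) * z ^ i

theorem Pf_eq (k : ℕ) (b : ℕ → ℝ) (z : ℂ) : Pf k b z = z ^ k + 1 - S k b z := rfl

theorem conj_S (k : ℕ) (b : ℕ → ℝ) (z : ℂ) :
    S k b ((starRingEnd ℂ) z) = (starRingEnd ℂ) (S k b z) := by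
  unfold S
  simp only [map_sum, map_mul, map_pow, Complex.conj_ofReal]

theorem S_root {k : ℕ} {b : ℕ → ℝ} {z : ℂ} (h : Pf k b z = 0) : S k b z = 1 + z ^ k := by
  rw [Pf_eq] at h
  linear_combination -h

theorem S_palin {k : ℕ} {b : ℕ → ℝ} {p : ℕ} (h : Data k b p) (z y : ℂ) (hzy : z * y = 1) :
    z ^ k * S k b y = S k b z := by
  unfold S
  have e7 : ∑ i ∈ Ico 1 k, (b i : ℂ) * z ^ (k - i) =
      ∑ i ∈ Ico 1 k, (b (k - i) : ℂ) * z ^ i := by
    have := Finset.sum_Ico_reflect (fun i => (b (k - i) : ℂ) * z ^ i) 1 (m := k) (n := k)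
      (by omega)
    rw [show k + 1 - k = 1 by omega, show k + 1 - 1 = k by omega] at this
    rw [← this]
    apply sum_congr rfl
    intro i hi
    simp only [mem_Ico] at hi
    rw [show k - (k - i) = i by omega]
  have e8 : ∑ i ∈ Ico 1 k, (b (k - i) : ℂ) * z ^ i = ∑ i ∈ Ico 1 k, (b i : ℂ) * z ^ i := by
    apply sum_congr rfl
    intro i hi
    simp only [mem_Ico] at hi
    rw [← palin h i hi.1 hi.2]
  rw [← e8, ← e7, mul_sum]
  apply sum_congr rfl
  intro i hi
  simp only [mem_Ico] at hi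
  have e5 : z ^ k = z ^ (k - i) * z ^ i := by
    rw [← pow_add]; congr 1; omega
  have e6 : z ^ i * y ^ i = 1 := by rw [← mul_pow, hzy, one_pow]
  rw [e5]
  linear_combination (b i : ℂ) * z ^ (k - i) * e6

theorem P_palin {k : ℕ} {b : ℕ → ℝ} {p : ℕ} (h : Data k b p) (z y : ℂ) (hzy : z * y = 1) :
    z ^ k * Pf k b y = Pf k b z := by
  rw [Pf_eq, Pf_eq]
  have h1 := S_palin h z y hzy
  have e6 : z ^ k * y ^ k = 1 := by rw [← mul_pow, hzy, one_pow]
  linear_combination e6 - h1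

theorem norm_S_le {k : ℕ} {b : ℕ → ℝ} {p : ℕ} (h : Data k b p) (z : ℂ) (hz : ‖z‖ = 1) :
    ‖S k b z‖ ≤ 1 - b 0 := by
  unfold S
  calc ‖∑ i ∈ Ico 1 k, (b i : ℂ) * z ^ i‖ ≤ ∑ i ∈ Ico 1 k, ‖(b i : ℂ) * z ^ i‖ :=
        norm_sum_le _ _
    _ = ∑ i ∈ Ico 1 k, b i := by
        apply sum_congr rfl
        intro i _
        rw [norm_mul, norm_pow, hz, one_pow, mul_one, Complex.norm_real, Real.norm_eq_abs,
          abs_of_nonneg (h.nn i)]
    _ = 1 - b 0 := by linarith [h.sum1]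

/-- equality case -/
theorem eq_case {k : ℕ} {b : ℕ → ℝ} {p : ℕ} (h : Data k b p) (h0 : b 0 = 0) (z : ℂ)
    (hz : ‖z‖ = 1) (hs : ‖S k b z‖ = 1) (i : ℕ) (h1 : 1 ≤ i) (hi : i < k) (hb : b i ≠ 0) :
    z ^ i = S k b z := by
  set s := S k b z with hsdef
  have hsum : ∑ i ∈ Ico 1 k, b i = 1 := by have := h.sum1; rw [h0, zero_add] at this; exact this
  have key : ∑ i ∈ Ico 1 k, b i * Complex.normSq (z ^ i - s) = 0 := by
    have e1 : ∀ i, Complex.normSq (z ^ i - s) = 2 - 2 * (z ^ i * (starRingEnd ℂ) s).re := by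
      intro i
      rw [Complex.normSq_sub, Complex.normSq_eq_norm_sq, Complex.normSq_eq_norm_sq, norm_pow, hz,
        hs]
      ring
    have e2 : ∑ i ∈ Ico 1 k, b i * Complex.normSq (z ^ i - s) =
        2 * ∑ i ∈ Ico 1 k, b i - 2 * (s * (starRingEnd ℂ) s).re := by
      have e3 : (s * (starRingEnd ℂ) s).re =
          ∑ i ∈ Ico 1 k, b i * (z ^ i * (starRingEnd ℂ) s).re := by
        have : s * (starRingEnd ℂ) s =
            ∑ i ∈ Ico 1 k, (b i : ℂ) * (z ^ i * (starRingEnd ℂ) s) := by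
          conv_lhs => rw [hsdef]
          unfold S
          rw [sum_mul]
          apply sum_congr rfl
          intro i _
          rw [mul_assoc]
          rfl
        rw [this, Complex.re_sum]
        apply sum_congr rfl
        intro i _
        rw [Complex.re_ofReal_mul]
      rw [e3, mul_sum, mul_sum, ← sum_sub_distrib]
      apply sum_congr rfl
      intro i _
      rw [e1]; ring
    rw [e2, hsum, Complex.mul_conj, Complex.normSq_eq_norm_sq, hs]
    norm_num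
  have h2 := (sum_eq_zero_iff_of_nonneg (fun i _ => mul_nonneg (h.nn i)
    (Complex.normSq_nonneg _))).mp key i (by simp [h1, hi])
  rcases mul_eq_zero.mp h2 with h3 | h3
  · exact absurd h3 hb
  · exact sub_eq_zero.mp (Complex.normSq_eq_zero.mp h3)

theorem re_w {k : ℕ} {b : ℕ → ℝ} {p : ℕ} (h : Data k b p) (z : ℂ)
    (hz : Pf k b z = 0) : (z ^ k).re ≤ -1 / 2 := by
  have h1 := norm_S_le h z (norm_root h hz)
  rw [S_root hz] at h1
  have h2 : Complex.normSq (1 + z ^ k) ≤ 1 := by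
    rw [Complex.normSq_eq_norm_sq]
    have := norm_nonneg (1 + z ^ k)
    have h3 := h.nn 0
    nlinarith
  rw [Complex.normSq_add, Complex.normSq_one, Complex.normSq_eq_norm_sq, norm_pow,
    norm_root h hz, one_mul, Complex.conj_re, one_pow, one_pow] at h2
  linarith

theorem nores {k : ℕ} {b : ℕ → ℝ} {p : ℕ} (h : Data k b p) (x y : ℂ)
    (hx : Pf k b x = 0) (hy : Pf k b y = 0) : Pf k b (x * y) ≠ 0 := by
  intro hxy
  have h1 := h.Q2 x y hx hy hxy
  have h2 := re_w h x hx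
  have h3 := re_w h y hy
  have h4 := congrArg Complex.re h1
  rw [Complex.add_re, Complex.zero_re] at h4
  linarith

theorem w_ne_one {k : ℕ} {b : ℕ → ℝ} {p : ℕ} (h : Data k b p) (z : ℂ)
    (hz : Pf k b z = 0) : z ^ k ≠ 1 := by
  intro h1
  have := re_w h z hz
  rw [h1, Complex.one_re] at this
  norm_num at this

theorem Pf_one {k : ℕ} {b : ℕ → ℝ} {p : ℕ} (h : Data k b p) : Pf k b 1 = 1 + (b 0 : ℂ) := by
  have e : ∑ i ∈ Ico 1 k, (b i : ℂ) = 1 - (b 0 : ℂ) := by
    have := h.sum1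
    have h' : (b 0 : ℂ) + ∑ i ∈ Ico 1 k, (b i : ℂ) = 1 := by exact_mod_cast this
    linear_combination h'
  rw [Pf_eq]
  unfold S
  simp only [one_pow, mul_one]
  rw [e]; ring

/-- the correlation -/
noncomputable def T (k : ℕ) (b : ℕ → ℝ) (x y : ℂ) : ℂ := S k b (x * y) - S k b x * S k b y

theorem P_T {k : ℕ} {b : ℕ → ℝ} {x y : ℂ}
    (hx : Pf k b x = 0) (hy : Pf k b y = 0) :
    Pf k b (x * y) = - x ^ k - y ^ k - T k b x y := by
  rw [Pf_eq, T, S_root hx, S_root hy, mul_pow]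
  ring

/-- Equation E(a,b). -/
theorem eqE {k : ℕ} {b : ℕ → ℝ} {p : ℕ} (h : Data k b p) (h0 : b 0 = 0) (x y y' : ℂ)
    (hx : Pf k b x = 0) (hy : Pf k b y = 0) (hy' : Pf k b y' = 0) (hyy : y * y' = 1) :
    (x ^ k * y ^ k + y' ^ k) * (T k b x y / Pf k b (x * y)) +
    (x ^ k * y' ^ k + y ^ k) * (T k b x y' / Pf k b (x * y')) = 0 := by
  have n1 := nores h x y hx hy
  have n2 := nores h x y' hx hy'
  have n3 : Pf k b (y * y') = 1 := by rw [hyy, Pf_one h, h0]; simp
  have q := h.Q3 x y y' hx hy hy' (by rw [mul_assoc, hyy, mul_one]; exact hx) n1 n2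
    (by rw [n3]; exact one_ne_zero)
  rw [n3] at q
  have t1 : T k b x y = - x ^ k - y ^ k - Pf k b (x * y) := by rw [P_T hx hy]; ring
  have t2 : T k b x y' = - x ^ k - y' ^ k - Pf k b (x * y') := by rw [P_T hx hy']; ring
  have e6 : y ^ k * y' ^ k = 1 := by rw [← mul_pow, hyy, one_pow]
  rw [t1, t2]
  have s1 : (- x ^ k - y ^ k - Pf k b (x * y)) / Pf k b (x * y) =
      -((x ^ k + y ^ k) / Pf k b (x * y)) - 1 := by field_simp; ring
  have s2 : (- x ^ k - y' ^ k - Pf k b (x * y')) / Pf k b (x * y') =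
      -((x ^ k + y' ^ k) / Pf k b (x * y')) - 1 := by field_simp; ring
  rw [s1, s2]
  have q' : (y' ^ k + x ^ k * y ^ k) * ((x ^ k + y ^ k) / Pf k b (x * y)) +
      (y ^ k + x ^ k * y' ^ k) * ((x ^ k + y' ^ k) / Pf k b (x * y')) +
      (y ^ k + y' ^ k) * (x ^ k + 1) = 0 := by
    rw [e6] at q
    rw [← q]
    ring
  linear_combination -q'

theorem T_comm (k : ℕ) (b : ℕ → ℝ) (x y : ℂ) : T k b x y = T k b y x := by
  unfold T
  rw [mul_comm x y, mul_comm (S k b x)]

/-- Uncorrelated groups. -/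
theorem T_zero {k : ℕ} {b : ℕ → ℝ} {p : ℕ} (h : Data k b p) (h0 : b 0 = 0) (x y : ℂ)
    (hx : Pf k b x = 0) (hy : Pf k b y = 0) (h1 : x ^ k ≠ y ^ k) (h2 : x ^ k * y ^ k ≠ 1) :
    T k b x y = 0 := by
  set x' := (starRingEnd ℂ) x with hx'
  set y' := (starRingEnd ℂ) y with hy'
  have mx : x * x' = 1 := mul_conj_root h hx
  have my : y * y' = 1 := mul_conj_root h hy
  have rx' : Pf k b x' = 0 := conj_root hx
  have ry' : Pf k b y' = 0 := conj_root hy
  have E1 := eqE h h0 x y y' hx hy ry' my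
  have E2 := eqE h h0 y x x' hy hx rx' mx
  have n1 := nores h x y hx hy
  have n2 := nores h x y' hx ry'
  have n3 := nores h y x' hy rx'
  have mm : (x * y') * (y * x') = 1 := by
    linear_combination mx + x * x' * my
  have wx : x ^ k * x' ^ k = 1 := by rw [← mul_pow, mx, one_pow]
  have wy : y ^ k * y' ^ k = 1 := by rw [← mul_pow, my, one_pow]
  -- ratios agree
  have r : T k b y x' / Pf k b (y * x') = T k b x y' / Pf k b (x * y') := by
    have p1 := P_palin h (x * y') (y * x') mm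
    have p2 : (x * y') ^ k * T k b y x' = T k b x y' := by
      unfold T
      have a1 := S_palin h (x * y') (y * x') mm
      have a2 := S_palin h x x' mx
      have a3 := S_palin h y' y (by rw [mul_comm]; exact my)
      rw [mul_sub, a1, mul_pow, ← a2, ← a3]
      ring
    rw [← p1, ← p2]
    have : (x * y') ^ k ≠ 0 := by
      rw [mul_pow]
      apply mul_ne_zero (left_ne_zero_of_mul_eq_one wx) (right_ne_zero_of_mul_eq_one wy)
    rw [mul_div_mul_left _ _ this]
  rw [r, T_comm k b y x, mul_comm y x] at E2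
  have det : (x ^ k * y ^ k) * ((x ^ k * y ^ k + y' ^ k) * (y ^ k * x' ^ k + x ^ k)
      - (x ^ k * y' ^ k + y ^ k) * (y ^ k * x ^ k + x' ^ k)) =
      -((y ^ k - x ^ k) * (x ^ k * y ^ k - 1) * (1 - x ^ k) * (1 - y ^ k)) := by
    generalize x ^ k = wa at *
    generalize y ^ k = wb at *
    generalize x' ^ k = wa' at *
    generalize y' ^ k = wb' at *
    have hwa' : wa' = wa⁻¹ := eq_inv_of_mul_eq_one_right wx
    have hwb' : wb' = wb⁻¹ := eq_inv_of_mul_eq_one_right wy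
    have wa0 : wa ≠ 0 := left_ne_zero_of_mul_eq_one wx
    have wb0 : wb ≠ 0 := left_ne_zero_of_mul_eq_one wy
    rw [hwa', hwb']
    field_simp
    ring
  have hX : (x ^ k * y ^ k) * ((x ^ k * y ^ k + y' ^ k) * (y ^ k * x' ^ k + x ^ k)
      - (x ^ k * y' ^ k + y ^ k) * (y ^ k * x ^ k + x' ^ k)) *
      (T k b x y / Pf k b (x * y)) = 0 := by
    linear_combination (x ^ k * y ^ k) * (y ^ k * x' ^ k + x ^ k) * E1 -
      (x ^ k * y ^ k) * (x ^ k * y' ^ k + y ^ k) * E2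
  rw [det] at hX
  have hne : -((y ^ k - x ^ k) * (x ^ k * y ^ k - 1) * (1 - x ^ k) * (1 - y ^ k)) ≠ 0 := by
    apply neg_ne_zero.mpr
    apply mul_ne_zero (mul_ne_zero (mul_ne_zero _ _) _) _
    · exact sub_ne_zero.mpr (Ne.symm h1)
    · exact sub_ne_zero.mpr h2
    · exact sub_ne_zero.mpr (Ne.symm (w_ne_one h x hx))
    · exact sub_ne_zero.mpr (Ne.symm (w_ne_one h y hy))
  rcases mul_eq_zero.mp hX with h3 | h3
  · exact absurd h3 hne
  · rcases div_eq_zero_iff.mp h3 with h4 | h4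
    · exact h4
    · exact absurd h4 n1

end Pool.Agent.Helper470.ZeroCase
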