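import Pool.Agent.Helper470.ZeroCase

set_option autoImplicit false

open Finset

namespace Pool.Agent.Helper470.ZeroCase

open Pool.Agent.Helper470.Basic Pool.Agent.Helper470.Perturb Pool.Agent.Helper470.Roots

theorem S_one {k : ℕ} {b : ℕ → ℝ} {p : ℕ} (h : Data k b p) (h0 : b 0 = 0) : S k b 1 = 1 := by
  unfold S
  have := h.sum1
  rw [h0, zero_add] at this
  simp only [one_pow, mul_one]
  exact_mod_cast this

theorem w_ne_neg_one {k : ℕ} {b : ℕ → ℝ} {p : ℕ} (h : Data k b p) (h0 : b 0 = 0) (a : ℂ)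
    (ha : Pf k b a = 0) : a ^ k ≠ -1 := by
  classical
  intro hw
  have ha0 := root_ne_zero h.hk ha
  let f : ℂ → ℂ := fun z => if z ^ k = -1 then z else a * z
  have hf1 : ∀ z, z ^ k = -1 → f z = z := fun z hz => if_pos hz
  have hf2 : ∀ z, ¬ z ^ k = -1 → f z = a * z := fun z hz => if_neg hz
  have hinj : Set.InjOn f (Z k b) := by
    intro x hx y hy hxy
    have hx' := (mem_Z h.hk).mp hx
    have hy' := (mem_Z h.hk).mp hy
    by_cases h1 : x ^ k = -1 <;> by_cases h2 : y ^ k = -1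
    · rw [hf1 x h1, hf1 y h2] at hxy; exact hxy
    · rw [hf1 x h1, hf2 y h2] at hxy
      exfalso
      have : x ^ k = a ^ k * y ^ k := by rw [hxy, mul_pow]
      rw [h1, hw] at this
      exact w_ne_one h y hy' (by linear_combination this)
    · rw [hf2 x h1, hf1 y h2] at hxy
      exfalso
      have : a ^ k * x ^ k = y ^ k := by rw [← hxy, mul_pow]
      rw [h2, hw] at this
      exact w_ne_one h x hx' (by linear_combination -this)
    · rw [hf2 x h1, hf2 y h2] at hxy
      exact mul_left_cancel₀ ha0 hxy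
  have hev : ∀ z ∈ Z k b, S k b (f z) = 0 := by
    intro z hz
    have hz' := (mem_Z h.hk).mp hz
    by_cases h1 : z ^ k = -1
    · rw [hf1 z h1, S_root hz', h1]; ring
    · rw [hf2 z h1]
      have ht := T_zero h h0 a z ha hz' (by rw [hw]; exact fun e => h1 e.symm) (by
        rw [hw]
        intro e
        exact h1 (by linear_combination -e))
      unfold T at ht
      rw [S_root ha, hw] at ht
      linear_combination ht
  have hpoly : (∑ i ∈ Ico 1 k, Polynomial.C (b i : ℂ) * Polynomial.X ^ i : Polynomial ℂ) = 0 := by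
    apply Polynomial.eq_zero_of_degree_lt_of_eval_finset_eq_zero ((Z k b).image f)
    · rw [card_image_of_injOn hinj, card_Z h]
      apply lt_of_le_of_lt (Polynomial.degree_sum_le _ _)
      rw [Finset.sup_lt_iff (by exact_mod_cast WithBot.bot_lt_coe k)]
      intro i hi
      simp only [mem_Ico] at hi
      apply lt_of_le_of_lt (Polynomial.degree_C_mul_X_pow_le _ _)
      exact_mod_cast hi.2
    · intro y hy
      obtain ⟨z, hz, rfl⟩ := mem_image.mp hy
      have := hev z hz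
      unfold S at this
      simpa [Polynomial.eval_finsetSum] using this
  have h1 := congrArg (Polynomial.eval 1) hpoly
  have h2 := S_one h h0
  unfold S at h2
  simp only [Polynomial.eval_finsetSum, Polynomial.eval_mul, Polynomial.eval_C,
    Polynomial.eval_pow, Polynomial.eval_X, Polynomial.eval_zero] at h1
  rw [h1] at h2
  exact zero_ne_one h2

theorem schur_pos {ι κ : Type} (G : Finset ι) (I : Finset κ) (β : κ → ℝ) (hβ : ∀ i, 0 ≤ β i)
    (U : ι → κ → ℂ) (X : ι → ι → ℂ)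
    (hX : ∀ a ∈ G, ∀ c ∈ G, X a c =
      ∑ i ∈ I, (β i : ℂ) * (U a i * (starRingEnd ℂ) (U c i))) (j : ℕ) :
    ∀ v : ι → ℂ, ∃ r : ℝ, 0 ≤ r ∧
      ∑ a ∈ G, ∑ c ∈ G, v a * (starRingEnd ℂ) (v c) * X a c ^ j = (r : ℂ) := by
  induction j with
  | zero =>
    intro v
    refine ⟨Complex.normSq (∑ a ∈ G, v a), Complex.normSq_nonneg _, ?_⟩
    rw [← Complex.mul_conj, map_sum, sum_mul_sum]
    simp
  | succ j ih =>
    intro v
    choose r hr0 hr using fun i => ih (fun a => v a * U a i)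
    refine ⟨∑ i ∈ I, β i * r i, sum_nonneg (fun i _ => mul_nonneg (hβ i) (hr0 i)), ?_⟩
    push_cast
    simp_rw [← hr, mul_sum]
    rw [sum_comm' (t' := G) (s' := fun _ => I) (by simp [and_comm])]
    apply sum_congr rfl
    intro a ha
    rw [sum_comm' (t' := G) (s' := fun _ => I) (by simp [and_comm])]
    apply sum_congr rfl
    intro c hc
    rw [pow_succ, hX a ha c hc, mul_sum, mul_sum]
    apply sum_congr rfl
    intro i _
    rw [map_mul]
    ring

theorem Df_palin {k : ℕ} {b : ℕ → ℝ} {p : ℕ} (h : Data k b p) (z y : ℂ) (hzy : z * y = 1)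
    (hz : Pf k b z = 0) : z ^ k * Df k b y = - Df k b z := by
  have hS := S_root hz
  unfold S at hS
  unfold Df
  have e7 : ∑ i ∈ Ico 1 k, ((i : ℂ) * (b i : ℂ)) * z ^ (k - i) =
      ∑ i ∈ Ico 1 k, (((k - i : ℕ) : ℂ) * (b (k - i) : ℂ)) * z ^ i := by
    have := Finset.sum_Ico_reflect
      (fun i => (((k - i : ℕ) : ℂ) * (b (k - i) : ℂ)) * z ^ i) 1 (m := k) (n := k) (by omega)
    rw [show k + 1 - k = 1 by omega, show k + 1 - 1 = k by omega] at this
    rw [← this]
    apply sum_congr rfl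
    intro i hi
    simp only [mem_Ico] at hi
    rw [show k - (k - i) = i by omega]
  have e8 : ∑ i ∈ Ico 1 k, (((k - i : ℕ) : ℂ) * (b (k - i) : ℂ)) * z ^ i =
      (k : ℂ) * ∑ i ∈ Ico 1 k, (b i : ℂ) * z ^ i -
      ∑ i ∈ Ico 1 k, (i : ℂ) * (b i : ℂ) * z ^ i := by
    rw [mul_sum, ← sum_sub_distrib]
    apply sum_congr rfl
    intro i hi
    simp only [mem_Ico] at hi
    rw [← palin h i hi.1 hi.2, Nat.cast_sub (by omega)]
    ring
  have e9 : z ^ k * ∑ i ∈ Ico 1 k, (i : ℂ) * (b i : ℂ) * y ^ i =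
      ∑ i ∈ Ico 1 k, ((i : ℂ) * (b i : ℂ)) * z ^ (k - i) := by
    rw [mul_sum]
    apply sum_congr rfl
    intro i hi
    simp only [mem_Ico] at hi
    have e5 : z ^ k = z ^ (k - i) * z ^ i := by
      rw [← pow_add]; congr 1; omega
    have e6 : z ^ i * y ^ i = 1 := by rw [← mul_pow, hzy, one_pow]
    rw [e5]
    linear_combination (i : ℂ) * (b i : ℂ) * z ^ (k - i) * e6
  have e10 : z ^ k * y ^ k = 1 := by rw [← mul_pow, hzy, one_pow]
  rw [mul_sub, e9, e7, e8, hS]
  linear_combination (k : ℂ) * e10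

theorem Df_conj (k : ℕ) (b : ℕ → ℝ) (z : ℂ) :
    Df k b ((starRingEnd ℂ) z) = (starRingEnd ℂ) (Df k b z) := by
  unfold Df
  simp only [map_sub, map_sum, map_mul, map_pow, Complex.conj_ofReal, map_natCast]

theorem lagrange_T {k : ℕ} {b : ℕ → ℝ} {p : ℕ} (h : Data k b p) (c : ℂ) :
    ∑ a ∈ Z k b, (Df k b a)⁻¹ * T k b a c = 0 := by
  have e1 : ∀ y : ℂ, ∑ a ∈ Z k b, (Df k b a)⁻¹ * S k b (a * y) = 0 := by
    intro y
    unfold S
    simp_rw [mul_sum]
    rw [sum_comm]
    apply sum_eq_zero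
    intro i hi
    simp only [mem_Ico] at hi
    have := lagrange h i hi.1 hi.2
    have e2 : ∀ a ∈ Z k b, (Df k b a)⁻¹ * ((b i : ℂ) * (a * y) ^ i) =
        (b i : ℂ) * y ^ i * ((Df k b a)⁻¹ * a ^ i) := by
      intro a _
      rw [mul_pow]; ring
    rw [sum_congr rfl e2, ← mul_sum, this, mul_zero]
  unfold T
  simp_rw [mul_sub]
  rw [sum_sub_distrib, e1 c]
  have e3 : ∀ a ∈ Z k b, (Df k b a)⁻¹ * (S k b a * S k b c) =
      S k b c * ((Df k b a)⁻¹ * S k b (a * 1)) := by
    intro a _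
    rw [mul_one]; ring
  rw [sum_congr rfl e3, ← mul_sum, e1 1]
  ring

end Pool.Agent.Helper470.ZeroCase
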