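import Pool.Agent.Helper470.ZeroCase2

set_option autoImplicit false

open Finset

namespace Pool.Agent.Helper470.ZeroCase

open Pool.Agent.Helper470.Basic Pool.Agent.Helper470.Perturb Pool.Agent.Helper470.Roots

/-- conjugation -/
noncomputable abbrev cj (z : ℂ) : ℂ := (starRingEnd ℂ) z

theorem cj_pow (z : ℂ) (n : ℕ) : cj z ^ n = cj (z ^ n) := by
  unfold cj; rw [map_pow]

theorem w_cj {k : ℕ} {b : ℕ → ℝ} {p : ℕ} (h : Data k b p) {z : ℂ}
    (hz : Pf k b z = 0) : z ^ k * cj (z ^ k) = 1 := by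
  rw [← cj_pow, ← mul_pow, mul_conj_root h hz, one_pow]

/-- Gram form of the correlation inside a group. -/
theorem gram {k : ℕ} {b : ℕ → ℝ} {p : ℕ} (h : Data k b p) (h0 : b 0 = 0) (a c w : ℂ)
    (ha : Pf k b a = 0) (hc : Pf k b c = 0) (hwa : a ^ k = w) (hwc : c ^ k = w) :
    T k b a (cj c) = ∑ i ∈ Ico 1 k, (b i : ℂ) * ((a ^ i - (1 + w)) * cj (c ^ i - (1 + w))) := by
  have s1 := S_root ha
  have s2 := S_root (conj_root hc)
  have s3 := S_one h h0
  rw [hwa] at s1
  have hcc : (starRingEnd ℂ) c ^ k = cj w := by rw [← hwc]; exact cj_pow c k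
  rw [hcc] at s2
  have e : ∑ i ∈ Ico 1 k, (b i : ℂ) * ((a ^ i - (1 + w)) * cj (c ^ i - (1 + w))) =
      S k b (a * cj c) - (1 + cj w) * S k b a - (1 + w) * S k b (cj c)
        + (1 + w) * (1 + cj w) * S k b 1 := by
    unfold S
    rw [mul_sum, mul_sum, mul_sum, ← sum_sub_distrib, ← sum_sub_distrib, ← sum_add_distrib]
    apply sum_congr rfl
    intro i _
    unfold cj
    simp only [map_sub, map_add, map_one, map_pow, one_pow, mul_one, mul_pow]
    ring
  rw [e, T, s3, s1]
  unfold cj at *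
  rw [s2]
  ring

theorem T_real {k : ℕ} {b : ℕ → ℝ} {p : ℕ} (h : Data k b p) (a c w : ℂ)
    (ha : Pf k b a = 0) (hc : Pf k b c = 0) (hwa : a ^ k = w) (hwc : c ^ k = w) :
    T k b c (cj a) = T k b a (cj c) := by
  have ma := mul_conj_root h ha
  have mc := mul_conj_root h hc
  have mm : (a * cj c) * (c * cj a) = 1 := by
    unfold cj
    linear_combination mc + c * (starRingEnd ℂ) c * ma
  have e := S_palin h _ _ mm
  have hk1 : (a * cj c) ^ k = 1 := by
    rw [mul_pow, cj_pow, hwa, hwc, ← hwa]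
    exact w_cj h ha
  rw [hk1, one_mul] at e
  unfold T
  rw [e, S_root ha, S_root hc, S_root (conj_root ha), S_root (conj_root hc)]
  have e1 : (starRingEnd ℂ) a ^ k = cj w := by rw [← hwa]; exact cj_pow a k
  have e2 : (starRingEnd ℂ) c ^ k = cj w := by rw [← hwc]; exact cj_pow c k
  rw [e1, e2, hwa, hwc]

/-- in-group relation -/
theorem group_rel {k : ℕ} {b : ℕ → ℝ} {p : ℕ} (h : Data k b p) (h0 : b 0 = 0) (a c w : ℂ)
    (ha : Pf k b a = 0) (hc : Pf k b c = 0) (hwa : a ^ k = w) (hwc : c ^ k = w) :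
    (-(w + cj w)) * (1 + (-(w + cj w)) - T k b a (cj c)) * (T k b a c / w) =
      -2 * T k b a (cj c) := by
  have E := eqE h h0 a c (cj c) ha hc (conj_root hc) (mul_conj_root h hc)
  have n1 := nores h a c ha hc
  have n2 := nores h a (cj c) ha (conj_root hc)
  have hw1 : w * cj w = 1 := by rw [← hwa]; exact w_cj h ha
  have hcc : (cj c) ^ k = cj w := by rw [← hwc]; exact cj_pow c k
  have p1 := P_T ha hc
  have p2 := P_T ha (conj_root hc)
  change Pf k b (a * cj c) = - a ^ k - (cj c) ^ k - T k b a (cj c) at p2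
  rw [hwa, hwc] at p1
  rw [hwa, hcc] at p2
  rw [hwa, hwc, hcc] at E
  have hwm : 1 + w ≠ 0 := by
    intro e
    exact w_ne_neg_one h h0 a ha (by rw [hwa]; linear_combination e)
  have hw0 : w ≠ 0 := left_ne_zero_of_mul_eq_one hw1
  rw [hw1] at E
  have E' : (w * w + cj w) * T k b a c * Pf k b (a * cj c) +
      (1 + w) * T k b a (cj c) * Pf k b (a * c) = 0 := by
    field_simp at E
    linear_combination E
  rw [p1, p2] at E'
  set X := T k b a (cj c) with hX
  obtain ⟨Y, hY⟩ : ∃ Y, T k b a c = w * Y := ⟨T k b a c / w, by field_simp⟩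
  rw [hY] at E' ⊢
  rw [mul_div_cancel_left₀ _ hw0]
  set w' := cj w with hw'
  have E2 : (w * (1 + w)) * ((-(w + w')) * (1 + (-(w + w')) - X) * Y + 2 * X) = 0 := by
    linear_combination (-1 : ℂ) * E' + (w * X * Y + w ^ 2 * Y + w * w' * Y) * hw1
  rcases mul_eq_zero.mp E2 with h1 | h1
  · exact absurd h1 (mul_ne_zero hw0 hwm)
  · linear_combination h1

/-- the group identity -/
theorem group_sum {k : ℕ} {b : ℕ → ℝ} {p : ℕ} (h : Data k b p) (h0 : b 0 = 0) (w c : ℂ)
    (hw1 : w * cj w = 1) (hww : w ≠ cj w) (hc : Pf k b c = 0) (hwc : c ^ k = w) :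
    ∑ a ∈ (Z k b).filter (fun z => z ^ k = w),
      (Df k b a)⁻¹ * (T k b a (cj c) - T k b a c / w) = 0 := by
  classical
  have hw0 : w ≠ 0 := left_ne_zero_of_mul_eq_one hw1
  have L := lagrange_T h c
  set f : ℂ → ℂ := fun a => (Df k b a)⁻¹ * T k b a c with hf
  -- split
  have e1 : ∑ a ∈ Z k b, f a = ∑ a ∈ (Z k b).filter (fun z => z ^ k = w), f a +
      ∑ a ∈ (Z k b).filter (fun z => z ^ k = cj w), f a := by
    have hdisj : Disjoint ((Z k b).filter (fun z => z ^ k = w))
        ((Z k b).filter (fun z => z ^ k = cj w)) := by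
      rw [disjoint_filter]
      intro x _ hx1 hx2
      exact hww (hx1.symm.trans hx2)
    rw [← sum_union hdisj]
    symm
    apply sum_subset
    · intro x hx
      rcases mem_union.mp hx with h1 | h1
      · exact (mem_filter.mp h1).1
      · exact (mem_filter.mp h1).1
    · intro x hx hnot
      rw [mem_union, mem_filter, mem_filter] at hnot
      simp only [hx, true_and, not_or] at hnot
      have hx' := (mem_Z h.hk).mp hx
      have : T k b x c = 0 := by
        apply T_zero h h0 x c hx' hc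
        · rw [hwc]; exact hnot.1
        · rw [hwc]
          intro e
          apply hnot.2
          have : x ^ k = x ^ k * (w * cj w) := by rw [hw1, mul_one]
          rw [this, ← mul_assoc, e, one_mul]
      rw [hf]
      simp only [this, mul_zero]
  have e2 : ∑ a ∈ (Z k b).filter (fun z => z ^ k = cj w), f a =
      ∑ a ∈ (Z k b).filter (fun z => z ^ k = w), f (cj a) := by
    apply sum_bij' (fun a _ => cj a) (fun a _ => cj a)
    · intro a ha
      rw [mem_filter] at ha ⊢
      refine ⟨(mem_Z h.hk).mpr (conj_root ((mem_Z h.hk).mp ha.1)), ?_⟩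
      rw [cj_pow, ha.2]
      exact Complex.conj_conj w
    · intro a ha
      rw [mem_filter] at ha ⊢
      refine ⟨(mem_Z h.hk).mpr (conj_root ((mem_Z h.hk).mp ha.1)), ?_⟩
      rw [cj_pow, ha.2]
    · intro a _
      exact Complex.conj_conj a
    · intro a _
      exact Complex.conj_conj a
    · intro a _
      rw [show cj (cj a) = a from Complex.conj_conj a]
  have e3 : ∀ a ∈ (Z k b).filter (fun z => z ^ k = w),
      f (cj a) = - w * ((Df k b a)⁻¹ * T k b a (cj c)) := by
    intro a ha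
    rw [mem_filter] at ha
    have ha' := (mem_Z h.hk).mp ha.1
    have d1 := Df_palin h a (cj a) (mul_conj_root h ha') ha'
    rw [ha.2] at d1
    have d2 : Df k b a ≠ 0 := h.simple_root a ha'
    have d3 : (Df k b (cj a))⁻¹ = - w * (Df k b a)⁻¹ := by
      have d4 : Df k b a = - (w * Df k b (cj a)) := by rw [d1]; ring
      have d5 : Df k b (cj a) ≠ 0 := by
        intro e
        rw [e, mul_zero, neg_zero] at d4
        exact d2 d4
      rw [d4]
      field_simp
    rw [hf]
    simp only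
    rw [d3, T_comm k b (cj a) c, T_real h a c w ha' hc ha.2 hwc]
    ring
  rw [sum_congr rfl e3] at e2
  rw [e1, e2, ← sum_add_distrib] at L
  have e4 : ∀ a ∈ (Z k b).filter (fun z => z ^ k = w),
      (Df k b a)⁻¹ * (T k b a (cj c) - T k b a c / w) =
      (-w⁻¹) * (f a + - w * ((Df k b a)⁻¹ * T k b a (cj c))) := by
    intro a _
    rw [hf]
    simp only
    field_simp
    ring
  rw [sum_congr rfl e4, ← mul_sum, L, mul_zero]

end Pool.Agent.Helper470.ZeroCase
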