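import Pool.Agent.Helper470.ZeroCase3

set_option autoImplicit false

open Finset

namespace Pool.Agent.Helper470.ZeroCase

open Pool.Agent.Helper470.Basic Pool.Agent.Helper470.Perturb Pool.Agent.Helper470.Roots

/-- abstract power series positivity: if all power moments are nonnegative and a
positive combination vanishes, then all moments vanish -/
theorem moments_zero {ι : Type} (G : Finset ι) (v : ι → ℂ) (X : ι → ι → ℂ) (C : ℝ)
    (hC : 1 < C) (hX : ∀ a ∈ G, ∀ c ∈ G, ‖X a c‖ < 1 + C)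
    (hq : ∀ j : ℕ, ∃ r : ℝ, 0 ≤ r ∧
      ∑ a ∈ G, ∑ c ∈ G, v a * cj (v c) * X a c ^ j = (r : ℂ))
    (hz : ∑ a ∈ G, ∑ c ∈ G, v a * cj (v c) *
      (X a c + (2 / (C : ℂ)) * (X a c / (1 + (C : ℂ) - X a c))) = 0) (j : ℕ) :
    ∑ a ∈ G, ∑ c ∈ G, v a * cj (v c) * X a c ^ (j + 1) = 0 := by
  choose q hq0 hq1 using hq
  have hC1 : (1 + (C : ℂ)) ≠ 0 := by
    have : (1 + C : ℝ) ≠ 0 := by linarith
    exact_mod_cast this
  have hC0 : (C : ℂ) ≠ 0 := by
    have : (C : ℝ) ≠ 0 := by linarith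
    exact_mod_cast this
  have hn : ‖(1 + (C : ℂ))‖ = 1 + C := by
    have : (1 + (C : ℂ)) = ((1 + C : ℝ) : ℂ) := by push_cast; ring
    rw [this, Complex.norm_real, Real.norm_eq_abs, abs_of_pos (by linarith)]
  have hs : ∀ a ∈ G, ∀ c ∈ G, HasSum
      (fun j : ℕ => v a * cj (v c) * X a c ^ (j + 1) * ((1 + (C : ℂ))⁻¹) ^ (j + 1))
      (v a * cj (v c) * (X a c / (1 + (C : ℂ) - X a c))) := by
    intro a ha c hc
    set r := X a c / (1 + (C : ℂ)) with hr
    have hr1 : ‖r‖ < 1 := by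
      rw [hr, norm_div, hn, div_lt_one (by linarith)]
      exact hX a ha c hc
    have h1 := (hasSum_geometric_of_norm_lt_one hr1).mul_left (v a * cj (v c) * r)
    have hne : 1 + (C : ℂ) - X a c ≠ 0 := by
      intro e
      have : X a c = 1 + (C : ℂ) := by linear_combination -e
      have h2 := hX a ha c hc
      rw [this, hn] at h2
      exact lt_irrefl _ h2
    have g1 : (fun j : ℕ => v a * cj (v c) * X a c ^ (j + 1) * ((1 + (C : ℂ))⁻¹) ^ (j + 1)) =
        (fun j : ℕ => v a * cj (v c) * r * r ^ j) := by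
      funext j
      rw [hr, div_eq_mul_inv]
      ring
    have g2 : v a * cj (v c) * (X a c / (1 + (C : ℂ) - X a c)) =
        v a * cj (v c) * r * (1 - r)⁻¹ := by
      have g3 : 1 - r = (1 + (C : ℂ) - X a c) / (1 + (C : ℂ)) := by
        rw [hr]
        field_simp
      rw [g3, hr]
      field_simp
    rw [g1, g2]
    exact h1
  have hs2 : HasSum (fun j : ℕ => ∑ a ∈ G, ∑ c ∈ G,
      v a * cj (v c) * X a c ^ (j + 1) * ((1 + (C : ℂ))⁻¹) ^ (j + 1))
      (∑ a ∈ G, ∑ c ∈ G, v a * cj (v c) * (X a c / (1 + (C : ℂ) - X a c))) :=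
    hasSum_sum (fun a ha => hasSum_sum (fun c hc => hs a ha c hc))
  have e1 : ∑ a ∈ G, ∑ c ∈ G, v a * cj (v c) * (X a c / (1 + (C : ℂ) - X a c)) =
      ((-(C / 2) * q 1 : ℝ) : ℂ) := by
    have h1 := hq1 1
    have h2 : ∑ a ∈ G, ∑ c ∈ G, v a * cj (v c) *
      (X a c + (2 / (C : ℂ)) * (X a c / (1 + (C : ℂ) - X a c))) =
      ∑ a ∈ G, ∑ c ∈ G, v a * cj (v c) * X a c ^ 1 +
      (2 / (C : ℂ)) * ∑ a ∈ G, ∑ c ∈ G, v a * cj (v c) * (X a c / (1 + (C : ℂ) - X a c)) := by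
      rw [mul_sum, ← sum_add_distrib]
      apply sum_congr rfl
      intro a _
      rw [mul_sum, ← sum_add_distrib]
      apply sum_congr rfl
      intro c _
      ring
    rw [h2, h1] at hz
    push_cast
    have h3 : (2 / (C : ℂ)) * ∑ a ∈ G, ∑ c ∈ G, v a * cj (v c) * (X a c / (1 + (C : ℂ) - X a c))
      = - (q 1 : ℂ) := by linear_combination hz
    have h4 : (C : ℂ) / 2 * (2 / (C : ℂ)) = 1 := by field_simp
    linear_combination ((C : ℂ) / 2) * h3 -
      (∑ a ∈ G, ∑ c ∈ G, v a * cj (v c) * (X a c / (1 + (C : ℂ) - X a c))) * h4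
  have e2 : ∀ j : ℕ, ∑ a ∈ G, ∑ c ∈ G,
      v a * cj (v c) * X a c ^ (j + 1) * ((1 + (C : ℂ))⁻¹) ^ (j + 1) =
      ((q (j + 1) * ((1 + C)⁻¹) ^ (j + 1) : ℝ) : ℂ) := by
    intro j
    push_cast
    rw [← hq1 (j + 1), sum_mul]
    apply sum_congr rfl
    intro a _
    rw [sum_mul]
  rw [e1] at hs2
  simp_rw [e2] at hs2
  have hs3 : HasSum (fun j : ℕ => q (j + 1) * ((1 + C)⁻¹) ^ (j + 1)) (-(C / 2) * q 1) := by
    exact_mod_cast hs2
  have hnn : ∀ j : ℕ, 0 ≤ q (j + 1) * ((1 + C)⁻¹) ^ (j + 1) := by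
    intro j
    apply mul_nonneg (hq0 _)
    apply pow_nonneg
    apply inv_nonneg.mpr
    linarith
  have h5 := hs3.nonneg hnn
  have h6 : q 1 = 0 := by
    have := hq0 1
    nlinarith
  rw [h6, mul_zero] at hs3
  have h7 := (hasSum_zero_iff_of_nonneg hnn).mp hs3
  have h8 := congrFun h7 j
  simp only [Pi.zero_apply] at h8
  rcases mul_eq_zero.mp h8 with h9 | h9
  · rw [hq1, h9]; simp
  · exfalso
    have : ((1 + C)⁻¹) ^ (j + 1) ≠ 0 := pow_ne_zero _ (inv_ne_zero (by linarith))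
    exact this h9

theorem poly_moment {ι : Type} (G : Finset ι) (v : ι → ℂ) (X : ι → ι → ℂ)
    (hm : ∀ j : ℕ, ∑ a ∈ G, ∑ c ∈ G, v a * cj (v c) * X a c ^ (j + 1) = 0)
    (f : Polynomial ℂ) :
    ∑ a ∈ G, ∑ c ∈ G, v a * cj (v c) * X a c * f.eval (X a c) = 0 := by
  have e : ∀ a ∈ G, ∀ c ∈ G, v a * cj (v c) * X a c * f.eval (X a c) =
      ∑ i ∈ range (f.natDegree + 1), f.coeff i * (v a * cj (v c) * X a c ^ (i + 1)) := by
    intro a _ c _
    rw [Polynomial.eval_eq_sum_range, mul_sum]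
    apply sum_congr rfl
    intro i _
    ring
  rw [sum_congr rfl (fun a ha => sum_congr rfl (fun c hc => e a ha c hc))]
  have e2 : ∀ a ∈ G, ∑ c ∈ G, ∑ i ∈ range (f.natDegree + 1),
      f.coeff i * (v a * cj (v c) * X a c ^ (i + 1)) =
      ∑ i ∈ range (f.natDegree + 1), f.coeff i * ∑ c ∈ G, (v a * cj (v c) * X a c ^ (i + 1)) := by
    intro a _
    rw [sum_comm]
    apply sum_congr rfl
    intro i _
    rw [mul_sum]
  rw [sum_congr rfl e2, sum_comm]
  apply sum_eq_zero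
  intro i _
  rw [← mul_sum, hm i, mul_zero]

/-- restricted moment -/
theorem level_sum {ι : Type} [DecidableEq ι] (G : Finset ι) (v : ι → ℂ) (X : ι → ι → ℂ)
    (hm : ∀ j : ℕ, ∑ a ∈ G, ∑ c ∈ G, v a * cj (v c) * X a c ^ (j + 1) = 0)
    (D : ℂ) (hD : D ≠ 0) :
    ∑ x ∈ (G ×ˢ G).filter (fun x => X x.1 x.2 = D), v x.1 * cj (v x.2) = 0 := by
  classical
  set V : Finset ℂ := ((G ×ˢ G).image (fun x => X x.1 x.2)).erase D with hV
  set f : Polynomial ℂ := ∏ y ∈ V, (Polynomial.X - Polynomial.C y) with hf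
  have h1 := poly_moment G v X hm f
  rw [← sum_product'] at h1
  have hfD : f.eval D ≠ 0 := by
    rw [hf, Polynomial.eval_prod]
    apply prod_ne_zero_iff.mpr
    intro y hy
    rw [Polynomial.eval_sub, Polynomial.eval_X, Polynomial.eval_C]
    apply sub_ne_zero.mpr
    rw [hV] at hy
    exact (ne_of_mem_erase hy).symm
  have hf0 : ∀ x ∈ G ×ˢ G, X x.1 x.2 ≠ D → f.eval (X x.1 x.2) = 0 := by
    intro x hx hne
    rw [hf, Polynomial.eval_prod]
    apply prod_eq_zero (i := X x.1 x.2)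
    · rw [hV]
      exact mem_erase.mpr ⟨hne, mem_image.mpr ⟨x, hx, rfl⟩⟩
    · simp
  rw [← sum_filter_add_sum_filter_not (G ×ˢ G) (fun x => X x.1 x.2 = D)] at h1
  have h2 : ∑ x ∈ (G ×ˢ G).filter (fun x => ¬ X x.1 x.2 = D),
      v x.1 * cj (v x.2) * X x.1 x.2 * f.eval (X x.1 x.2) = 0 := by
    apply sum_eq_zero
    intro x hx
    rw [mem_filter] at hx
    rw [hf0 x hx.1 hx.2, mul_zero]
  have h3 : ∑ x ∈ (G ×ˢ G).filter (fun x => X x.1 x.2 = D),
      v x.1 * cj (v x.2) * X x.1 x.2 * f.eval (X x.1 x.2) =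
      (D * f.eval D) * ∑ x ∈ (G ×ˢ G).filter (fun x => X x.1 x.2 = D), v x.1 * cj (v x.2) := by
    rw [mul_sum]
    apply sum_congr rfl
    intro x hx
    rw [mem_filter] at hx
    rw [hx.2]
    ring
  rw [h2, add_zero, h3] at h1
  rcases mul_eq_zero.mp h1 with h4 | h4
  · exact absurd h4 (mul_ne_zero hD hfD)
  · exact h4

end Pool.Agent.Helper470.ZeroCase
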